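import Pool.Agent.Work.MP_c709de_al_top.Diff

/-! The number of differences is at least twice the number of sums. -/

namespace MPc709deT

open Finset

/-- monotonicity step of `Q(p,i,c) = binom(p+i,p) binom(p+c,p) / binom(p+i+c,p)` in `p`. -/
theorem Q_step {p i c : ℕ} (h : 2 * (p + i + c).choose p ≤ (p + i).choose p * (p + c).choose p) :
    2 * (p + 1 + i + c).choose (p + 1) ≤
      (p + 1 + i).choose (p + 1) * (p + 1 + c).choose (p + 1) := by
  have e1 : (p + i + 1) * (p + i).choose p = (p + i + 1).choose (p + 1) * (p + 1) :=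
    Nat.add_one_mul_choose_eq (p + i) p
  have e2 : (p + c + 1) * (p + c).choose p = (p + c + 1).choose (p + 1) * (p + 1) :=
    Nat.add_one_mul_choose_eq (p + c) p
  have e3 : (p + i + c + 1) * (p + i + c).choose p = (p + i + c + 1).choose (p + 1) * (p + 1) :=
    Nat.add_one_mul_choose_eq (p + i + c) p
  have f1 : p + 1 + i = p + i + 1 := by omega
  have f2 : p + 1 + c = p + c + 1 := by omega
  have f3 : p + 1 + i + c = p + i + c + 1 := by omega
  rw [f1, f2, show p + i + 1 + c = p + i + c + 1 by omega]
  set A := (p + i).choose p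
  set B := (p + c).choose p
  set M := (p + i + c).choose p
  set A' := (p + i + 1).choose (p + 1)
  set B' := (p + c + 1).choose (p + 1)
  set M' := (p + i + c + 1).choose (p + 1)
  have h1 : 2 * M' * ((p + 1) * (p + 1)) ≤ A' * B' * ((p + 1) * (p + 1)) := by
    calc 2 * M' * ((p + 1) * (p + 1)) = 2 * (M' * (p + 1)) * (p + 1) := by ring
      _ = 2 * ((p + i + c + 1) * M) * (p + 1) := by rw [e3]
      _ = (2 * M) * ((p + i + c + 1) * (p + 1)) := by ring
      _ ≤ (A * B) * ((p + i + 1) * (p + c + 1)) := by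
          apply Nat.mul_le_mul h
          nlinarith [Nat.zero_le (i * c)]
      _ = ((p + i + 1) * A) * ((p + c + 1) * B) := by ring
      _ = (A' * (p + 1)) * (B' * (p + 1)) := by rw [e1, e2]
      _ = A' * B' * ((p + 1) * (p + 1)) := by ring
  exact Nat.le_of_mul_le_mul_right h1 (by positivity)

theorem Q_mono_p {p i c : ℕ} (h : 2 * (p + i + c).choose p ≤ (p + i).choose p * (p + c).choose p)
    (q : ℕ) : 2 * (p + q + i + c).choose (p + q) ≤
      (p + q + i).choose (p + q) * (p + q + c).choose (p + q) := by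
  induction q with
  | zero => exact h
  | succ q ih => exact Q_step ih

theorem cf (x y : ℕ) : (x + y).choose x * (x.factorial * y.factorial) = (x + y).factorial := by
  rw [← mul_assoc, Nat.choose_symm_add]
  exact Nat.add_choose_mul_factorial_mul_factorial x y

/-- symmetry: exchanging `p` and `i` -/
theorem Q_symm_aux (p i c : ℕ) :
    (p + i).choose p * (p + c).choose p * (i + p + c).choose i =
      (i + p).choose i * (i + c).choose i * (p + i + c).choose p := by
  have h2 := cf p c
  have h3 := cf i c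
  have h4 : (i + p + c).choose i * (i.factorial * (p + c).factorial) = (i + p + c).factorial := by
    have : i + p + c = i + (p + c) := by ring
    rw [this]; exact cf i (p + c)
  have h5 : (p + i + c).choose p * (p.factorial * (i + c).factorial) = (p + i + c).factorial := by
    have : p + i + c = p + (i + c) := by ring
    rw [this]; exact cf p (i + c)
  have h6 : (i + p).choose i = (p + i).choose p := by
    rw [add_comm i p]
    exact (Nat.choose_symm_add).symm
  rw [h6]
  have hp := Nat.factorial_pos p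
  have hi := Nat.factorial_pos i
  have hc := Nat.factorial_pos c
  have e : i + p + c = p + i + c := by ring
  rw [e] at h4 ⊢
  -- both sides times p! c! i! are equal
  have h7 : (p + c).choose p * (p + i + c).choose i * (p.factorial * c.factorial * i.factorial) =
      (p + i + c).factorial := by
    calc (p + c).choose p * (p + i + c).choose i * (p.factorial * c.factorial * i.factorial)
        = (p + i + c).choose i * (i.factorial * ((p + c).choose p *
          (p.factorial * c.factorial))) := by ring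
      _ = (p + i + c).factorial := by rw [h2, h4]
  have h8 : (i + c).choose i * (p + i + c).choose p * (p.factorial * c.factorial * i.factorial) =
      (p + i + c).factorial := by
    calc (i + c).choose i * (p + i + c).choose p * (p.factorial * c.factorial * i.factorial)
        = (p + i + c).choose p * (p.factorial * ((i + c).choose i *
          (i.factorial * c.factorial))) := by ring
      _ = (p + i + c).factorial := by rw [h3, h5]
  have h9 : (p + c).choose p * (p + i + c).choose i = (i + c).choose i * (p + i + c).choose p :=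
    Nat.eq_of_mul_eq_mul_right (by positivity) (h7.trans h8.symm)
  calc (p + i).choose p * (p + c).choose p * (p + i + c).choose i
      = (p + i).choose p * ((p + c).choose p * (p + i + c).choose i) := by ring
    _ = (p + i).choose p * ((i + c).choose i * (p + i + c).choose p) := by rw [h9]
    _ = _ := by ring

theorem Q_symm {p i c : ℕ} (h : 2 * (p + i + c).choose p ≤ (p + i).choose p * (p + c).choose p) :
    2 * (i + p + c).choose i ≤ (i + p).choose i * (i + c).choose i := by
  have h1 := Q_symm_aux p i c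
  have hM : 0 < (p + i + c).choose p := Nat.choose_pos (by omega)
  have h2 : 2 * (i + p + c).choose i * (p + i + c).choose p ≤
      (i + p).choose i * (i + c).choose i * (p + i + c).choose p := by
    rw [← h1]
    calc 2 * (i + p + c).choose i * (p + i + c).choose p
        = 2 * (p + i + c).choose p * (i + p + c).choose i := by ring
      _ ≤ (p + i).choose p * (p + c).choose p * (i + p + c).choose i :=
          Nat.mul_le_mul_right _ h
  exact Nat.le_of_mul_le_mul_right h2 hM

/-- `Q` is symmetric in `i` and `c` by definition -/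
theorem Q_swap {p i c : ℕ} (h : 2 * (p + i + c).choose p ≤ (p + i).choose p * (p + c).choose p) :
    2 * (p + c + i).choose p ≤ (p + c).choose p * (p + i).choose p := by
  have : p + c + i = p + i + c := by omega
  rw [this, mul_comm ((p + c).choose p)]
  exact h

theorem Q_mono_i {p i c : ℕ} (h : 2 * (p + i + c).choose p ≤ (p + i).choose p * (p + c).choose p)
    (q : ℕ) : 2 * (p + (i + q) + c).choose p ≤
      (p + (i + q)).choose p * (p + c).choose p :=
  Q_symm (Q_mono_p (Q_symm h) q)

theorem Q_mono_c {p i c : ℕ} (h : 2 * (p + i + c).choose p ≤ (p + i).choose p * (p + c).choose p)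
    (q : ℕ) : 2 * (p + i + (c + q)).choose p ≤
      (p + i).choose p * (p + (c + q)).choose p :=
  Q_swap (Q_mono_i (Q_swap h) q)

/-- `Q ≥ 2` -/
theorem Q_two {p i c : ℕ} (hp : 1 ≤ p) (hi : 1 ≤ i) (hc : 2 ≤ c) (hpi : 4 ≤ p + i) :
    2 * (p + i + c).choose p ≤ (p + i).choose p * (p + c).choose p := by
  have base1 : 2 * (3 + 1 + 2).choose 3 ≤ (3 + 1).choose 3 * (3 + 2).choose 3 := by decide
  have base2 : 2 * (1 + 3 + 2).choose 1 ≤ (1 + 3).choose 1 * (1 + 2).choose 1 := by decide
  have base3 : 2 * (2 + 2 + 2).choose 2 ≤ (2 + 2).choose 2 * (2 + 2).choose 2 := by decide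
  obtain ⟨c', rfl⟩ : ∃ c', c = 2 + c' := ⟨c - 2, by omega⟩
  rcases Nat.lt_or_ge p 2 with h1 | h1
  · have hp1 : p = 1 := by omega
    subst hp1
    obtain ⟨i', rfl⟩ : ∃ i', i = 3 + i' := ⟨i - 3, by omega⟩
    exact Q_mono_c (Q_mono_i base2 i') c'
  · rcases Nat.lt_or_ge i 2 with h2 | h2
    · have hi1 : i = 1 := by omega
      subst hi1
      obtain ⟨p', rfl⟩ : ∃ p', p = 3 + p' := ⟨p - 3, by omega⟩
      exact Q_mono_c (Q_mono_p base1 p') c'
    · obtain ⟨p', rfl⟩ : ∃ p', p = 2 + p' := ⟨p - 2, by omega⟩
      obtain ⟨i', rfl⟩ : ∃ i', i = 2 + i' := ⟨i - 2, by omega⟩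
      exact Q_mono_c (Q_mono_i (Q_mono_p base3 p') i') c'

/-- terms of the two sums -/
def TR (n a c i : ℕ) : ℕ := n.choose i * (a.choose i * (n - i + c).choose c)

def TV (n a c i : ℕ) : ℕ := a.choose i * (n + c).choose (n - i)

theorem sum_TR (n a c : ℕ) : DD n a c = ∑ i ∈ range (n + 1), TR n a c i := rfl

theorem sum_TV (n a c : ℕ) : (n + a + c).choose n = ∑ i ∈ range (n + 1), TV n a c i := by
  have h1 : n + a + c = a + (n + c) := by ring
  rw [h1, Nat.add_choose_eq, Finset.Nat.sum_antidiagonal_eq_sum_range_succ_mk]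
  rfl

theorem TR_ge {n a c i : ℕ} (hn : 4 ≤ n) (hc : 2 ≤ c) (h1 : 1 ≤ i) (h2 : i + 1 ≤ n) :
    2 * TV n a c i ≤ TR n a c i := by
  obtain ⟨p, rfl⟩ : ∃ p, n = p + i := ⟨n - i, by omega⟩
  unfold TR TV
  have e1 : p + i - i = p := by omega
  rw [e1]
  have h3 := Q_two (p := p) (i := i) (c := c) (by omega) h1 hc (by omega)
  have e2 : (p + i).choose i = (p + i).choose p := by
    rw [Nat.choose_symm_add]
  have e3 : (p + c).choose c = (p + c).choose p := by
    rw [Nat.choose_symm_add]
  rw [e2, e3]
  calc 2 * (a.choose i * (p + i + c).choose p) = a.choose i * (2 * (p + i + c).choose p) := by ring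
    _ ≤ a.choose i * ((p + i).choose p * (p + c).choose p) := Nat.mul_le_mul_left _ h3
    _ = _ := by ring

/-- the term `i = 1` covers the term `i = 0` -/
theorem slack_one {n a c : ℕ} (hn : 2 ≤ n) (hc : 1 ≤ c)
    (h : (n + c) * (c + 1) + 2 * (a * n * (n + c)) ≤ a * n * (n * (c + 1))) :
    TV n a c 0 + 2 * TV n a c 1 ≤ TR n a c 1 := by
  obtain ⟨n', rfl⟩ : ∃ n', n = n' + 1 := ⟨n - 1, by omega⟩
  unfold TR TV
  simp only [Nat.choose_zero_right, Nat.choose_one_right, one_mul, Nat.sub_zero,
    Nat.add_sub_cancel]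
  -- Z = binom(n+c, n)
  have e1 : (n' + c + 1) * (n' + c).choose n' = (n' + c + 1).choose (n' + 1) * (n' + 1) :=
    Nat.add_one_mul_choose_eq (n' + c) n'
  have e2 : (n' + c + 1).choose (n' + 1) * (n' + 1) = (n' + c + 1).choose n' * (n' + c + 1 - n') :=
    Nat.choose_succ_right_eq (n' + c + 1) n'
  have e3 : n' + c + 1 - n' = c + 1 := by omega
  rw [e3] at e2
  have e4 : (n' + c).choose c = (n' + c).choose n' := by rw [Nat.choose_symm_add]
  have e5 : n' + 1 + c = n' + c + 1 := by omega
  rw [e4, e5]
  rw [e5] at h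
  set Z := (n' + c + 1).choose (n' + 1) with hZ
  set U := (n' + c).choose n' with hU
  set W := (n' + c + 1).choose n' with hW
  -- (n+c) U = Z n, Z n = W (c+1)
  have hmul : (Z + 2 * (a * W)) * ((n' + c + 1) * (c + 1)) ≤
      ((n' + 1) * (a * U)) * ((n' + c + 1) * (c + 1)) := by
    calc (Z + 2 * (a * W)) * ((n' + c + 1) * (c + 1))
        = Z * ((n' + c + 1) * (c + 1)) + 2 * a * (W * (c + 1)) * (n' + c + 1) := by ring
      _ = Z * ((n' + c + 1) * (c + 1)) + 2 * a * (Z * (n' + 1)) * (n' + c + 1) := by rw [e2]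
      _ = Z * ((n' + c + 1) * (c + 1) + 2 * (a * (n' + 1) * (n' + c + 1))) := by ring
      _ ≤ Z * (a * (n' + 1) * ((n' + 1) * (c + 1))) := Nat.mul_le_mul_left _ h
      _ = (n' + 1) * a * (Z * (n' + 1)) * (c + 1) := by ring
      _ = (n' + 1) * a * ((n' + c + 1) * U) * (c + 1) := by rw [e1]
      _ = _ := by ring
  exact Nat.le_of_mul_le_mul_right hmul (by positivity)

/-- the term `i = n - 1` covers the term `i = n` -/
theorem slack_last {q a c : ℕ}
    (h : a ≤ q + 2 ∨ (a - (q + 2)) + 2 * ((q + 3) * (q + 3 + c)) ≤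
      (q + 3) * ((q + 3) * (c + 1))) (hc : 2 ≤ c) (hq : 1 ≤ q) :
    TV (q + 3) a c (q + 3) + 2 * TV (q + 3) a c (q + 2) ≤ TR (q + 3) a c (q + 2) := by
  rcases h with h | h
  · have h1 : TV (q + 3) a c (q + 3) = 0 := by
      unfold TV
      rw [Nat.choose_eq_zero_of_lt (by omega), zero_mul]
    have h2 := TR_ge (n := q + 3) (a := a) (c := c) (i := q + 2) (by omega) hc (by omega) (by omega)
    omega
  · unfold TR TV
    have e1 : q + 3 - (q + 3) = 0 := by omega
    have e2 : q + 3 - (q + 2) = 1 := by omega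
    have e3 : (q + 3).choose (q + 2) = q + 3 := by
      have := Nat.choose_symm_add (a := q + 2) (b := 1)
      rw [Nat.choose_one_right] at this
      exact this
    have e4 : (1 + c).choose c = c + 1 := by
      rw [add_comm 1 c, Nat.choose_symm_add, Nat.choose_one_right]
    rw [e1, e2, e3, e4, Nat.choose_zero_right, Nat.choose_one_right, mul_one]
    have e5 : a.choose (q + 3) * (q + 3) = a.choose (q + 2) * (a - (q + 2)) :=
      Nat.choose_succ_right_eq a (q + 2)
    set A := a.choose (q + 2)
    set A' := a.choose (q + 3)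
    have hmul : (A' + 2 * (A * (q + 3 + c))) * (q + 3) ≤ ((q + 3) * (A * (c + 1))) * (q + 3) := by
      calc (A' + 2 * (A * (q + 3 + c))) * (q + 3)
          = A' * (q + 3) + 2 * (A * (q + 3 + c)) * (q + 3) := by ring
        _ = A * (a - (q + 2)) + 2 * (A * (q + 3 + c)) * (q + 3) := by rw [e5]
        _ = A * ((a - (q + 2)) + 2 * ((q + 3) * (q + 3 + c))) := by ring
        _ ≤ A * ((q + 3) * ((q + 3) * (c + 1))) := Nat.mul_le_mul_left _ h
        _ = _ := by ring
    exact Nat.le_of_mul_le_mul_right hmul (by omega)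

theorem DD_ge_aux {q a c : ℕ} (hq : 1 ≤ q) (hc : 2 ≤ c)
    (h1 : (q + 3 + c) * (c + 1) + 2 * (a * (q + 3) * (q + 3 + c)) ≤
      a * (q + 3) * ((q + 3) * (c + 1)))
    (h2 : a ≤ q + 2 ∨ (a - (q + 2)) + 2 * ((q + 3) * (q + 3 + c)) ≤
      (q + 3) * ((q + 3) * (c + 1))) :
    2 * (q + 3 + a + c).choose (q + 3) ≤ DD (q + 3) a c := by
  rw [sum_TR, sum_TV]
  have s1 := slack_one (n := q + 3) (a := a) (c := c) (by omega) (by omega) h1
  have s2 := slack_last (q := q) (a := a) (c := c) h2 hc hq
  have hmid : 2 * ∑ i ∈ range q, TV (q + 3) a c (i + 2) ≤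
      ∑ i ∈ range q, TR (q + 3) a c (i + 2) := by
    rw [Finset.mul_sum]
    apply Finset.sum_le_sum
    intro i hi
    rw [Finset.mem_range] at hi
    exact TR_ge (by omega) hc (by omega) (by omega)
  have hsplit : ∀ f : ℕ → ℕ, ∑ i ∈ range (q + 3 + 1), f i =
      f 0 + f 1 + ∑ i ∈ range q, f (i + 2) + f (q + 2) + f (q + 3) := by
    intro f
    rw [Finset.sum_range_succ, Finset.sum_range_succ, Finset.sum_range_succ',
      Finset.sum_range_succ']
    simp only [zero_add]
    ring
  rw [hsplit, hsplit]
  have h0 : TR (q + 3) a c 0 = TV (q + 3) a c 0 := by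
    unfold TR TV
    simp only [Nat.choose_zero_right, Nat.sub_zero, one_mul]
    rw [Nat.choose_symm_add]
  have hlast : TR (q + 3) a c (q + 3) = TV (q + 3) a c (q + 3) := by
    unfold TR TV
    simp only [Nat.sub_self, Nat.choose_self, Nat.choose_zero_right, zero_add, one_mul, mul_one]
  rw [h0, hlast]
  omega

end MPc709deT
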