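import Pool.Agent.Work.MP_c709de_al_top.Sharp

/-! Counting differences for two full sets of cubic monomials. -/

namespace MPc709deT

open Finset MPc709deS

section

variable {α : Type*} [DecidableEq α]

/-- pairs `(p,q)` with `q ∈ Y`, `p ∈ A q` disjoint -/
def fam (Y : Finset (Multiset α)) (A : Multiset α → Finset (Multiset α)) :
    Finset (Multiset α × Multiset α) :=
  Y.biUnion (fun q => (av (A q) q).image (fun p => (p, q)))

theorem mem_fam {Y : Finset (Multiset α)} {A : Multiset α → Finset (Multiset α)}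
    {z : Multiset α × Multiset α} : z ∈ fam Y A ↔ z.2 ∈ Y ∧ z.1 ∈ A z.2 ∧ ∀ x ∈ z.2, x ∉ z.1 := by
  unfold fam
  rw [Finset.mem_biUnion]
  constructor
  · rintro ⟨q, hq, hz⟩
    obtain ⟨p, hp, rfl⟩ := Finset.mem_image.1 hz
    rw [mem_av] at hp
    exact ⟨hq, hp⟩
  · rintro ⟨h1, h2, h3⟩
    exact ⟨z.2, h1, Finset.mem_image.2 ⟨z.1, mem_av.2 ⟨h2, h3⟩, rfl⟩⟩

theorem card_fam (Y : Finset (Multiset α)) (A : Multiset α → Finset (Multiset α)) :
    (fam Y A).card = ∑ q ∈ Y, (av (A q) q).card := by
  unfold fam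
  rw [Finset.card_biUnion]
  · apply Finset.sum_congr rfl
    intro q _
    apply Finset.card_image_of_injective
    intro p p' hpp
    exact (Prod.ext_iff.1 hpp).1
  · intro q _ q' _ hqq
    rw [Function.onFun, Finset.disjoint_left]
    intro z hz hz'
    obtain ⟨p, -, rfl⟩ := Finset.mem_image.1 hz
    obtain ⟨p', -, h⟩ := Finset.mem_image.1 hz'
    exact hqq (Prod.ext_iff.1 h).2.symm

theorem ms_one (Y : Finset α) : ms Y 1 = insert 0 (Y.image (fun x => ({x} : Multiset α))) := by
  ext u
  rw [mem_ms, Finset.mem_insert, Finset.mem_image]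
  constructor
  · rintro ⟨h1, h2⟩
    rcases Nat.eq_zero_or_pos (Multiset.card u) with h | h
    · left; exact Multiset.card_eq_zero.1 h
    · right
      obtain ⟨x, rfl⟩ := Multiset.card_eq_one.1 (by omega : Multiset.card u = 1)
      exact ⟨x, h2 x (by simp), rfl⟩
  · rintro (rfl | ⟨x, hx, rfl⟩)
    · exact ⟨by simp, by simp⟩
    · refine ⟨by simp, fun y hy => ?_⟩
      rw [Multiset.mem_singleton] at hy
      rw [hy]; exact hx

theorem sum_ms_one (Y : Finset α) (f : Multiset α → ℕ) :
    ∑ q ∈ ms Y 1, f q = f 0 + ∑ x ∈ Y, f {x} := by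
  rw [ms_one, Finset.sum_insert, Finset.sum_image]
  · intro x _ y _ hxy; exact Multiset.singleton_inj.1 hxy
  · rw [Finset.mem_image]
    rintro ⟨x, -, hx⟩
    exact Multiset.singleton_ne_zero x hx

theorem av_mix_singleton {X K : Finset α} {x : α} (hx : x ∈ X) :
    (av (ms X 1 ∪ mset K (1 + 1)) {x}).card = X.card + b 1 (K.erase x).card := by
  rw [card_av_mix, Multiset.toFinset_singleton, Nat.choose_one_right,
    Finset.card_sdiff_of_subset (Finset.singleton_subset_iff.2 hx), Finset.card_singleton,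
    Finset.sdiff_singleton_eq_erase]
  have : 0 < X.card := Finset.card_pos.2 ⟨x, hx⟩
  omega

theorem av_mix_zero (X K : Finset α) :
    (av (ms X 1 ∪ mset K (1 + 1)) 0).card = X.card + 1 + b 1 K.card := by
  rw [card_av_mix, Multiset.toFinset_zero, Finset.sdiff_empty, Finset.sdiff_empty,
    Nat.choose_one_right]

end

section

variable {m : ℕ} [NeZero m] {X : Finset (ZMod m)} {S : Set (Multiset (ZMod m))}

omit [NeZero m] in
/-- membership of sums -/
theorem add_single_mem {Z : Finset (ZMod m)} {p q : Multiset (ZMod m)} {c : ℕ}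
    (hp : Multiset.card p = c) (hp' : ∀ x ∈ p, x ∈ Z) (hq : Multiset.card q ≤ 1)
    (hq' : ∀ x ∈ q, x ∈ Z) :
    (Multiset.card (p + q) = c ∨ Multiset.card (p + q) = c + 1) ∧ ∀ x ∈ p + q, x ∈ Z := by
  rw [Multiset.card_add]
  refine ⟨by omega, fun x hx => ?_⟩
  rcases Multiset.mem_add.1 hx with hx | hx
  · exact hp' x hx
  · exact hq' x hx

theorem typeA {L : Finset (ZMod m)} {x : ZMod m} (hS : Set.InjOn Multiset.sum S)
    (h2 : ∀ u : Multiset (ZMod m), Multiset.card u ≤ 2 → (∀ y ∈ u, y ∈ X) → u ∈ S)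
    (hL3 : ∀ u ∈ mset L 3, u ∈ S) (hL2 : ∀ v ∈ mset L 2, x ::ₘ v ∈ S)
    (hLX : L ⊆ X) (hx : x ∈ X) (hxL : x ∉ L) :
    (X.card + 1 + b 1 L.card) + (L.card * (X.card + b 1 (L.card - 1)) +
      (X.card + b 1 L.card)) ≤ m := by
  have hcard : (fam (ms (insert x L) 1) (fun _ => ms X 1 ∪ mset L (1 + 1))).card =
      (X.card + 1 + b 1 L.card) + (L.card * (X.card + b 1 (L.card - 1)) +
      (X.card + b 1 L.card)) := by
    rw [card_fam, sum_ms_one, av_mix_zero, Finset.sum_insert hxL, av_mix_singleton hx,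
      Finset.erase_eq_of_notMem hxL]
    congr 1
    rw [add_comm]
    congr 1
    rw [← smul_eq_mul, ← Finset.sum_const]
    apply Finset.sum_congr rfl
    intro c hc
    rw [av_mix_singleton (hLX hc), Finset.card_erase_of_mem hc]
  rw [← hcard]
  have hY : ∀ z : Multiset (ZMod m) × Multiset (ZMod m),
      z ∈ fam (ms (insert x L) 1) (fun _ => ms X 1 ∪ mset L (1 + 1)) →
      (Multiset.card z.2 ≤ 1 ∧ ∀ y ∈ z.2, y ∈ insert x L) ∧
      ((Multiset.card z.1 ≤ 1 ∧ ∀ y ∈ z.1, y ∈ X) ∨ z.1 ∈ mset L 2) := by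
    intro z hz
    rw [mem_fam] at hz
    refine ⟨mem_ms.1 hz.1, ?_⟩
    rcases Finset.mem_union.1 hz.2.1 with h | h
    · left; exact mem_ms.1 h
    · right; exact h
  have hins : ∀ y ∈ insert x L, y ∈ X := by
    intro y hy
    rcases Finset.mem_insert.1 hy with rfl | hy
    · exact hx
    · exact hLX hy
  apply count_le hS
  · intro z hz y hy hy'
    exact (mem_fam.1 hz).2.2 y hy' hy
  · intro z hz z' hz' _
    obtain ⟨-, h4⟩ := hY z hz
    obtain ⟨⟨h5, h6⟩, -⟩ := hY z' hz'
    rcases h4 with ⟨h4, h4'⟩ | h4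
    · apply h2
      · rw [Multiset.card_add]; omega
      · intro y hy
        rcases Multiset.mem_add.1 hy with hy | hy
        · exact h4' y hy
        · exact hins y (h6 y hy)
    · rcases Nat.eq_zero_or_pos (Multiset.card z'.2) with h7 | h7
      · rw [Multiset.card_eq_zero.1 h7, add_zero]
        rw [mem_mset] at h4
        exact h2 _ (by omega) (fun y hy => hLX (h4.2 y hy))
      · obtain ⟨y, hy⟩ := Multiset.card_eq_one.1 (by omega : Multiset.card z'.2 = 1)
        rw [hy] at h6 ⊢
        rcases Finset.mem_insert.1 (h6 y (by simp)) with h8 | h8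
        · rw [h8, add_comm, Multiset.singleton_add]
          exact hL2 _ h4
        · apply hL3
          rw [mem_mset] at h4 ⊢
          refine ⟨by rw [Multiset.card_add, h4.1, Multiset.card_singleton], fun w hw => ?_⟩
          rcases Multiset.mem_add.1 hw with hw | hw
          · exact h4.2 w hw
          · rw [Multiset.mem_singleton] at hw
            rw [hw]; exact h8
  · intro z hz
    obtain ⟨-, h4⟩ := hY z hz
    rcases h4 with ⟨h4, h4'⟩ | h4
    · exact h2 _ (by omega) h4'
    · rw [mem_mset] at h4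
      exact h2 _ (by omega) (fun y hy => hLX (h4.2 y hy))

theorem typeB {M : Finset (ZMod m)} {x w : ZMod m} (hS : Set.InjOn Multiset.sum S)
    (h2 : ∀ u : Multiset (ZMod m), Multiset.card u ≤ 2 → (∀ y ∈ u, y ∈ X) → u ∈ S)
    (hK3 : ∀ u ∈ mset (insert w M) 3, u ∈ S) (hL3 : ∀ u ∈ mset (insert x M) 3, u ∈ S)
    (hMX : M ⊆ X) (hx : x ∈ X) (hw : w ∈ X) (hxM : x ∉ M) (hwM : w ∉ M) (hxw : x ≠ w) :
    (X.card + 1 + b 1 M.card) + (M.card * (X.card + b 1 (M.card - 1)) +
      2 * (X.card + b 1 (M.card + 1))) ≤ m := by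
  classical
  set A : Multiset (ZMod m) → Finset (Multiset (ZMod m)) := fun q =>
    if q = {x} then ms X 1 ∪ mset (insert w M) (1 + 1) else
      if q = {w} then ms X 1 ∪ mset (insert x M) (1 + 1) else ms X 1 ∪ mset M (1 + 1) with hA
  have hAx : A {x} = ms X 1 ∪ mset (insert w M) (1 + 1) := by
    rw [hA]; exact if_pos rfl
  have hAw : A {w} = ms X 1 ∪ mset (insert x M) (1 + 1) := by
    have h3 : ¬ (({w} : Multiset (ZMod m)) = {x}) := fun h =>
      hxw (Multiset.singleton_inj.1 h).symm
    rw [hA]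
    exact (if_neg h3).trans (if_pos rfl)
  have hA0 : ∀ q, q ≠ {x} → q ≠ {w} → A q = ms X 1 ∪ mset M (1 + 1) := by
    intro q h1 h3
    rw [hA]
    simp only
    rw [if_neg h1, if_neg h3]
  have hwxM : w ∉ insert x M := by
    rw [Finset.mem_insert]; rintro (h | h)
    · exact hxw h.symm
    · exact hwM h
  have hxwM : x ∉ insert w M := by
    rw [Finset.mem_insert]; rintro (h | h)
    · exact hxw h
    · exact hxM h
  have hcard : (fam (ms (insert x (insert w M)) 1) A).card =
      (X.card + 1 + b 1 M.card) + (M.card * (X.card + b 1 (M.card - 1)) +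
      2 * (X.card + b 1 (M.card + 1))) := by
    rw [card_fam, sum_ms_one, Finset.sum_insert hxwM, Finset.sum_insert hwM, hAx, hAw,
      hA0 0 (Multiset.singleton_ne_zero x).symm (Multiset.singleton_ne_zero w).symm, av_mix_zero,
      av_mix_singleton hx, av_mix_singleton hw, Finset.erase_eq_of_notMem hwxM,
      Finset.erase_eq_of_notMem hxwM, Finset.card_insert_of_notMem hxM,
      Finset.card_insert_of_notMem hwM]
    have h3 : ∑ c ∈ M, (av (A {c}) {c}).card = M.card * (X.card + b 1 (M.card - 1)) := by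
      rw [← smul_eq_mul, ← Finset.sum_const]
      apply Finset.sum_congr rfl
      intro c hc
      rw [hA0 {c} (by intro h; exact hxM (Multiset.singleton_inj.1 h ▸ hc))
        (by intro h; exact hwM (Multiset.singleton_inj.1 h ▸ hc)), av_mix_singleton (hMX hc),
        Finset.card_erase_of_mem hc]
    rw [h3]
    ring
  rw [← hcard]
  have hins : ∀ y ∈ insert x (insert w M), y ∈ X := by
    intro y hy
    rcases Finset.mem_insert.1 hy with rfl | hy
    · exact hx
    · rcases Finset.mem_insert.1 hy with rfl | hy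
      · exact hw
      · exact hMX hy
  have hsubK : insert w M ⊆ X := fun y hy => hins y (Finset.mem_insert_of_mem hy)
  have hsubL : insert x M ⊆ X := by
    intro y hy
    rcases Finset.mem_insert.1 hy with rfl | hy
    · exact hx
    · exact hMX hy
  -- a quadratic monomial plus a variable
  have hquad : ∀ (Z : Finset (ZMod m)), Z ⊆ X → (∀ u ∈ mset Z 3, u ∈ S) →
      ∀ p ∈ mset Z 2, ∀ q : Multiset (ZMod m), Multiset.card q ≤ 1 → (∀ y ∈ q, y ∈ Z) →
      p + q ∈ S := by
    intro Z hZX hZ3 p hp q hq hq'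
    rw [mem_mset] at hp
    obtain ⟨h3, h4⟩ := add_single_mem hp.1 hp.2 hq hq'
    rcases h3 with h3 | h3
    · exact h2 _ (by omega) (fun y hy => hZX (h4 y hy))
    · exact hZ3 _ (mem_mset.2 ⟨h3, h4⟩)
  have hpX : ∀ q, ∀ p ∈ A q, (Multiset.card p ≤ 1 ∧ ∀ y ∈ p, y ∈ X) ∨
      (q = {x} ∧ p ∈ mset (insert w M) 2) ∨ (q = {w} ∧ p ∈ mset (insert x M) 2) ∨
      p ∈ mset M 2 := by
    intro q p hp
    by_cases h3 : q = {x}
    · rw [h3, hAx] at hp
      rcases Finset.mem_union.1 hp with h | h
      · left; exact mem_ms.1 h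
      · right; left; exact ⟨h3, h⟩
    · by_cases h4 : q = {w}
      · rw [h4, hAw] at hp
        rcases Finset.mem_union.1 hp with h | h
        · left; exact mem_ms.1 h
        · right; right; left; exact ⟨h4, h⟩
      · rw [hA0 q h3 h4] at hp
        rcases Finset.mem_union.1 hp with h | h
        · left; exact mem_ms.1 h
        · right; right; right; exact h
  have hq1 : ∀ q ∈ ms (insert x (insert w M)) 1, q = 0 ∨ q = {x} ∨ q = {w} ∨
      ∃ c ∈ M, q = {c} := by
    intro q hq
    rw [ms_one, Finset.mem_insert, Finset.mem_image] at hq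
    rcases hq with h | ⟨c, hc, rfl⟩
    · left; exact h
    · right
      rcases Finset.mem_insert.1 hc with rfl | hc
      · left; rfl
      · right
        rcases Finset.mem_insert.1 hc with rfl | hc
        · left; rfl
        · right; exact ⟨c, hc, rfl⟩
  apply count_le hS
  · intro z hz y hy hy'
    exact (mem_fam.1 hz).2.2 y hy' hy
  · intro z hz z' hz' hne
    rw [mem_fam] at hz hz'
    have h6 := mem_ms.1 hz'.1
    rcases hpX _ _ hz.2.1 with ⟨h4, h4'⟩ | ⟨h4, h5⟩ | ⟨h4, h5⟩ | h5
    · apply h2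
      · rw [Multiset.card_add]; omega
      · intro y hy
        rcases Multiset.mem_add.1 hy with hy | hy
        · exact h4' y hy
        · exact hins y (h6.2 y hy)
    · -- `z.2 = {x}`, `z.1 ∈ mset K 2`
      apply hquad _ hsubK hK3 _ h5 _ h6.1
      intro y hy
      rcases hq1 _ hz'.1 with h | h | h | ⟨c, hc, h⟩
      · rw [h] at hy; simp at hy
      · exact absurd (h4.trans h.symm) hne
      · rw [h, Multiset.mem_singleton] at hy
        rw [hy]; exact Finset.mem_insert_self _ _
      · rw [h, Multiset.mem_singleton] at hy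
        rw [hy]; exact Finset.mem_insert_of_mem hc
    · apply hquad _ hsubL hL3 _ h5 _ h6.1
      intro y hy
      rcases hq1 _ hz'.1 with h | h | h | ⟨c, hc, h⟩
      · rw [h] at hy; simp at hy
      · rw [h, Multiset.mem_singleton] at hy
        rw [hy]; exact Finset.mem_insert_self _ _
      · exact absurd (h4.trans h.symm) hne
      · rw [h, Multiset.mem_singleton] at hy
        rw [hy]; exact Finset.mem_insert_of_mem hc
    · rcases hq1 _ hz'.1 with h | h | h | ⟨c, hc, h⟩
      · apply hquad _ hsubK hK3 _ (mset_mono (Finset.subset_insert _ _) _ h5) _ h6.1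
        intro y hy
        rw [h] at hy; simp at hy
      · apply hquad _ hsubL hL3 _ (mset_mono (Finset.subset_insert _ _) _ h5) _ h6.1
        intro y hy
        rw [h, Multiset.mem_singleton] at hy
        rw [hy]; exact Finset.mem_insert_self _ _
      · apply hquad _ hsubK hK3 _ (mset_mono (Finset.subset_insert _ _) _ h5) _ h6.1
        intro y hy
        rw [h, Multiset.mem_singleton] at hy
        rw [hy]; exact Finset.mem_insert_self _ _
      · apply hquad _ hsubK hK3 _ (mset_mono (Finset.subset_insert _ _) _ h5) _ h6.1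
        intro y hy
        rw [h, Multiset.mem_singleton] at hy
        rw [hy]; exact Finset.mem_insert_of_mem hc
  · intro z hz
    rw [mem_fam] at hz
    rcases hpX _ _ hz.2.1 with ⟨h4, h4'⟩ | ⟨h4, h5⟩ | ⟨h4, h5⟩ | h5
    · exact h2 _ (by omega) h4'
    · rw [mem_mset] at h5
      exact h2 _ (by omega) (fun y hy => hsubK (h5.2 y hy))
    · rw [mem_mset] at h5
      exact h2 _ (by omega) (fun y hy => hsubL (h5.2 y hy))
    · rw [mem_mset] at h5
      exact h2 _ (by omega) (fun y hy => hMX (h5.2 y hy))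

end

end MPc709deT
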