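import Pool.Agent.Work.MP_c709de_al_top.Tile

/-! Counting differences. -/

namespace MPc709deT

open Finset MPc709deS

theorem disj_eq {α : Type*} {p q p' q' : Multiset α} (h : p + q' = p' + q)
    (h1 : ∀ x ∈ p, x ∉ q) (h2 : ∀ x ∈ p', x ∉ q') : p = p' ∧ q = q' := by
  classical
  have key : p = p' := by
    ext x
    have hc := congrArg (Multiset.count x) h
    rw [Multiset.count_add, Multiset.count_add] at hc
    by_cases hp : x ∈ p
    · have h3 := Multiset.count_eq_zero_of_notMem (h1 x hp)
      rw [h3] at hc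
      by_cases hp' : x ∈ p'
      · have h4 := Multiset.count_eq_zero_of_notMem (h2 x hp')
        omega
      · have h4 := Multiset.count_eq_zero_of_notMem hp'
        have h5 := Multiset.count_pos.2 hp
        omega
    · have h3 := Multiset.count_eq_zero_of_notMem hp
      by_cases hp' : x ∈ p'
      · have h4 := Multiset.count_eq_zero_of_notMem (h2 x hp')
        omega
      · have h4 := Multiset.count_eq_zero_of_notMem hp'
        omega
  subst key
  exact ⟨rfl, (add_left_cancel h).symm⟩

section

variable {m : ℕ}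

/-- The counting principle. -/
theorem count_le [NeZero m] {S : Set (Multiset (ZMod m))} (hS : Set.InjOn Multiset.sum S)
    (P : Finset (Multiset (ZMod m) × Multiset (ZMod m)))
    (hd : ∀ z ∈ P, ∀ x ∈ z.1, x ∉ z.2)
    (hc : ∀ z ∈ P, ∀ z' ∈ P, z.2 ≠ z'.2 → z.1 + z'.2 ∈ S)
    (hc' : ∀ z ∈ P, z.1 ∈ S) : P.card ≤ m := by
  have h1 : P.card ≤ (univ : Finset (ZMod m)).card := by
    apply Finset.card_le_card_of_injOn (fun z => z.1.sum - z.2.sum)
    · intro z _
      exact Finset.mem_coe.2 (Finset.mem_univ _)
    · intro z hz z' hz' h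
      simp only at h
      have hz1 := Finset.mem_coe.1 hz
      have hz1' := Finset.mem_coe.1 hz'
      by_cases h2 : z.2 = z'.2
      · rw [h2] at h
        have h3 : z.1.sum = z'.1.sum := sub_left_injective h
        exact Prod.ext (hS (hc' z hz1) (hc' z' hz1') h3) h2
      · have h3 : (z.1 + z'.2).sum = (z'.1 + z.2).sum := by
          rw [Multiset.sum_add, Multiset.sum_add]
          linear_combination h
        have h4 := hS (hc z hz1 z' hz1' h2) (hc z' hz1' z hz1 (Ne.symm h2)) h3
        obtain ⟨h5, h6⟩ := disj_eq h4 (hd z hz1) (hd z' hz1')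
        exact Prod.ext h5 h6
  rwa [Finset.card_univ, ZMod.card] at h1

end

section

variable {α : Type*} [DecidableEq α]

/-- multisets of at most `a` elements of `S` -/
def ms (S : Finset α) (a : ℕ) : Finset (Multiset α) := (range (a + 1)).biUnion (mset S)

theorem mem_ms {S : Finset α} {a : ℕ} {u : Multiset α} :
    u ∈ ms S a ↔ Multiset.card u ≤ a ∧ ∀ x ∈ u, x ∈ S := by
  unfold ms
  rw [Finset.mem_biUnion]
  constructor
  · rintro ⟨i, hi, hu⟩
    rw [mem_mset] at hu
    rw [Finset.mem_range] at hi
    exact ⟨by omega, hu.2⟩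
  · rintro ⟨h1, h2⟩
    exact ⟨Multiset.card u, Finset.mem_range.2 (by omega), mem_mset.2 ⟨rfl, h2⟩⟩

theorem card_ms (S : Finset α) (a : ℕ) : (ms S a).card = (S.card + a).choose a := by
  unfold ms
  rw [Finset.card_biUnion]
  · induction a with
    | zero => simp [card_mset]
    | succ a ih =>
      rw [Finset.sum_range_succ, ih, card_mset]
      have h1 : S.card + (a + 1) - 1 = S.card + a := by omega
      rw [h1]
      have h2 : S.card + (a + 1) = (S.card + a) + 1 := by omega
      rw [h2, Nat.choose_succ_succ']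
  · intro i _ j _ hij
    rw [Function.onFun, Finset.disjoint_left]
    intro u hu hu'
    rw [mem_mset] at hu hu'
    omega

/-- the elements of `A` disjoint from `p` -/
def av (A : Finset (Multiset α)) (p : Multiset α) : Finset (Multiset α) :=
  A.filter (fun q => ∀ x ∈ p, x ∉ q)

theorem mem_av {A : Finset (Multiset α)} {p q : Multiset α} :
    q ∈ av A p ↔ q ∈ A ∧ ∀ x ∈ p, x ∉ q := by
  unfold av; rw [Finset.mem_filter]

/-- pairs of disjoint elements -/
def dp (A B : Finset (Multiset α)) : Finset (Multiset α × Multiset α) :=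
  (A ×ˢ B).filter (fun z => ∀ x ∈ z.1, x ∉ z.2)

theorem mem_dp {A B : Finset (Multiset α)} {z : Multiset α × Multiset α} :
    z ∈ dp A B ↔ (z.1 ∈ A ∧ z.2 ∈ B) ∧ ∀ x ∈ z.1, x ∉ z.2 := by
  unfold dp; rw [Finset.mem_filter, Finset.mem_product]

theorem card_dp (A B : Finset (Multiset α)) : (dp A B).card = ∑ p ∈ A, (av B p).card := by
  have h : dp A B = A.biUnion (fun p => (av B p).image (fun q => (p, q))) := by
    ext z
    rw [mem_dp, Finset.mem_biUnion]
    constructor
    · rintro ⟨⟨h1, h2⟩, h3⟩
      exact ⟨z.1, h1, Finset.mem_image.2 ⟨z.2, mem_av.2 ⟨h2, h3⟩, rfl⟩⟩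
    · rintro ⟨p, hp, hz⟩
      obtain ⟨q, hq, rfl⟩ := Finset.mem_image.1 hz
      rw [mem_av] at hq
      exact ⟨⟨hp, hq.1⟩, hq.2⟩
  rw [h, Finset.card_biUnion]
  · apply Finset.sum_congr rfl
    intro p _
    apply Finset.card_image_of_injective
    intro q q' hqq
    exact (Prod.ext_iff.1 hqq).2
  · intro p _ p' _ hpp
    rw [Function.onFun, Finset.disjoint_left]
    intro z hz hz'
    obtain ⟨q, -, rfl⟩ := Finset.mem_image.1 hz
    obtain ⟨q', -, h⟩ := Finset.mem_image.1 hz'
    exact hpp (Prod.ext_iff.1 h).1.symm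

theorem av_ms (S : Finset α) (a : ℕ) (p : Multiset α) : av (ms S a) p = ms (S \ p.toFinset) a := by
  ext q
  rw [mem_av, mem_ms, mem_ms]
  constructor
  · rintro ⟨⟨h1, h2⟩, h3⟩
    refine ⟨h1, fun x hx => ?_⟩
    rw [Finset.mem_sdiff, Multiset.mem_toFinset]
    exact ⟨h2 x hx, fun h => h3 x h hx⟩
  · rintro ⟨h1, h2⟩
    refine ⟨⟨h1, fun x hx => (Finset.mem_sdiff.1 (h2 x hx)).1⟩, fun x hx hq => ?_⟩
    exact (Finset.mem_sdiff.1 (h2 x hq)).2 (Multiset.mem_toFinset.2 hx)

theorem av_mset (S : Finset α) (a : ℕ) (p : Multiset α) :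
    av (mset S a) p = mset (S \ p.toFinset) a := by
  ext q
  rw [mem_av, mem_mset, mem_mset]
  constructor
  · rintro ⟨⟨h1, h2⟩, h3⟩
    refine ⟨h1, fun x hx => ?_⟩
    rw [Finset.mem_sdiff, Multiset.mem_toFinset]
    exact ⟨h2 x hx, fun h => h3 x h hx⟩
  · rintro ⟨h1, h2⟩
    refine ⟨⟨h1, fun x hx => (Finset.mem_sdiff.1 (h2 x hx)).1⟩, fun x hx hq => ?_⟩
    exact (Finset.mem_sdiff.1 (h2 x hq)).2 (Multiset.mem_toFinset.2 hx)

/-- the number of multisets with at most `a` elements and with given support -/
theorem card_supp (S I : Finset α) (hI : I ⊆ S) (a : ℕ) :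
    ((ms S a).filter (fun p => p.toFinset = I)).card = a.choose I.card := by
  rcases Nat.lt_or_ge a I.card with h | h
  · rw [Nat.choose_eq_zero_of_lt h, Finset.card_eq_zero, Finset.filter_eq_empty_iff]
    intro p hp hpI
    rw [mem_ms] at hp
    have := Multiset.toFinset_card_le p
    rw [hpI] at this
    omega
  · have h1 : ((ms S a).filter (fun p => p.toFinset = I)).card = (ms I (a - I.card)).card := by
      symm
      apply Finset.card_bij (fun p _ => I.val + p)
      · intro p hp
        rw [mem_ms] at hp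
        rw [Finset.mem_filter, mem_ms]
        refine ⟨⟨?_, ?_⟩, ?_⟩
        · rw [Multiset.card_add]
          have : Multiset.card I.val = I.card := rfl
          omega
        · intro x hx
          rcases Multiset.mem_add.1 hx with hx | hx
          · exact hI hx
          · exact hI (hp.2 x hx)
        · ext x
          rw [Multiset.mem_toFinset, Multiset.mem_add]
          constructor
          · rintro (hx | hx)
            · exact hx
            · exact hp.2 x hx
          · intro hx; left; exact hx
      · intro p _ p' _ hpp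
        exact add_left_cancel hpp
      · intro p hp
        rw [Finset.mem_filter, mem_ms] at hp
        have h2 : I.val ≤ p := by
          rw [← hp.2, Multiset.toFinset_val]
          exact Multiset.dedup_le p
        refine ⟨p - I.val, ?_, ?_⟩
        · rw [mem_ms, Multiset.card_sub h2]
          refine ⟨?_, fun x hx => ?_⟩
          · have : Multiset.card I.val = I.card := rfl
            omega
          · rw [← hp.2, Multiset.mem_toFinset]
            exact Multiset.mem_of_le (Multiset.sub_le_self _ _) hx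
        · exact add_tsub_cancel_of_le h2
    rw [h1, card_ms]
    have h2 : I.card + (a - I.card) = a := by omega
    rw [h2]
    exact Nat.choose_symm h

/-- the number of pairs of disjoint multisets of size at most `a` and at most `c` -/
def DD (n a c : ℕ) : ℕ := ∑ i ∈ range (n + 1), n.choose i * (a.choose i * (n - i + c).choose c)

theorem card_dp_ms (S : Finset α) (a c : ℕ) : (dp (ms S a) (ms S c)).card = DD S.card a c := by
  rw [card_dp]
  have h1 : ∀ p ∈ ms S a, p.toFinset ∈ S.powerset := by
    intro p hp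
    rw [mem_ms] at hp
    rw [Finset.mem_powerset]
    intro x hx
    exact hp.2 x (Multiset.mem_toFinset.1 hx)
  rw [← Finset.sum_fiberwise_of_maps_to h1]
  have h2 : ∀ I ∈ S.powerset, ∑ p ∈ (ms S a).filter (fun p => p.toFinset = I),
      (av (ms S c) p).card = a.choose I.card * (S.card - I.card + c).choose c := by
    intro I hI
    rw [Finset.mem_powerset] at hI
    have h3 : ∀ p ∈ (ms S a).filter (fun p => p.toFinset = I),
        (av (ms S c) p).card = (S.card - I.card + c).choose c := by
      intro p hp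
      rw [Finset.mem_filter] at hp
      rw [av_ms, hp.2, card_ms, Finset.card_sdiff_of_subset hI]
    rw [Finset.sum_congr rfl h3, Finset.sum_const, card_supp S I hI, smul_eq_mul]
  rw [Finset.sum_congr rfl h2, Finset.sum_powerset_apply_card
    (fun i => a.choose i * (S.card - i + c).choose c)]
  unfold DD
  simp only [smul_eq_mul]

end

section

variable {m : ℕ} [NeZero m] {j : ℕ} {X K : Finset (ZMod m)}

theorem DD_le_X (h : Set.InjOn Multiset.sum (Tw j X K)) {a c : ℕ} (hac : a + c = j + 1) :
    DD X.card a c ≤ m := by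
  rw [← card_dp_ms X a c]
  apply count_le h
  · intro z hz
    exact (mem_dp.1 hz).2
  · intro z hz z' hz' _
    have h1 := mem_ms.1 (mem_dp.1 hz).1.1
    have h2 := mem_ms.1 (mem_dp.1 hz').1.2
    left
    refine ⟨by rw [Multiset.card_add]; omega, fun x hx => ?_⟩
    rcases Multiset.mem_add.1 hx with hx | hx
    · exact h1.2 x hx
    · exact h2.2 x hx
  · intro z hz
    have h1 := mem_ms.1 (mem_dp.1 hz).1.1
    left
    exact ⟨by omega, h1.2⟩

theorem DD_le_K (hK : K ⊆ X) (h : Set.InjOn Multiset.sum (Tw j X K)) {a c : ℕ}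
    (hac : a + c = j + 2) : DD K.card a c ≤ m := by
  rw [← card_dp_ms K a c]
  have key : ∀ u : Multiset (ZMod m), Multiset.card u ≤ j + 2 → (∀ x ∈ u, x ∈ K) →
      u ∈ Tw j X K := by
    intro u h1 h2
    rcases Nat.lt_or_ge (Multiset.card u) (j + 2) with h3 | h3
    · left; exact ⟨by omega, fun x hx => hK (h2 x hx)⟩
    · right; exact ⟨by omega, h2⟩
  apply count_le h
  · intro z hz
    exact (mem_dp.1 hz).2
  · intro z hz z' hz' _
    have h1 := mem_ms.1 (mem_dp.1 hz).1.1
    have h2 := mem_ms.1 (mem_dp.1 hz').1.2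
    apply key _ (by rw [Multiset.card_add]; omega)
    intro x hx
    rcases Multiset.mem_add.1 hx with hx | hx
    · exact h1.2 x hx
    · exact h2.2 x hx
  · intro z hz
    have h1 := mem_ms.1 (mem_dp.1 hz).1.1
    exact key _ (by omega) h1.2

end

end MPc709deT
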