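import Pool.Agent.Work.MP_c709de_al_top.Final

/-! The characterisation of equality in the Elias-Robbiano-Valla bound. -/

namespace MPc709deT

open Finset MPc709deS MPc709de

theorem injOn_of_fun {m : ℕ} {A : Set (Multiset (ZMod m))} (f : ℕ → Multiset (ZMod m))
    (h : ∀ u ∈ A, ∃ n < m, u.sum = (n : ZMod m) ∧ u = f n) : Set.InjOn Multiset.sum A := by
  intro u hu v hv huv
  obtain ⟨n, hn, h1, h2⟩ := h u hu
  obtain ⟨n', hn', h1', h2'⟩ := h v hv
  have h3 : (n : ZMod m) = (n' : ZMod m) := by rw [← h1, ← h1']; exact huv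
  rw [ZMod.natCast_eq_natCast_iff', Nat.mod_eq_of_lt hn, Nat.mod_eq_of_lt hn'] at h3
  rw [h2, h2', h3]

theorem low_one_cases {m : ℕ} {u : Multiset (ZMod m)} (hu : u ∈ MPc709deS.low ({1} : Finset (ZMod m))) :
    u = 0 ∨ u = {1} ∨ u = {1, 1} := by
  obtain ⟨h1, h2⟩ := hu
  have h3 : u = Multiset.replicate (Multiset.card u) 1 :=
    Multiset.eq_replicate_card.2 (fun x hx => Finset.mem_singleton.1 (h2 x hx))
  rcases (by omega : Multiset.card u = 0 ∨ Multiset.card u = 1 ∨ Multiset.card u = 2) with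
    h | h | h
  · left; rw [h3, h]; rfl
  · right; left; rw [h3, h]; rfl
  · right; right; rw [h3, h]; rfl

theorem config_zero_zero (m : ℕ) : Config 0 0 m := by
  refine ⟨∅, rfl, Or.inl ⟨rfl, ?_⟩⟩
  rintro u ⟨-, hu⟩ v ⟨-, hv⟩ -
  rw [Multiset.eq_zero_of_forall_notMem (fun x hx => Finset.notMem_empty x (hu x hx)),
    Multiset.eq_zero_of_forall_notMem (fun x hx => Finset.notMem_empty x (hv x hx))]

theorem config_one_zero {m : ℕ} (hm : 3 ≤ m) : Config 1 0 m := by
  refine ⟨{1}, rfl, Or.inl ⟨rfl, ?_⟩⟩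
  apply injOn_of_fun (fun n => if n = 0 then 0 else if n = 1 then {1} else {1, 1})
  intro u hu
  rcases low_one_cases hu with rfl | rfl | rfl
  · exact ⟨0, by omega, by simp, by simp⟩
  · exact ⟨1, by omega, by simp, by simp⟩
  · exact ⟨2, by omega, by simp [one_add_one_eq_two], by simp⟩

theorem config_one_one {m : ℕ} (hm : 5 ≤ m) : Config 1 1 m := by
  refine ⟨{1}, rfl, Or.inr (Or.inl ⟨3, ?_, {1}, ?_, rfl, ?_⟩)⟩
  · rw [Finset.mem_singleton]
    intro h
    have h3 : ((3 : ℕ) : ZMod m) = ((1 : ℕ) : ZMod m) := by exact_mod_cast h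
    rw [ZMod.natCast_eq_natCast_iff', Nat.mod_eq_of_lt (by omega),
      Nat.mod_eq_of_lt (by omega)] at h3
    omega
  · exact Finset.subset_insert _ _
  · apply injOn_of_fun (fun n => if n = 0 then 0 else if n = 1 then {1} else if n = 2 then {1, 1}
      else if n = 3 then {3} else {3, 1})
    rintro u ((hu | hu) | ⟨z, hz, rfl⟩)
    · rcases low_one_cases hu with rfl | rfl | rfl
      · exact ⟨0, by omega, by simp, by simp⟩
      · exact ⟨1, by omega, by simp, by simp⟩
      · exact ⟨2, by omega, by simp [one_add_one_eq_two], by simp⟩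
    · rw [Set.mem_singleton_iff] at hu
      subst hu
      exact ⟨3, by omega, by simp, by simp⟩
    · rw [Finset.mem_singleton] at hz
      subst hz
      refine ⟨4, by omega, ?_, by simp⟩
      rw [Multiset.insert_eq_cons, Multiset.sum_cons, Multiset.sum_singleton]
      norm_num

theorem ERV_two {e k t : ℕ} (ht : t ≤ k) (h : (k + 1).choose 2 + t < (e + 1).choose 2) :
    ERV e (e + 1 + ((k + 1).choose 2 + t)) =
      (e + 1).choose 2 + ((k + 2).choose 3 + (t + 1).choose 2) - ((k + 1).choose 2 + t) := by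
  have h1 : e + 1 + ((k + 1).choose 2 + t) =
      1 + e + (∑ i ∈ Finset.range 0, b (1 + i) e + ((k + 1).choose 2 + t)) := by
    rw [Finset.sum_range_zero]; omega
  rw [ERV_eq h1 (by rw [b_one_choose]; exact h)]
  have h2 : b (1 + 0) e = (e + 1).choose 2 := b_one_choose e
  have h3 : F (1 + 0) ((k + 1).choose 2 + t) = F 1 ((k + 1).choose 2 + t) := rfl
  rw [h2, h3, F1_eq_ff, ff_eq ht rfl]

/-- The bound of Elias, Robbiano and Valla is attained exactly if `m < binom(e+2,2)` and `ℤ/m`
contains a configuration. -/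
theorem equality {e m : ℕ} (he : 3 ≤ e) (hem : e < m) :
    maxRho e m = ((ERV e m : ℕ) : ℕ∞) ↔ m < (e + 2).choose 2 ∧
      ∃ k t : ℕ, t ≤ k ∧ m = e + 1 + ((k + 1).choose 2 + t) ∧ Config k t m := by
  have hc2 : (e + 2).choose 2 = (e + 1) + (e + 1).choose 2 := by
    have h2 : (e + 2).choose 2 = (e + 1).choose 1 + (e + 1).choose 2 := Nat.choose_succ_succ' _ _
    rw [h2, Nat.choose_one_right]
  constructor
  · intro h
    have hm : m < (e + 2).choose 2 := by
      by_contra hcon
      push Not at hcon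
      have := maxRho_lt_ERV he hcon
      rw [h] at this
      exact lt_irrefl _ this
    refine ⟨hm, MPc709deS.kk (m - (e + 1)), tt (m - (e + 1)), tt_le _, ?_, ?_⟩
    · have := kt_spec (m - (e + 1))
      omega
    · have h1 := kt_spec (m - (e + 1))
      have h2 := tt_le (m - (e + 1))
      generalize MPc709deS.kk (m - (e + 1)) = k at h1 h2 ⊢
      generalize tt (m - (e + 1)) = t at h1 h2 ⊢
      rcases (by omega : k = 0 ∨ k = 1 ∨ 2 ≤ k) with rfl | rfl | hk
      · obtain rfl : t = 0 := by omega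
        exact config_zero_zero m
      · rcases (by omega : t = 0 ∨ t = 1) with rfl | rfl
        · exact config_one_zero (by omega)
        · exact config_one_one (by omega)
      · have hm' : m = e + 1 + ((k + 1).choose 2 + t) := by omega
        subst hm'
        rw [ERV_two h2 (by omega)] at h
        exact (criterion (by omega) hk h2).1 h
  · rintro ⟨hm, k, t, ht, hmk, hconf⟩
    apply le_antisymm (maxRho_le_ERV he hem)
    have : NeZero m := ⟨by omega⟩
    have h1 := lower_of_config (by omega : 2 ≤ e) hconf hmk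
    subst hmk
    rw [ERV_two ht (by omega)]
    exact h1

end MPc709deT
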