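import Pool.Agent.Work.MP_c709de_al_top.Ineq

/-! Mixed counts, and the consequences for extremal configurations. -/

namespace MPc709deT

open Finset MPc709deS

section

variable {m : ℕ} [NeZero m] {j : ℕ} {X K : Finset (ZMod m)}

theorem mix_le (hK : K ⊆ X) (h : Set.InjOn Multiset.sum (Tw j X K)) {i c : ℕ} (hic : i + c = j) :
    (dp (ms X i ∪ mset K (i + 1)) (ms X c ∪ mset K (c + 1))).card ≤ m := by
  have key1 : ∀ p : Multiset (ZMod m), ∀ i, p ∈ ms X i ∪ mset K (i + 1) →
      (Multiset.card p ≤ i ∧ ∀ x ∈ p, x ∈ X) ∨ (Multiset.card p = i + 1 ∧ ∀ x ∈ p, x ∈ K) := by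
    intro p i hp
    rcases Finset.mem_union.1 hp with hp | hp
    · left; exact mem_ms.1 hp
    · right; exact mem_mset.1 hp
  apply count_le h
  · intro z hz
    exact (mem_dp.1 hz).2
  · intro z hz z' hz' _
    have h1 := key1 _ _ (mem_dp.1 hz).1.1
    have h2 := key1 _ _ (mem_dp.1 hz').1.2
    have hadd : ∀ S : Finset (ZMod m), (∀ x ∈ z.1, x ∈ S) → (∀ x ∈ z'.2, x ∈ S) →
        ∀ x ∈ z.1 + z'.2, x ∈ S := by
      intro S h3 h4 x hx
      rcases Multiset.mem_add.1 hx with hx | hx
      · exact h3 x hx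
      · exact h4 x hx
    rcases h1 with ⟨h1, h1'⟩ | ⟨h1, h1'⟩ <;> rcases h2 with ⟨h2, h2'⟩ | ⟨h2, h2'⟩
    · left; exact ⟨by rw [Multiset.card_add]; omega, hadd X h1' h2'⟩
    · left; exact ⟨by rw [Multiset.card_add]; omega, hadd X h1' (fun x hx => hK (h2' x hx))⟩
    · left; exact ⟨by rw [Multiset.card_add]; omega, hadd X (fun x hx => hK (h1' x hx)) h2'⟩
    · right; exact ⟨by rw [Multiset.card_add]; omega, hadd K h1' h2'⟩
  · intro z hz
    rcases key1 _ _ (mem_dp.1 hz).1.1 with ⟨h1, h1'⟩ | ⟨h1, h1'⟩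
    · left; exact ⟨by omega, h1'⟩
    · left; exact ⟨by omega, fun x hx => hK (h1' x hx)⟩

end

section

variable {α : Type*} [DecidableEq α]

theorem av_union (A B : Finset (Multiset α)) (p : Multiset α) :
    av (A ∪ B) p = av A p ∪ av B p := by
  unfold av; rw [Finset.filter_union]

theorem disj_ms_mset (S S' : Finset α) (c : ℕ) : Disjoint (ms S c) (mset S' (c + 1)) := by
  rw [Finset.disjoint_left]
  intro u hu hu'
  rw [mem_ms] at hu
  rw [mem_mset] at hu'
  omega

theorem card_av_mix (X K : Finset α) (c : ℕ) (p : Multiset α) :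
    (av (ms X c ∪ mset K (c + 1)) p).card =
      ((X \ p.toFinset).card + c).choose c + b c (K \ p.toFinset).card := by
  rw [av_union, av_ms, av_mset, Finset.card_union_of_disjoint (disj_ms_mset _ _ _), card_ms,
    card_mset_b]

theorem mset_one (K : Finset α) : mset K 1 = K.image (fun x => ({x} : Multiset α)) := by
  ext u
  rw [mem_mset, Finset.mem_image]
  constructor
  · rintro ⟨h1, h2⟩
    obtain ⟨x, rfl⟩ := Multiset.card_eq_one.1 h1
    exact ⟨x, h2 x (by simp), rfl⟩
  · rintro ⟨x, hx, rfl⟩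
    refine ⟨by simp, fun y hy => ?_⟩
    rw [Multiset.mem_singleton] at hy
    rw [hy]; exact hx

theorem ms_zero (X : Finset α) : ms X 0 = {0} := by
  ext u
  rw [mem_ms, Finset.mem_singleton]
  constructor
  · rintro ⟨h1, -⟩
    exact Multiset.card_eq_zero.1 (by omega)
  · rintro rfl
    exact ⟨by simp, by simp⟩

end

section

variable {m : ℕ} [NeZero m] {X K : Finset (ZMod m)}

theorem M3_le (hK : K ⊆ X) (h : Set.InjOn Multiset.sum (Tw 1 X K)) :
    X.card + 1 + b 1 K.card + K.card * (X.card - 1 + 1 + b 1 (K.card - 1)) ≤ m := by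
  have h1 := mix_le hK h (i := 0) (c := 1) rfl
  refine le_trans ?_ h1
  rw [card_dp, Finset.sum_union (disj_ms_mset _ _ _), ms_zero, Finset.sum_singleton, card_av_mix,
    zero_add, mset_one, Finset.sum_image (by
      intro x _ y _ hxy; exact Multiset.singleton_inj.1 hxy)]
  have h2 : ∀ x ∈ K, (av (ms X 1 ∪ mset K (1 + 1)) ({x} : Multiset (ZMod m))).card =
      X.card - 1 + 1 + b 1 (K.card - 1) := by
    intro x hx
    rw [card_av_mix, Multiset.toFinset_singleton, Nat.choose_one_right,
      Finset.card_sdiff_of_subset (Finset.singleton_subset_iff.2 (hK hx)),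
      Finset.card_sdiff_of_subset (Finset.singleton_subset_iff.2 hx), Finset.card_singleton]
  rw [Finset.sum_congr rfl h2, Finset.sum_const, smul_eq_mul]
  simp only [Multiset.toFinset_zero, Finset.sdiff_empty, Nat.choose_one_right]
  exact le_rfl

/-- the exceptional case in degree four -/
theorem mix_423 (hK : K ⊆ X) (hX : X.card = 4) (hKc : K.card = 3)
    (h : Set.InjOn Multiset.sum (Tw 2 X K)) : 70 ≤ m := by
  have h1 := mix_le hK h (i := 1) (c := 1) rfl
  refine le_trans ?_ h1
  rw [card_dp, Finset.sum_union (disj_ms_mset _ _ _)]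
  have b11 : b 1 1 = 1 := b_one 1
  have b12 : b 1 2 = 3 := by have := two_b_one 2; omega
  have b13 : b 1 3 = 6 := by have := two_b_one 3; omega
  have hsd : ∀ (S : Finset (ZMod m)) (p : Multiset (ZMod m)),
      S.card - Multiset.card p ≤ (S \ p.toFinset).card := by
    intro S p
    have h2 := Finset.le_card_sdiff p.toFinset S
    have h3 := Multiset.toFinset_card_le p
    omega
  have hf : ∀ p : Multiset (ZMod m), (av (ms X 1 ∪ mset K (1 + 1)) p).card =
      (X \ p.toFinset).card + 1 + b 1 (K \ p.toFinset).card := by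
    intro p
    rw [card_av_mix, Nat.choose_one_right]
  have s1 : 39 ≤ ∑ p ∈ ms X 1, (av (ms X 1 ∪ mset K (1 + 1)) p).card := by
    have h0 : (0 : Multiset (ZMod m)) ∈ ms X 1 := mem_ms.2 ⟨by simp, by simp⟩
    rw [← Finset.add_sum_erase _ _ h0]
    have h2 : ∑ p ∈ (ms X 1).erase 0, 7 ≤
        ∑ p ∈ (ms X 1).erase 0, (av (ms X 1 ∪ mset K (1 + 1)) p).card := by
      apply Finset.sum_le_sum
      intro p hp
      rw [hf]
      have h3 := (mem_ms.1 (Finset.mem_erase.1 hp).2).1
      have h4 := hsd X p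
      have h5 := hsd K p
      have h6 : b 1 2 ≤ b 1 (K \ p.toFinset).card := b_mono 1 (by omega)
      omega
    rw [Finset.sum_const, smul_eq_mul, Finset.card_erase_of_mem h0, card_ms, hX] at h2
    rw [hf]
    simp only [Multiset.toFinset_zero, Finset.sdiff_empty]
    rw [hX, hKc, b13]
    have h7 : (4 + 1).choose 1 = 5 := by decide
    omega
  have s2 : 33 ≤ ∑ p ∈ mset K (1 + 1), (av (ms X 1 ∪ mset K (1 + 1)) p).card := by
    set D : Finset (Multiset (ZMod m)) := K.image (fun x => ({x, x} : Multiset (ZMod m))) with hD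
    have hDK : D ⊆ mset K (1 + 1) := by
      intro u hu
      obtain ⟨x, hx, rfl⟩ := Finset.mem_image.1 hu
      rw [mem_mset]
      refine ⟨by simp, fun y hy => ?_⟩
      simp only [Multiset.insert_eq_cons, Multiset.mem_cons, Multiset.mem_singleton,
        or_self] at hy
      rw [hy]; exact hx
    have hDc : D.card = 3 := by
      rw [hD, Finset.card_image_of_injective, hKc]
      intro x y hxy
      have : x ∈ ({y, y} : Multiset (ZMod m)) := by
        have h8 : ({x, x} : Multiset (ZMod m)) = {y, y} := hxy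
        rw [← h8]; simp
      simpa using this
    rw [← Finset.sum_sdiff hDK]
    have h2 : ∑ p ∈ mset K (1 + 1) \ D, 4 ≤
        ∑ p ∈ mset K (1 + 1) \ D, (av (ms X 1 ∪ mset K (1 + 1)) p).card := by
      apply Finset.sum_le_sum
      intro p hp
      rw [hf]
      have h3 := (mem_mset.1 (Finset.mem_sdiff.1 hp).1).1
      have h4 := hsd X p
      have h5 := hsd K p
      have h6 : b 1 1 ≤ b 1 (K \ p.toFinset).card := b_mono 1 (by omega)
      omega
    have h3 : ∑ p ∈ D, 7 ≤ ∑ p ∈ D, (av (ms X 1 ∪ mset K (1 + 1)) p).card := by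
      apply Finset.sum_le_sum
      intro p hp
      obtain ⟨x, hx, rfl⟩ := Finset.mem_image.1 hp
      rw [hf]
      have h4 : ({x, x} : Multiset (ZMod m)).toFinset = {x} := by
        ext y; simp
      rw [h4, Finset.card_sdiff_of_subset (Finset.singleton_subset_iff.2 (hK hx)),
        Finset.card_sdiff_of_subset (Finset.singleton_subset_iff.2 hx), Finset.card_singleton,
        hX, hKc]
      have h6 : b 1 (3 - 1) = 3 := b12
      omega
    rw [Finset.sum_const, smul_eq_mul, Finset.card_sdiff_of_subset hDK, hDc,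
      card_mset_b, hKc, b13] at h2
    rw [Finset.sum_const, smul_eq_mul, hDc] at h3
    omega
  omega

end

theorem V_eq (e j : ℕ) : 1 + e + ∑ i ∈ range j, b (1 + i) e = (e + j + 1).choose e := by
  have h : ∀ j, 1 + e + ∑ i ∈ range j, b (1 + i) e = (e + j + 1).choose (j + 1) := by
    intro j
    induction j with
    | zero => simp; ring
    | succ j ih =>
      rw [Finset.sum_range_succ, ← add_assoc, ih]
      have h1 : e + (j + 1) + 1 = (e + j + 1) + 1 := by ring
      rw [h1, Nat.choose_succ_succ']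
      congr 1
      unfold b
      rw [Nat.multichoose_eq]
      congr 1 <;> omega
  rw [h]
  have : e + j + 1 = e + (j + 1) := by ring
  rw [this, Nat.choose_symm_add]

theorem b_choose (d k : ℕ) : b d k = (k + d).choose (d + 1) := by
  unfold b
  rw [Nat.multichoose_eq]
  congr 1

/-- Towers exist only in a short list of cases. -/
theorem tower_cases {e j s m : ℕ} [NeZero m] (he : 4 ≤ e) (hj : 1 ≤ j) (hs : s < b (1 + j) e)
    (hm : m = 1 + e + (∑ i ∈ range j, b (1 + i) e + s)) {X K : Finset (ZMod m)}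
    (hX : X.card = e) (hKX : K ⊆ X) (hK : K.card = kk (1 + j) s)
    (h : Set.InjOn Multiset.sum (Tw j X K)) : j = 1 ∧
    ((e = 4 ∧ K.card = 2 ∧ 21 ≤ m ∧ m ≤ 24) ∨ (e = 4 ∧ K.card = 3 ∧ 32 ≤ m ∧ m ≤ 34) ∨
    (e = 5 ∧ K.card = 3 ∧ 36 ≤ m ∧ m ≤ 40) ∨ (e = 6 ∧ K.card = 3 ∧ 43 ≤ m ∧ m ≤ 47) ∨
    (e = 7 ∧ K.card = 4 ∧ m = 70) ∨ (e = 8 ∧ K.card = 4 ∧ 75 ≤ m ∧ m ≤ 79) ∨
    (e = 11 ∧ K.card = 5 ∧ m = 133)) := by
  have hke : K.card < e := by
    have h1 := b_kk_le (1 + j) s
    rw [← hK] at h1
    exact (b_strictMono (1 + j)).lt_iff_lt.1 (by omega)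
  have hs' := lt_b_kk (1 + j) s
  rw [← hK, b_choose] at hs'
  have hV := V_eq e j
  have hm' : m = (e + j + 1).choose e + s := by omega
  rcases Nat.lt_or_ge 1 j with hj2 | hj2
  · exfalso
    have hs2 : s < (K.card + j + 2).choose K.card := by
      have e1 : K.card + 1 + (1 + j) = K.card + (1 + j + 1) := by ring
      have e2 : K.card + j + 2 = K.card + (1 + j + 1) := by ring
      rw [e1] at hs'
      rw [e2, Nat.choose_symm_add]
      exact hs'
    by_cases hex : e = 4 ∧ j = 2 ∧ K.card = 3
    · obtain ⟨h1, h2, h3⟩ := hex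
      subst h1; subst h2
      have h4 := mix_423 hKX hX h3 h
      rw [h3] at hs2
      have h5 : (3 + 2 + 2).choose 3 = 35 := by decide
      have h6 : (4 + 2 + 1).choose 4 = 35 := by decide
      omega
    · exact contra_high he hj2 hke hs2 hm'
        (fun a c hac => by have := DD_le_X h hac; rwa [hX] at this)
        (fun a c hac => DD_le_K hKX h hac) hex
  · have hj1 : j = 1 := by omega
    subst hj1
    refine ⟨rfl, ?_⟩
    have h1 := DD_le_X h (a := 1) (c := 1) rfl
    rw [hX] at h1
    have h2 := DD11 e (by omega)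
    have h3 := M3_le hKX h
    rw [hX] at h3
    have h4 := two_b_one K.card
    have h5 := two_b_one (K.card - 1)
    have h6 : 6 * (K.card + 1 + (1 + 1)).choose (1 + 1 + 1) =
        (K.card + 1) * (K.card + 2) * (K.card + 3) := by
      have e1 := Nat.add_one_mul_choose_eq (K.card + 2) 2
      have e2 := Nat.add_one_mul_choose_eq (K.card + 1) 1
      rw [Nat.choose_one_right] at e2
      have e3 : K.card + 2 + 1 = K.card + 1 + (1 + 1) := by omega
      rw [e3] at e1
      have e4 : K.card + 1 + 1 = K.card + 2 := by omega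
      rw [e4] at e2
      simp only [Nat.reduceAdd] at e1 e2 ⊢
      nlinarith
    have h7 : 2 * (e + 1 + 1).choose e = (e + 1) * (e + 2) := by
      have e0 : e + 1 + 1 = e + 2 := by omega
      rw [e0, Nat.choose_symm_add]
      have e2 := Nat.add_one_mul_choose_eq (e + 1) 1
      rw [Nat.choose_one_right] at e2
      have e3 : e + 1 + 1 = e + 2 := by omega
      rw [e3] at e2
      linarith
    apply contra_three he hke (s := s)
    · omega
    · omega
    · omega
    · obtain ⟨e', he'⟩ : ∃ e', e = e' + 1 := ⟨e - 1, by omega⟩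
      have e1 : e - 1 + 1 = e := by omega
      rw [e1] at h3
      have h8 : K.card * K.card * (K.card - 1) = K.card * ((K.card - 1) * (K.card - 1 + 1)) := by
        rcases Nat.eq_zero_or_pos K.card with h0 | h0
        · simp [h0]
        · have : K.card - 1 + 1 = K.card := by omega
          rw [this]
          ring
      rw [h8, ← h5]
      nlinarith

end MPc709deT
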