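import Pool.Agent.Work.MP_c709de_al_top.Mix

/-! Finer structure of the extremal families in degree three. -/

namespace MPc709deT

open Finset MPc709deS

theorem F1_eq_ff (n : ℕ) : F 1 n = ff n := by
  obtain ⟨k, u, rfl, hu, -⟩ := exists_rep 0 n
  rw [b_zero_left] at hu
  have h1 : F (0 + 1) (b (0 + 1) k + u) = b (0 + 2) k + F 0 u :=
    F_block (by rw [b_zero_left]; omega)
  have e1 : b (0 + 1) k = (k + 1).choose 2 := b_one_choose k
  have e2 : b (0 + 2) k = (k + 2).choose 3 := b_choose 2 k
  have e3 : F 0 u = (u + 1).choose 2 := b_one_choose u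
  rw [e2, e3] at h1
  rw [ff_eq (k := k) (t := u) (by omega) (by rw [e1])]
  exact h1

theorem F1_strict {x y : ℕ} (hx : 2 ≤ x) (hy : 2 ≤ y) : F 1 x + F 1 y < F 1 (x + y) := by
  rw [F1_eq_ff, F1_eq_ff, F1_eq_ff]
  exact ff_strict hx hy

theorem b13 : b 1 3 = 6 := by have := two_b_one 3; omega
theorem b14 : b 1 4 = 10 := by have := two_b_one 4; omega
theorem b15 : b 1 5 = 15 := by have := two_b_one 5; omega
theorem b16 : b 1 6 = 21 := by have := two_b_one 6; omega
theorem b23 : b 2 3 = 10 := by rw [b_choose]; decide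
theorem b24 : b 2 4 = 20 := by rw [b_choose]; decide
theorem b25 : b 2 5 = 35 := by rw [b_choose]; decide
theorem b22 : b 2 2 = 4 := by rw [b_choose]; decide
theorem b32 : b 3 2 = 5 := by rw [b_choose]; decide
theorem b33 : b 3 3 = 15 := by rw [b_choose]; decide

/-- `F 2 t < F 1 t` in the relevant range -/
theorem F2_lt_F1 {k t : ℕ} (hk : 3 ≤ k) (hk' : k ≤ 5) (h1 : b 1 k ≤ t) (h2 : t < b 1 (k + 1)) :
    F 2 t < F 1 t := by
  obtain ⟨v, rfl⟩ : ∃ v, t = b 1 k + v := ⟨t - b 1 k, by omega⟩
  have hv : v ≤ b 0 (k + 1) := by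
    have hbs := b_succ 0 k
    simp only [zero_add] at hbs
    rw [b_zero_left] at hbs ⊢
    omega
  have hF1 : F 1 (b 1 k + v) = b 2 k + F 0 v := F_block (d := 0) hv
  have hbs := b_succ 0 k
  simp only [zero_add] at hbs
  have h3 : F 1 v ≤ F 0 v := F_succ_le 0 v
  have hk345 : k = 3 ∨ k = 4 ∨ k = 5 := by omega
  rcases hk345 with h | h | h
  · subst h
    -- t = 6 + v, v ≤ 3 ; 4 + (2 + v)
    rw [hF1, b13, b23]
    rw [b13] at h2
    have h4 : b 1 (3 + 1) = 10 := b14
    have h5 : F 2 (b 2 2 + (2 + v)) = b 3 2 + F 1 (2 + v) :=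
      F_block (d := 1) (k := 2) (by rw [show b 1 (2 + 1) = 6 from b13]; omega)
    have e1 : b 2 2 + (2 + v) = 6 + v := by rw [b22]; ring
    rw [e1] at h5
    rw [h5, b32]
    have hv3 : v ≤ 3 := by omega
    -- F 1 (2+v) : values 2, 4, 5, 7 ; F 0 v : 0, 1, 3, 6
    have f2 : F 1 2 = 2 := by rw [F1_eq_ff]; decide
    have f3 : F 1 3 = 4 := by rw [F1_eq_ff]; decide
    have f4 : F 1 4 = 5 := by rw [F1_eq_ff]; decide
    have f5 : F 1 5 = 7 := by rw [F1_eq_ff]; decide
    have g1 := le_F 0 v
    interval_cases v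
    · simp only [add_zero]; rw [f2]; omega
    · rw [show 2 + 1 = 3 from rfl, f3]; omega
    · rw [show 2 + 2 = 4 from rfl, f4]; omega
    · rw [show 2 + 3 = 5 from rfl, f5]; omega
  · subst h
    rw [hF1, b14, b24]
    rw [b14] at h2
    have h4 : b 1 (4 + 1) = 15 := b15
    have h5 : F 2 (b 2 3 + v) = b 3 3 + F 1 v :=
      F_block (d := 1) (k := 3) (by rw [show b 1 (3 + 1) = 10 from b14]; omega)
    rw [b23] at h5
    rw [h5, b33]
    omega
  · subst h
    rw [hF1, b15, b25]
    rw [b15] at h2
    have h4 : b 1 (5 + 1) = 21 := b16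
    have h5 : F 2 (b 2 3 + (5 + v)) = b 3 3 + F 1 (5 + v) :=
      F_block (d := 1) (k := 3) (by rw [show b 1 (3 + 1) = 10 from b14]; omega)
    have e1 : b 2 3 + (5 + v) = 15 + v := by rw [b23]; ring
    rw [e1] at h5
    rw [h5, b33]
    rcases Nat.eq_zero_or_pos v with h0 | h0
    · subst h0
      have f5 : F 1 5 = 7 := by rw [F1_eq_ff]; decide
      simp only [add_zero]
      rw [f5]
      omega
    · have h6 : F 1 (5 + v) ≤ F 1 10 := F_mono 1 (by omega)
      have f10 : F 1 10 = 20 := by rw [F1_eq_ff]; decide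
      have g1 := le_F 0 v
      omega

section

variable {κ : Type*} [Fintype κ] [DecidableEq κ]

/-- Two full sets of cubic monomials. -/
def Two (N : Finset (Multiset κ)) (k : ℕ) : Prop :=
  ∃ (K L : Finset κ) (x : κ), K.card = k ∧ L.card = k ∧ x ∉ K ∧ mset K 3 ⊆ N ∧ mset L 3 ⊆ N ∧
    (∀ v ∈ mset L 2, x ::ₘ v ∈ N) ∧ L.erase x ⊆ K

theorem sharp {k : ℕ} (hk : 3 ≤ k) (hk' : k ≤ 5) : ∀ (n t : ℕ) (N : Finset (Multiset κ)),
    N.card = n → n = b 2 k + t → b 1 k ≤ t → t < b 1 (k + 1) → Cl 2 N → F 2 n ≤ (cc N).card →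
    Two N k := by
  intro n
  induction n using Nat.strong_induction_on with
  | _ n ih =>
    intro t N hn hnt ht1 ht2 hN hext
    have hb2 : b 2 (k + 1) = b 2 k + b 1 (k + 1) := b_succ 1 k
    obtain ⟨K0, hK0, hK0'⟩ := clique 2 N hN (by rw [hn]; exact hext)
    have hkk : kk 2 N.card = k := kk_unique (by omega) (by omega)
    rw [hkk] at hK0
    have hFn : F 2 n = b 3 k + F 1 t := by
      rw [hnt]; exact F_block (d := 1) ht2.le
    have ht6 : 6 ≤ t := by
      have := b_mono 1 hk
      rw [b13] at this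
      omega
    -- a vertex outside `K0`
    obtain ⟨v, hv, x, hxv, hxK⟩ : ∃ v ∈ N, ∃ x ∈ v, x ∉ K0 := by
      by_contra hcon
      push Not at hcon
      have h1 : bot 2 N = mset K0 3 := by
        ext u
        rw [mem_bot, mem_mset]
        constructor
        · rintro ⟨h1, h2⟩
          have := hN.low u h1
          exact ⟨by omega, hcon u h1⟩
        · rintro ⟨h1, h2⟩
          exact ⟨hK0' (mem_mset.2 ⟨h1, h2⟩), by omega⟩
      have h2 := card_bot_top 2 N
      have h3 : (bot 2 N).card = b 2 k := by rw [h1, card_mset_b, hK0]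
      have h4 := hN.cc_le
      have h5 := mac_le 2 _ (bot 2 N) rfl (fun v hv => hN.low v (mem_bot.1 hv).1)
      have h6 := mac_le 3 _ (top 2 N) rfl (fun v hv => (mem_top.1 hv).2)
      have h7 : (top 2 N).card = t := by omega
      rw [h3, F_full] at h5
      rw [h7] at h6
      have h8 : F 3 t ≤ F 2 t := F_succ_le 2 t
      have h9 := F2_lt_F1 hk hk' ht1 ht2
      have h10 : 2 + 1 = 3 := rfl
      rw [h10] at h5
      omega
    have h1 := card_fr_lk N x
    have h2 : 0 < (lk N x).card := Finset.card_pos.2 ⟨v.erase x, by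
      rw [mem_lk, Multiset.cons_erase hxv]; exact hv⟩
    have hfr := hN.fr x
    have hlk : Cl 1 (lk N x) := Cl.lk hN x
    have h3 := mac_le 2 _ (fr N x) rfl hfr.low
    have h4 := cc_split1 N (fun u hu => by have := hN.low u hu; omega) x
    have h5 := mac_le 1 _ (lk N x) rfl hlk.low
    have h7 : (cc (lk N x) ∩ N).card ≤ (cc (lk N x)).card :=
      Finset.card_le_card Finset.inter_subset_left
    have hKfr : mset K0 3 ⊆ fr N x := by
      intro u hu
      rw [mem_fr]
      exact ⟨hK0' hu, fun h => hxK ((mem_mset.1 hu).2 x h)⟩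
    have hafr : b 2 k ≤ (fr N x).card := by
      have := Finset.card_le_card hKfr
      rwa [card_mset_b, hK0] at this
    rw [hn] at h1
    set a := (fr N x).card with ha
    set l := (lk N x).card with hl
    have hle : l ≤ t := by omega
    have hae : a = b 2 k + (t - l) := by omega
    have hFa : F 2 a = b 3 k + F 1 (t - l) := by
      rw [hae]; exact F_block (d := 1) (by omega)
    have hsup := F_super 1 l (t - l)
    have e1 : l + (t - l) = t := by omega
    rw [e1] at hsup
    have hq1 : F 2 a ≤ (cc (fr N x)).card := by omega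
    have hq2 : F 1 l ≤ (cc (lk N x) ∩ N).card := by omega
    have hq3 : F 1 l + F 1 (t - l) = F 1 t := by omega
    have hccN : cc (lk N x) ⊆ N := by
      have h11 : cc (lk N x) ∩ N = cc (lk N x) :=
        Finset.eq_of_subset_of_card_le Finset.inter_subset_left (by omega)
      rw [← h11]
      exact Finset.inter_subset_right
    -- `l` is `1`, `t - 1` or `t`
    have hl3 : l = 1 ∨ l = t - 1 ∨ l = t := by
      by_contra hcon
      push Not at hcon
      have := F1_strict (x := l) (y := t - l) (by omega) (by omega)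
      rw [e1] at this
      omega
    -- if `l ≠ t` then `b 1 k ≤ t - 1`
    have hstep : l ≠ t → b 1 k ≤ t - 1 := by
      intro hlt
      by_contra hcon
      have htk : t = b 1 k := by omega
      have h8 : F 1 (t - 1) + 1 = F 1 t := by
        have f1 : F 1 1 = 1 := by rw [F1_eq_ff]; decide
        rcases hl3 with h | h | h
        · rw [h, f1] at hq3; omega
        · have e2 : t - l = 1 := by omega
          rw [e2, f1, h] at hq3; exact hq3
        · exact absurd h hlt
      obtain ⟨k', rfl⟩ : ∃ k', k = k' + 1 := ⟨k - 1, by omega⟩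
      have hb1 := b_succ 0 k'
      rw [b_zero_left] at hb1
      simp only [zero_add] at hb1
      have h9 : F 1 (b 1 k' + k') = b 2 k' + F 0 k' :=
        F_block (d := 0) (by rw [b_zero_left]; omega)
      have h10 : F 1 (b 1 k' + (k' + 1)) = b 2 k' + F 0 (k' + 1) :=
        F_block (d := 0) (by rw [b_zero_left])
      have h11 : F 0 (k' + 1) = F 0 k' + (k' + 1) := b_one_succ k'
      have e2 : t - 1 = b 1 k' + k' := by omega
      have e3 : t = b 1 k' + (k' + 1) := by omega
      rw [e2, h9, e3, h10] at h8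
      omega
    -- the link contains a full set of quadratic monomials
    have hL : b 1 k ≤ l → ∃ L : Finset κ, L.card = k ∧ mset L 2 ⊆ lk N x ∧ mset L 3 ⊆ N := by
      intro hl1
      obtain ⟨L, hLc, hL'⟩ := clique 1 (lk N x) hlk (by rw [← hl]; omega)
      rw [← hl, kk_unique (k := k) hl1 (by omega)] at hLc
      exact ⟨L, hLc, hL', (mset_sub_cc hL').trans hccN⟩
    rcases hl3 with h | h | h
    · -- l = 1: use the elements avoiding `x`
      have hlt : l ≠ t := by omega
      have h8 := hstep hlt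
      obtain ⟨K, L, y, h9, h10, h11, h12, h13, h14, h15⟩ :=
        ih a (by omega) (t - 1) (fr N x) ha.symm (by omega) h8 (by omega) hfr hq1
      have hsub : fr N x ⊆ N := Finset.filter_subset _ _
      exact ⟨K, L, y, h9, h10, h11, h12.trans hsub, h13.trans hsub, fun v hv => hsub (h14 v hv),
        h15⟩
    · -- l = t - 1
      have hlt : l ≠ t := by omega
      have h8 := hstep hlt
      obtain ⟨L, hLc, hL1, hL2⟩ := hL (by omega)
      refine ⟨K0, L, x, hK0, hLc, hxK, hK0', hL2, fun v hv => mem_lk.1 (hL1 hv), ?_⟩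
      intro c hc
      by_contra hcK
      rw [Finset.mem_erase] at hc
      obtain ⟨c', hc', hcc'⟩ : ∃ c' ∈ L.erase x, c' ≠ c := by
        by_contra hcon
        push Not at hcon
        have h9 : (L.erase x).card ≤ 1 := Finset.card_le_one.2 (fun p hp q hq => by
          rw [hcon p hp, hcon q hq])
        have h10 := Finset.pred_card_le_card_erase (s := L) (a := x)
        omega
      rw [Finset.mem_erase] at hc'
      have hmem : ∀ u : Multiset κ, Multiset.card u = 3 → (∀ y ∈ u, y ∈ L ∧ y ≠ x) → u ∈ fr N x := by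
        intro u hu1 hu2
        rw [mem_fr]
        refine ⟨hL2 (mem_mset.2 ⟨hu1, fun y hy => (hu2 y hy).1⟩), fun h => (hu2 x h).2 rfl⟩
      have h9 : ({c, c, c} : Multiset κ) ∈ fr N x := hmem _ (by simp) (by
        intro y hy
        simp only [Multiset.insert_eq_cons, Multiset.mem_cons, Multiset.mem_singleton,
          or_self] at hy
        rw [hy]; exact ⟨hc.2, hc.1⟩)
      have h10 : ({c, c, c'} : Multiset κ) ∈ fr N x := hmem _ (by simp) (by
        intro y hy
        simp only [Multiset.insert_eq_cons, Multiset.mem_cons, Multiset.mem_singleton] at hy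
        rcases hy with rfl | rfl | rfl
        · exact ⟨hc.2, hc.1⟩
        · exact ⟨hc.2, hc.1⟩
        · exact ⟨hc'.2, hc'.1⟩)
      have h11 : (fr N x \ mset K0 3).card ≤ 1 := by
        rw [Finset.card_sdiff_of_subset hKfr, card_mset_b, hK0]
        omega
      have hnot : ∀ u : Multiset κ, c ∈ u → u ∉ mset K0 3 := by
        intro u hcu hu
        exact hcK ((mem_mset.1 hu).2 c hcu)
      have h12 := Finset.card_le_one.1 h11 _ (Finset.mem_sdiff.2 ⟨h9, hnot _ (by simp)⟩) _
        (Finset.mem_sdiff.2 ⟨h10, hnot _ (by simp)⟩)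
      have h13 : c' ∈ ({c, c, c} : Multiset κ) := by rw [h12]; simp
      simp only [Multiset.insert_eq_cons, Multiset.mem_cons, Multiset.mem_singleton,
        or_self] at h13
      exact hcc' h13
    · -- l = t
      obtain ⟨L, hLc, hL1, hL2⟩ := hL (by omega)
      refine ⟨K0, L, x, hK0, hLc, hxK, hK0', hL2, fun v hv => mem_lk.1 (hL1 hv), ?_⟩
      intro c hc
      rw [Finset.mem_erase] at hc
      have h9 : mset K0 3 = fr N x := by
        apply Finset.eq_of_subset_of_card_le hKfr
        rw [card_mset_b, hK0]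
        omega
      have h10 : ({c, c, c} : Multiset κ) ∈ fr N x := by
        rw [mem_fr]
        refine ⟨hL2 (mem_mset.2 ⟨by simp, ?_⟩), ?_⟩
        · intro y hy
          simp only [Multiset.insert_eq_cons, Multiset.mem_cons, Multiset.mem_singleton,
            or_self] at hy
          rw [hy]; exact hc.2
        · intro hy
          simp only [Multiset.insert_eq_cons, Multiset.mem_cons, Multiset.mem_singleton,
            or_self] at hy
          exact hc.1 hy.symm
      rw [← h9, mem_mset] at h10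
      exact h10.2 c (by simp)

end

end MPc709deT
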