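import Pool.Agent.Work.MP_c709de_al_top.Search
import Pool.Agent.Work.MP_c709de_al_top.Sharp
import Pool.Agent.Work.MP_c709de_al_top.Mix

/-! No extremal semigroups beyond the quadratic range, `e ≥ 4`. -/

namespace MPc709deT

open Finset MPc709deS MPc709de

section

variable {κ : Type*} [Fintype κ] [DecidableEq κ]

theorem struct_one (he : 0 < Fintype.card κ) {s : ℕ} {N : Finset (Multiset κ)} (hN : Cl 1 N)
    (hc : N.card = b 1 (Fintype.card κ) + s) (hs : s < b 2 (Fintype.card κ))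
    (hext : b 2 (Fintype.card κ) + F 2 s ≤ (cc N).card) :
    (∀ u : Multiset κ, Multiset.card u = 2 → u ∈ N) ∧ (MPc709deT.top 1 N).card = s ∧
      F 2 s ≤ (cc (MPc709deT.top 1 N)).card := by
  set e := Fintype.card κ with hedef
  have hG := G_sum he 1 1 s hs
  rw [Finset.sum_range_one, Finset.sum_range_one] at hG
  simp only [add_zero] at hG
  rw [← hc] at hG
  obtain ⟨h1, h2⟩ := ideal_bound (κ := κ) he N.card 1 N rfl hN
  rw [← hedef, hG] at h2
  have h3 : ¬ (bot 1 N).card < b 1 e := by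
    intro hcon
    have := h2 (by omega) hcon
    have e3 : b (1 + 1) e = b 2 e := rfl
    have e4 : F (1 + 1) s = F 2 s := rfl
    omega
  have h4 := card_bot_le hN
  rw [← hedef] at h4
  have h5 : (bot 1 N).card = b 1 e := by omega
  have h6 := card_bot_top 1 N
  have h7 := hN.cc_le
  have h8 := mac_le 1 _ (bot 1 N) rfl (fun v hv => hN.low v (mem_bot.1 hv).1)
  rw [h5, F_full] at h8
  have h9 := bot_eq hN (by rw [← hedef]; omega)
  have e3 : b (1 + 1) e = b 2 e := rfl
  refine ⟨fun u hu => ?_, by omega, by omega⟩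
  have : u ∈ bot 1 N := by
    rw [h9, mem_mset]
    exact ⟨by omega, fun x _ => Finset.mem_univ x⟩
  exact (mem_bot.1 this).1

end

theorem two_of_extremal {Γ : AddSubmonoid ℕ} {e s k : ℕ} (h : IsNumerical Γ)
    (hed : edim Γ = e + 1) (he : 0 < e) (hm : mult Γ = 1 + e + (b 1 e + s)) (hs : s < b 2 e)
    (hk : 3 ≤ k) (hk' : k ≤ 5) (h1 : b 2 k + b 1 k ≤ s) (h2 : s < b 2 k + b 1 (k + 1))
    (hext : (e + 1).choose 2 + (b 2 e + F 2 s) ≤ rho Γ + (b 1 e + s)) :
    ∃ (X K L : Finset (ZMod (mult Γ))) (x : ZMod (mult Γ)) (S : Set (Multiset (ZMod (mult Γ)))),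
      X.card = e ∧ K ⊆ X ∧ L ⊆ X ∧ x ∈ X ∧ K.card = k ∧ L.card = k ∧ x ∉ K ∧ L.erase x ⊆ K ∧
      Set.InjOn Multiset.sum S ∧
      (∀ u : Multiset (ZMod (mult Γ)), Multiset.card u ≤ 2 → (∀ y ∈ u, y ∈ X) → u ∈ S) ∧
      (∀ u ∈ mset K 3, u ∈ S) ∧ (∀ u ∈ mset L 3, u ∈ S) ∧ (∀ v ∈ mset L 2, x ::ₘ v ∈ S) := by
  obtain ⟨κ, _, _, g, T, hκ, hT, hcard, hinj, hrho⟩ := exists_ideal h hed
  have h3 := hT.card_eq
  have h4 : (two T).card = b 1 e + s := by omega
  have h5 := hT.count
  rw [hκ, h4] at h5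
  obtain ⟨h6, h7, h8⟩ := struct_one (κ := κ) (by rw [hκ]; exact he) (Cl_two hT)
    (by rw [hκ]; exact h4) (by rw [hκ]; exact hs) (by rw [hκ]; omega)
  obtain ⟨K, L, x, hK, hL, hxK, hK3, hL3, hL2, hLK⟩ := sharp hk hk' s (s - b 2 k)
    (MPc709deT.top 1 (two T)) h7 (by omega) (by omega) (by omega) (Cl_two hT).top h8
  set q : κ → ZMod (mult Γ) := fun x => ((g x : ℕ) : ZMod (mult Γ)) with hq
  have hinj' : Set.InjOn (fun u : Multiset κ => (u.map q).sum) T := by
    intro u hu v hv huv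
    apply hinj hu hv
    change (((u.map g).sum : ℕ) : ZMod (mult Γ)) = (((v.map g).sum : ℕ) : ZMod (mult Γ))
    rw [cast_sum, cast_sum]
    exact huv
  have hqinj : Function.Injective q := by
    intro a b hab
    have : ({a} : Multiset κ) = {b} := hinj' (hT.one a) (hT.one b) (by simpa using hab)
    exact Multiset.singleton_inj.1 this
  -- lifting
  have hlift : ∀ (S : Finset κ) (a : Multiset (ZMod (mult Γ))), (∀ x ∈ a, x ∈ S.image q) →
      ∃ u : Multiset κ, u.map q = a ∧ ∀ x ∈ u, x ∈ S := by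
    intro S a
    induction a using Multiset.induction_on with
    | empty => intro _; exact ⟨0, rfl, by simp⟩
    | cons x a ih =>
      intro ha
      obtain ⟨u, hu, hu'⟩ := ih (fun y hy => ha y (Multiset.mem_cons_of_mem hy))
      obtain ⟨c, hcS, hc⟩ := Finset.mem_image.1 (ha x (Multiset.mem_cons_self _ _))
      refine ⟨c ::ₘ u, by rw [Multiset.map_cons, hu, hc], ?_⟩
      intro y hy
      rw [Multiset.mem_cons] at hy
      rcases hy with rfl | hy
      · exact hcS
      · exact hu' y hy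
  have hM : ∀ u ∈ MPc709deT.top 1 (two T), u ∈ T := fun u hu => (mem_two.1 (mem_top.1 hu).1).1
  have h3S : ∀ (K : Finset κ), mset K 3 ⊆ MPc709deT.top 1 (two T) → ∀ u ∈ mset (K.image q) 3,
      u ∈ (fun u : Multiset κ => u.map q) '' (T : Set (Multiset κ)) := by
    intro K hK3 u hu
    rw [mem_mset] at hu
    obtain ⟨w, rfl, hw⟩ := hlift K u hu.2
    rw [Multiset.card_map] at hu
    exact ⟨w, hM _ (hK3 (mem_mset.2 ⟨hu.1, hw⟩)), rfl⟩
  refine ⟨univ.image q, K.image q, L.image q, q x,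
    (fun u : Multiset κ => u.map q) '' (T : Set (Multiset κ)), ?_, ?_, ?_, ?_, ?_, ?_, ?_, ?_, ?_,
    ?_, ?_, ?_, ?_⟩
  · rw [Finset.card_image_of_injective _ hqinj, Finset.card_univ, hκ]
  · exact Finset.image_subset_image (Finset.subset_univ _)
  · exact Finset.image_subset_image (Finset.subset_univ _)
  · exact Finset.mem_image_of_mem _ (Finset.mem_univ _)
  · rw [Finset.card_image_of_injective _ hqinj, hK]
  · rw [Finset.card_image_of_injective _ hqinj, hL]
  · intro hx
    obtain ⟨y, hy, hyx⟩ := Finset.mem_image.1 hx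
    rw [hqinj hyx] at hy
    exact hxK hy
  · intro y hy
    rw [Finset.mem_erase] at hy
    obtain ⟨z, hz, rfl⟩ := Finset.mem_image.1 hy.2
    refine Finset.mem_image_of_mem _ (hLK (Finset.mem_erase.2 ⟨?_, hz⟩))
    rintro rfl
    exact hy.1 rfl
  · rintro _ ⟨u, hu, rfl⟩ _ ⟨v, hv, rfl⟩ huv
    have := hinj' hu hv huv
    rw [this]
  · intro u hu hu'
    obtain ⟨w, rfl, hw⟩ := hlift univ u hu'
    refine ⟨w, ?_, rfl⟩
    rw [Multiset.card_map] at hu
    rcases Nat.lt_or_ge (Multiset.card w) 2 with h9 | h9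
    · rcases Nat.eq_zero_or_pos (Multiset.card w) with h10 | h10
      · rw [Multiset.card_eq_zero.1 h10]; exact hT.zero
      · obtain ⟨x, rfl⟩ := Multiset.card_eq_one.1 (by omega : Multiset.card w = 1)
        exact hT.one x
    · exact (mem_two.1 (h6 w (by omega))).1
  · exact h3S K hK3
  · exact h3S L hL3
  · intro v hv
    rw [mem_mset] at hv
    obtain ⟨w, rfl, hw⟩ := hlift L v hv.2
    rw [Multiset.card_map] at hv
    refine ⟨x ::ₘ w, hM _ (hL2 w (mem_mset.2 ⟨hv.1, hw⟩)), by simp⟩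

/-- the two counting bounds together -/
theorem count_of_two {m e k : ℕ} [NeZero m] {X K L : Finset (ZMod m)} {x : ZMod m}
    {S : Set (Multiset (ZMod m))} (hX : X.card = e) (hKX : K ⊆ X) (hLX : L ⊆ X) (hx : x ∈ X)
    (hK : K.card = k + 1) (hL : L.card = k + 1) (hxK : x ∉ K) (hLK : L.erase x ⊆ K)
    (hS : Set.InjOn Multiset.sum S)
    (h2 : ∀ u : Multiset (ZMod m), Multiset.card u ≤ 2 → (∀ y ∈ u, y ∈ X) → u ∈ S)
    (hK3 : ∀ u ∈ mset K 3, u ∈ S) (hL3 : ∀ u ∈ mset L 3, u ∈ S)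
    (hL2 : ∀ v ∈ mset L 2, x ::ₘ v ∈ S) :
    (e + 1 + b 1 (k + 1)) + ((k + 1) * (e + b 1 k) + (e + b 1 (k + 1))) ≤ m ∨
    (e + 1 + b 1 k) + (k * (e + b 1 (k - 1)) + 2 * (e + b 1 (k + 1))) ≤ m := by
  by_cases hxL : x ∈ L
  · right
    have h3 : (L.erase x).card = k := by
      rw [Finset.card_erase_of_mem hxL, hL]; rfl
    obtain ⟨w, hwK, hwL⟩ : ∃ w ∈ K, w ∉ L.erase x := by
      by_contra hcon
      push Not at hcon
      have := Finset.card_le_card (show K ⊆ L.erase x from hcon)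
      omega
    have hKe : insert w (L.erase x) = K := by
      apply Finset.eq_of_subset_of_card_le
      · intro y hy
        rcases Finset.mem_insert.1 hy with rfl | hy
        · exact hwK
        · exact hLK hy
      · rw [Finset.card_insert_of_notMem hwL, h3, hK]
    have hLe : insert x (L.erase x) = L := Finset.insert_erase hxL
    have := typeB (M := L.erase x) (x := x) (w := w) hS h2 (by rw [hKe]; exact hK3)
      (by rw [hLe]; exact hL3) ((Finset.erase_subset _ _).trans hLX) hx (hKX hwK)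
      (Finset.notMem_erase _ _) hwL (by rintro rfl; exact hxK hwK)
    rw [h3, hX] at this
    exact this
  · left
    have := typeA (L := L) (x := x) hS h2 hL3 hL2 hLX hx hxL
    rw [hL, hX] at this
    exact this

/-- Beyond the quadratic range the bound is not attained, `e ≥ 4`. -/
theorem not_extremal {Γ : AddSubmonoid ℕ} {e j s : ℕ} (h : IsNumerical Γ)
    (hed : edim Γ = e + 1) (he : 4 ≤ e) (hj : 1 ≤ j)
    (hm : mult Γ = 1 + e + (∑ i ∈ Finset.range j, b (1 + i) e + s))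
    (hs : s < b (1 + j) e) :
    rho Γ + (∑ i ∈ Finset.range j, b (1 + i) e + s) <
      (e + 1).choose 2 + (∑ i ∈ Finset.range j, b (1 + 1 + i) e + F (1 + j) s) := by
  by_contra hcon
  push Not at hcon
  obtain ⟨X, K, hX, hKX, hK, hinj⟩ := tower_of_extremal h hed (by omega) hm hs hcon
  have : NeZero (mult Γ) := ⟨by omega⟩
  obtain ⟨rfl, hcases⟩ := tower_cases he hj hs hm hX hKX hK hinj
  rw [Finset.sum_range_one] at hm
  rw [Finset.sum_range_one, Finset.sum_range_one] at hcon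
  simp only [add_zero] at hm hcon
  have hb10 := b14
  have hb3 := b13
  have hb15 := b15
  have hb16 := b16
  have hb23 := b23
  have hb24 := b24
  have hb25 := b25
  have hb12 : b 1 2 = 3 := by have := two_b_one 2; omega
  have hb17 : b 1 7 = 28 := by have := two_b_one 7; omega
  have hb18 : b 1 8 = 36 := by have := two_b_one 8; omega
  have hb111 : b 1 11 = 66 := by have := two_b_one 11; omega
  have hb11 : b 1 1 = 1 := b_one 1
  have e3 : b (1 + 1) e = b 2 e := rfl
  have e4 : F (1 + 1) s = F 2 s := rfl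
  rw [e3] at hs hcon
  rw [e4] at hcon
  -- the search
  have hsrc : ∀ m0 q0 k0 : ℕ, srK m0 q0 k0 m0 1 1 1 = false → X.card - K.card = q0 →
      K.card = k0 → mult Γ ≠ m0 := by
    intro m0 q0 k0 hf hq hk hmm
    have h5 := search_sound hKX hinj
    rw [hq, hk, hmm, hf] at h5
    exact Bool.false_ne_true h5
  have hcnt : ∀ k : ℕ, 2 ≤ k → k ≤ 4 → b 2 (k + 1) + b 1 (k + 1) ≤ s →
      s < b 2 (k + 1) + b 1 (k + 2) →
      (e + 1 + b 1 (k + 1)) + ((k + 1) * (e + b 1 k) + (e + b 1 (k + 1))) ≤ mult Γ ∨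
      (e + 1 + b 1 k) + (k * (e + b 1 (k - 1)) + 2 * (e + b 1 (k + 1))) ≤ mult Γ := by
    intro k hk1 hk2 h1 h2
    obtain ⟨X, K, L, x, S, c1, c2, c3, c4, c5, c6, c7, c8, c9, c10, c11, c12, c13⟩ :=
      two_of_extremal (k := k + 1) h hed (by omega) hm hs (by omega) (by omega) h1 h2 hcon
    exact count_of_two c1 c2 c3 c4 c5 c6 c7 c8 c9 c10 c11 c12 c13
  rcases hcases with ⟨rfl, hk, h1, h2⟩ | ⟨rfl, hk, h1, h2⟩ | ⟨rfl, hk, h1, h2⟩ | ⟨rfl, hk, h1, h2⟩ |
    ⟨rfl, hk, h1⟩ | ⟨rfl, hk, h1, h2⟩ | ⟨rfl, hk, h1⟩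
  · have a1 := hsrc _ _ _ s421 (by omega) hk
    have a2 := hsrc _ _ _ s422 (by omega) hk
    have a3 := hsrc _ _ _ s423 (by omega) hk
    have a4 := hsrc _ _ _ s424 (by omega) hk
    omega
  · have a1 := hcnt 2 (by omega) (by omega) (by simp only [Nat.reduceAdd]; omega)
      (by simp only [Nat.reduceAdd]; omega)
    simp only [Nat.reduceAdd, Nat.reduceSub, hb3, hb12, hb11] at a1
    omega
  · have a0 := hsrc _ _ _ s536 (by omega) hk
    have a1 := hcnt 2 (by omega) (by omega) (by simp only [Nat.reduceAdd]; omega)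
      (by simp only [Nat.reduceAdd]; omega)
    simp only [Nat.reduceAdd, Nat.reduceSub, hb3, hb12, hb11] at a1
    omega
  · have a0 := hsrc _ _ _ s643 (by omega) hk
    have a1 := hcnt 2 (by omega) (by omega) (by simp only [Nat.reduceAdd]; omega)
      (by simp only [Nat.reduceAdd]; omega)
    simp only [Nat.reduceAdd, Nat.reduceSub, hb3, hb12, hb11] at a1
    omega
  · have a1 := hcnt 3 (by omega) (by omega) (by simp only [Nat.reduceAdd]; omega)
      (by simp only [Nat.reduceAdd]; omega)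
    simp only [Nat.reduceAdd, Nat.reduceSub, hb10, hb3, hb12] at a1
    omega
  · have a1 := hcnt 3 (by omega) (by omega) (by simp only [Nat.reduceAdd]; omega)
      (by simp only [Nat.reduceAdd]; omega)
    simp only [Nat.reduceAdd, Nat.reduceSub, hb10, hb3, hb12] at a1
    omega
  · have a1 := hcnt 4 (by omega) (by omega) (by simp only [Nat.reduceAdd]; omega)
      (by simp only [Nat.reduceAdd]; omega)
    simp only [Nat.reduceAdd, Nat.reduceSub, hb15, hb10, hb3] at a1
    omega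

end MPc709deT
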