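import Pool.Agent.Work.MP_c709de_al_h19.Final
import Pool.Agent.Work.MP_c709de_al_sid.Order3
import Pool.Agent.Work.MP_c709de_al_top.Last

/-! The characterisation of equality in the Elias-Robbiano-Valla bound. -/

namespace MPc709deT

open Finset MPc709deS MPc709de

theorem tele (e j : ℕ) : ∑ i ∈ Finset.range j, b (1 + 1 + i) e + b 1 e =
    ∑ i ∈ Finset.range j, b (1 + i) e + b (1 + j) e := by
  induction j with
  | zero => simp
  | succ j ih =>
    rw [Finset.sum_range_succ, Finset.sum_range_succ]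
    have h1 : 1 + 1 + j = 1 + (j + 1) := by omega
    rw [h1]
    omega

theorem F_add_le (d n x : ℕ) : F d n + x ≤ F d (n + x) :=
  (Nat.add_le_add_left (le_F d x) _).trans (F_super d n x)

theorem sqrt_ineq {j s m : ℕ} (hj : 1 ≤ j)
    (hm : m = 1 + 3 + (∑ i ∈ Finset.range j, b (1 + i) 3 + s)) (hs : s < b (1 + j) 3) :
    Nat.sqrt (4 * m) + 2 + s < b (1 + j) 3 + F (1 + j) s := by
  have hV := V_eq 3 j
  have hF := le_F (1 + j) s
  have h1 : (3 + j + 1).choose 3 = (j + 4).choose 3 := by congr 1; omega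
  have h2 : b (1 + j) 3 = (j + 4).choose 2 := by
    rw [b_choose]
    have h3 : 3 + (1 + j) = (1 + j + 1) + 2 := by omega
    rw [h3, Nat.choose_symm_add]
    congr 1
    omega
  have hm2 : m = (j + 4).choose 3 + s := by omega
  rcases Nat.lt_or_ge j 2 with h | h
  · have hj1 : j = 1 := by omega
    subst hj1
    have hb : b (1 + 1) 3 = 10 := b23
    rw [hb] at hs ⊢
    have h3 : (1 + 4).choose 3 = 10 := by decide
    rw [h3] at hm2
    have hFF : F (1 + 1) s = F 2 s := rfl
    rw [hFF] at hF ⊢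
    rcases Nat.lt_or_ge s 6 with h4 | h4
    · have h5 : Nat.sqrt (4 * m) < 8 := Nat.sqrt_lt'.2 (by omega)
      omega
    · have h5 : Nat.sqrt (4 * m) < 9 := Nat.sqrt_lt'.2 (by omega)
      have h6 := F_add_le 2 4 (s - 4)
      have h7 : F 2 4 = 5 := by rw [← b22, F_full, b32]
      have h8 : 4 + (s - 4) = s := by omega
      rw [h7, h8] at h6
      omega
  · rw [h2] at hs ⊢
    set P := (j + 4).choose 2 with hP
    have e1 : 2 * P = (j + 3) * (j + 4) := by
      have := choose2 (j + 3)
      have h3 : j + 3 + 1 = j + 4 := rfl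
      rw [h3, ← hP] at this
      rw [this]
    have e2 : 3 * (j + 4).choose 3 = P * (j + 2) := by
      have := Nat.choose_succ_right_eq (j + 4) 2
      have h3 : j + 4 - 2 = j + 2 := by omega
      rw [h3, ← hP] at this
      rw [← this, mul_comm]
    have h3 : Nat.sqrt (4 * m) < P - 2 := by
      rw [Nat.sqrt_lt']
      obtain ⟨Q, hQ⟩ : ∃ Q, P = Q + 2 := by
        refine ⟨P - 2, ?_⟩
        have : 2 * 2 ≤ (j + 3) * (j + 4) := Nat.mul_le_mul (by omega) (by omega)
        omega
      rw [hQ, Nat.add_sub_cancel]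
      have h4 : s ≤ Q + 1 := by omega
      obtain ⟨i, rfl⟩ : ∃ i, j = i + 2 := ⟨j - 2, by omega⟩
      rw [hQ] at e1 e2
      have e3 : 2 * Q + 4 = (i + 5) * (i + 6) := by
        calc 2 * Q + 4 = 2 * (Q + 2) := by ring
          _ = (i + 5) * (i + 6) := e1
      nlinarith [e1, e2, e3, h4]
    omega

/-- Beyond the quadratic range the bound is not attained. -/
theorem rho_lt {Γ : AddSubmonoid ℕ} {e j s : ℕ} (h : IsNumerical Γ)
    (hed : edim Γ = e + 1) (he : 3 ≤ e) (hj : 1 ≤ j)
    (hm : mult Γ = 1 + e + (∑ i ∈ Finset.range j, b (1 + i) e + s))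
    (hs : s < b (1 + j) e) :
    rho Γ + s < b (1 + j) e + F (1 + j) s := by
  have ht := tele e j
  have hb1 := b_one_choose e
  rcases Nat.lt_or_ge e 4 with h1 | h1
  · have h3 : e = 3 := by omega
    subst h3
    have h4 : (rho Γ : ℕ∞) ≤ maxRho 3 (mult Γ) := by
      unfold maxRho
      exact le_iSup (fun Γ : {Γ' : AddSubmonoid ℕ // IsNumerical Γ' ∧ edim Γ' = 3 + 1 ∧
        mult Γ' = mult Γ} => (rho Γ.1 : ℕ∞)) ⟨Γ, h, hed, rfl⟩
    rw [MPc709deB.maxRho_three (by omega)] at h4
    have h5 : rho Γ ≤ Nat.sqrt (4 * mult Γ) + 2 := by exact_mod_cast h4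
    have h6 := sqrt_ineq hj hm hs
    omega
  · have h2 := not_extremal h hed h1 hj hm hs
    omega

theorem rho_le' {Γ : AddSubmonoid ℕ} {e j s : ℕ} (h : IsNumerical Γ)
    (hed : edim Γ = e + 1) (he : 0 < e)
    (hm : mult Γ = 1 + e + (∑ i ∈ Finset.range j, b (1 + i) e + s))
    (hs : s < b (1 + j) e) :
    rho Γ + s ≤ b (1 + j) e + F (1 + j) s := by
  have ht := tele e j
  have hb1 := b_one_choose e
  have h2 := rho_le h hed he hm hs
  omega

theorem mac_eq (d : ℕ) : ∀ n, mac (d + 1) n = F d n := by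
  have key : ∀ d n : ℕ, n ≠ 0 →
      Nat.findGreatest (fun a => a.choose (d + 1) ≤ n) (n + d + 1) = kk d n + d := by
    intro d n hn
    rw [Nat.findGreatest_eq_iff]
    have h1 := b_kk_le d n
    have h2 := lt_b_kk d n
    have h3 := (le_b d (kk d n)).trans h1
    rw [b_choose] at h1 h2
    refine ⟨by omega, fun _ => h1, ?_⟩
    intro a ha _ hcon
    have h4 : kk d n + 1 + d ≤ a := by omega
    have h5 := Nat.choose_le_choose (d + 1) h4
    omega
  induction d with
  | zero =>
    intro n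
    rcases Nat.eq_zero_or_pos n with h | h
    · subst h; rw [F_zero]; simp [mac]
    · unfold mac
      rw [if_neg (by omega), key 0 n (by omega)]
      have h1 : kk 0 n = n := kk_unique (by rw [b_zero_left]) (by rw [b_zero_left]; omega)
      rw [h1]
      have h2 : F 0 n = (n + 1).choose 2 := b_one_choose n
      rw [h2]
      simp [mac]
  | succ d ih =>
    intro n
    rcases Nat.eq_zero_or_pos n with h | h
    · subst h; rw [F_zero]; simp [mac]
    · unfold mac
      rw [if_neg (by omega), key (d + 1) n (by omega), ih]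
      have h1 : F (d + 1) n = b (d + 2) (kk (d + 1) n) + F d (n - b (d + 1) (kk (d + 1) n)) := rfl
      rw [h1, b_choose, b_choose]
      rfl

theorem exists_js {e m : ℕ} (he : 0 < e) (hem : e < m) :
    ∃ j s, m = 1 + e + (∑ i ∈ Finset.range j, b (1 + i) e + s) ∧ s < b (1 + j) e := by
  obtain ⟨j, s, h1, h2⟩ : ∃ j s, m - (1 + e) = ∑ i ∈ Finset.range j, b (1 + i) e + s ∧
      s < b (1 + j) e := by
    generalize m - (1 + e) = n
    induction n with
    | zero => exact ⟨0, 0, by simp, b_pos _ he⟩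
    | succ n ih =>
      obtain ⟨j, s, h1, h2⟩ := ih
      rcases Nat.lt_or_ge (s + 1) (b (1 + j) e) with h | h
      · exact ⟨j, s + 1, by omega, h⟩
      · refine ⟨j + 1, 0, ?_, b_pos _ he⟩
        rw [Finset.sum_range_succ]
        omega
  exact ⟨j, s, by omega, h2⟩

theorem rr_eq {e m j s : ℕ} (hm : m = 1 + e + (∑ i ∈ Finset.range j, b (1 + i) e + s))
    (hs : s < b (1 + j) e) : MPc709deS.rr e m = j + 2 := by
  have h1 : m < (e + (j + 2)).choose (j + 2) := by
    have := V_eq e (j + 1)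
    rw [Finset.sum_range_succ] at this
    have h2 : (e + (j + 2)).choose (j + 2) = (e + (j + 1) + 1).choose e := by
      rw [← Nat.choose_symm_add]
      congr 1
    omega
  apply le_antisymm
  · exact Nat.sInf_le h1
  · by_contra hcon
    push Not at hcon
    have h2 : m < (e + MPc709deS.rr e m).choose (MPc709deS.rr e m) :=
      Nat.sInf_mem (⟨_, h1⟩ : {r | m < (e + r).choose r}.Nonempty)
    have h3 : (e + MPc709deS.rr e m).choose (MPc709deS.rr e m) ≤ (e + j + 1).choose e := by
      rw [← Nat.choose_symm_add]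
      exact Nat.choose_le_choose e (by omega)
    have h4 := V_eq e j
    omega

theorem ERV_eq {e m j s : ℕ} (hm : m = 1 + e + (∑ i ∈ Finset.range j, b (1 + i) e + s))
    (hs : s < b (1 + j) e) : ERV e m = b (1 + j) e + F (1 + j) s - s := by
  unfold ERV
  rw [rr_eq hm hs]
  have h1 : e + (j + 2) - 1 = e + j + 1 := by omega
  have h2 : (e + j + 1).choose (j + 2 - 1) = (e + j + 1).choose e := by
    have h3 : j + 2 - 1 = j + 1 := by omega
    have h4 : e + j + 1 = e + (j + 1) := by omega
    rw [h3, h4, ← Nat.choose_symm_add]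
  have h3 := V_eq e j
  have h4 : m - (e + j + 1).choose e = s := by omega
  have h5 : j + 2 = (1 + j) + 1 := by omega
  rw [h1, h2, h4, h5, mac_eq, b_choose]
  congr 3
  omega

theorem maxRho_le_ERV {e m : ℕ} (he : 3 ≤ e) (hem : e < m) : maxRho e m ≤ ((ERV e m : ℕ) : ℕ∞) := by
  obtain ⟨j, s, hm, hs⟩ := exists_js (show 0 < e by omega) hem
  rw [ERV_eq hm hs]
  unfold maxRho
  apply iSup_le
  rintro ⟨Γ, hnum, hed, hmult⟩
  have h1 := rho_le' hnum hed (by omega) (by rw [hmult]; exact hm) hs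
  have h2 : rho Γ ≤ b (1 + j) e + F (1 + j) s - s := by omega
  exact_mod_cast h2

theorem maxRho_lt_ERV {e m : ℕ} (he : 3 ≤ e) (hm : (e + 2).choose 2 ≤ m) :
    maxRho e m < ((ERV e m : ℕ) : ℕ∞) := by
  have hem : e < m := by
    have := choose2 (e + 1)
    have h3 : e + 1 + 1 = e + 2 := rfl
    rw [h3] at this
    nlinarith
  obtain ⟨j, s, hms, hs⟩ := exists_js (show 0 < e by omega) hem
  have hj : 1 ≤ j := by
    by_contra hcon
    have h0 : j = 0 := by omega
    subst h0
    rw [Finset.sum_range_zero] at hms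
    have h1 : b (1 + 0) e = (e + 1).choose 2 := b_one_choose e
    have h2 : (e + 2).choose 2 = (e + 1).choose 1 + (e + 1).choose 2 := Nat.choose_succ_succ' _ _
    rw [Nat.choose_one_right] at h2
    omega
  rw [ERV_eq hms hs]
  have hF := le_F (1 + j) s
  have hb := b_pos (1 + j) (show 0 < e by omega)
  have h0 : maxRho e m ≤ ((b (1 + j) e + F (1 + j) s - s - 1 : ℕ) : ℕ∞) := by
    unfold maxRho
    apply iSup_le
    rintro ⟨Γ, hnum, hed, hmult⟩
    have h1 := rho_lt hnum hed he hj (by rw [hmult]; exact hms) hs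
    have h2 : rho Γ ≤ b (1 + j) e + F (1 + j) s - s - 1 := by omega
    exact_mod_cast h2
  refine lt_of_le_of_lt h0 ?_
  exact_mod_cast (by omega : b (1 + j) e + F (1 + j) s - s - 1 < b (1 + j) e + F (1 + j) s - s)

end MPc709deT
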