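import Pool.Agent.Work.MP_c709de_al_top.Mac

/-! The extremal function in a fixed number of variables, and the structure of extremal ideals. -/

namespace MPc709deT

open Finset MPc709deS

theorem b_le_succ (d : ℕ) {e : ℕ} (he : 0 < e) : b d e ≤ b (d + 1) e := by
  obtain ⟨e', rfl⟩ : ∃ e', e = e' + 1 := ⟨e - 1, by omega⟩
  rw [b_succ]
  omega

theorem sum_shift (d e j : ℕ) :
    ∑ i ∈ Finset.range j, b (d + (i + 1)) e = ∑ i ∈ Finset.range j, b (d + 1 + i) e :=
  Finset.sum_congr rfl (fun i _ => by
    have : d + (i + 1) = d + 1 + i := by omega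
    rw [this])

theorem b_pos (d : ℕ) {e : ℕ} (he : 0 < e) : 0 < b d e := lt_of_lt_of_le he (le_b d e)

/-- the extremal function for families of degree at least `d+1` in `e` variables -/
def G (e : ℕ) (d n : ℕ) : ℕ :=
  if _h : 0 < b d e ∧ b d e ≤ n then b (d + 1) e + G e (d + 1) (n - b d e) else F d n
termination_by n
decreasing_by omega

theorem G_lt {e d n : ℕ} (h : n < b d e) : G e d n = F d n := by
  unfold G
  rw [dif_neg (by omega)]

theorem G_ge {e d n : ℕ} (he : 0 < e) (h : b d e ≤ n) :
    G e d n = b (d + 1) e + G e (d + 1) (n - b d e) := by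
  rw [G]
  rw [dif_pos ⟨b_pos d he, h⟩]

theorem G_le {e d n : ℕ} (he : 0 < e) (h : n ≤ b d e) : G e d n = F d n := by
  rcases Nat.lt_or_ge n (b d e) with h1 | h1
  · exact G_lt h1
  · have h2 : n = b d e := le_antisymm h h1
    rw [G_ge he h1, h2, Nat.sub_self, G_lt (b_pos _ he), F_zero, F_full]
    rfl

theorem last_block {e d L : ℕ} (he : 0 < e) (hL : L ≤ b d e) :
    F (d + 1) (b (d + 1) e - L) + F d (b d e) =
      F (d + 1) (b (d + 1) e) + F d (b d e - L) := by
  obtain ⟨e', rfl⟩ : ∃ e', e = e' + 1 := ⟨e - 1, by omega⟩
  have h1 : b (d + 1) (e' + 1) - L = b (d + 1) e' + (b d (e' + 1) - L) := by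
    rw [b_succ]; omega
  rw [h1, F_block (by omega), F_full, F_full]
  have h2 : b (d + 2) (e' + 1) = b (d + 2) e' + b (d + 1) (e' + 1) := b_succ (d + 1) e'
  have h3 : d + 1 + 1 = d + 2 := rfl
  rw [h3, h2]
  omega

theorem QQ {e : ℕ} (he : 0 < e) : ∀ n d L : ℕ, L ≤ b d e → L ≤ n →
    G e (d + 1) n + F d (b d e - L) ≤ G e (d + 1) (n - L) + F d (b d e) := by
  intro n
  induction n using Nat.strong_induction_on with
  | _ n ih =>
    intro d L hL hLn
    have hlb := last_block he hL
    have hbs := b_le_succ d he
    have hbs' := b_le_succ (d + 1) he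
    have hpos := b_pos (d + 1) he
    rcases Nat.lt_or_ge (b (d + 1) e) n with h | h
    · rcases Nat.lt_or_ge (n - L) (b (d + 1) e) with h1 | h1
      · -- crossing
        obtain ⟨L2, hL2⟩ : ∃ L2, n = b (d + 1) e + L2 := ⟨n - b (d + 1) e, by omega⟩
        obtain ⟨L1, hL1⟩ : ∃ L1, L = L1 + L2 := ⟨L - L2, by omega⟩
        have h2 : n - L = b (d + 1) e - L1 := by omega
        have h3 : n - b (d + 1) e = L2 := by omega
        rw [G_ge he h.le, h3, G_le he (by omega), G_le he (by omega), h2]
        have hlb1 := last_block (d := d) (L := L1) he (by omega)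
        have h4 := F_super d L2 (b d e - L)
        have h5 : L2 + (b d e - L) = b d e - L1 := by omega
        rw [h5] at h4
        have h6 := F_succ_le (d + 1) L2
        have h7 := F_succ_le d L2
        rw [F_full (d + 1)] at hlb1
        have h8 : F (d + 1 + 1) L2 = F (d + 1 + 1) L2 := rfl
        omega
      · have h2 := ih (n - b (d + 1) e) (by omega) (d + 1) L (by omega) (by omega)
        rw [G_ge he h.le, G_ge he h1]
        have h3 : n - b (d + 1) e - L = n - L - b (d + 1) e := by omega
        rw [h3] at h2
        omega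
    · rw [G_le he h, G_le he (by omega)]
      have h1 := F_exch_le (d := d + 1) (k := e) (x := n) (y := b (d + 1) e - L) h (by omega)
        (by omega)
      have h2 : n + (b (d + 1) e - L) - b (d + 1) e = n - L := by omega
      rw [h2] at h1
      omega

theorem QQ_lt {e : ℕ} (he : 0 < e) {n d L : ℕ} (hL : L ≤ b d e) (hLn : L ≤ n) (hL1 : 1 ≤ L)
    (hn : n < b (d + 1) e) :
    G e (d + 1) n + F d (b d e - L) < G e (d + 1) (n - L) + F d (b d e) := by
  have hlb := last_block he hL
  have hbs := b_le_succ d he
  rw [G_lt hn, G_lt (by omega)]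
  have h1 := F_exch (d := d + 1) (k := e) (x := n) (y := b (d + 1) e - L) hn (by omega)
    (by omega)
  have h2 : n + (b (d + 1) e - L) - b (d + 1) e = n - L := by omega
  rw [h2] at h1
  omega

section

variable {κ : Type*} [Fintype κ] [DecidableEq κ]

theorem bot_sub {d : ℕ} {N : Finset (Multiset κ)} (hN : Cl d N) : bot d N ⊆ mset univ (d + 1) := by
  intro u hu
  rw [mem_bot] at hu
  rw [mem_mset]
  have := hN.low u hu.1
  exact ⟨by omega, fun x _ => Finset.mem_univ x⟩

theorem card_bot_le {d : ℕ} {N : Finset (Multiset κ)} (hN : Cl d N) :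
    (bot d N).card ≤ b d (Fintype.card κ) := by
  have := Finset.card_le_card (bot_sub hN)
  rwa [card_mset_b, Finset.card_univ] at this

theorem bot_eq {d : ℕ} {N : Finset (Multiset κ)} (hN : Cl d N)
    (h : b d (Fintype.card κ) ≤ (bot d N).card) : bot d N = mset univ (d + 1) := by
  apply Finset.eq_of_subset_of_card_le (bot_sub hN)
  rw [card_mset_b, Finset.card_univ]
  exact h

omit [Fintype κ] in
theorem bot_pos {d : ℕ} {N : Finset (Multiset κ)} (hN : Cl d N) (hne : N.Nonempty) :
    0 < (bot d N).card := by
  obtain ⟨v, hv, hmin⟩ := Finset.exists_min_image N (fun v => Multiset.card v) hne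
  refine Finset.card_pos.2 ⟨v, ?_⟩
  rw [mem_bot]
  refine ⟨hv, fun hc => ?_⟩
  obtain ⟨x, hx⟩ : ∃ x, x ∈ v := Multiset.card_pos_iff_exists_mem.1 (by omega)
  have h9 := hmin _ (hN.down v hv x hx hc)
  rw [Multiset.card_erase_of_mem hx, Nat.pred_eq_sub_one] at h9
  omega

theorem ideal_bound (he : 0 < Fintype.card κ) : ∀ (n d : ℕ) (N : Finset (Multiset κ)),
    N.card = n → Cl d N → (cc N).card ≤ G (Fintype.card κ) d n ∧
      (b d (Fintype.card κ) ≤ n → (bot d N).card < b d (Fintype.card κ) →
        (cc N).card < G (Fintype.card κ) d n) := by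
  set e := Fintype.card κ with hedef
  intro n
  induction n using Nat.strong_induction_on with
  | _ n ih =>
    intro d N hn hN
    rcases Nat.lt_or_ge n (b d e) with h | h
    · refine ⟨?_, fun h' => absurd h' (by omega)⟩
      rw [G_lt h]
      exact mac_le d n N hn hN.low
    · have hpos := b_pos d he
      have hne : N.Nonempty := Finset.card_pos.1 (by omega)
      have h0 := bot_pos hN hne
      have h1 := card_bot_top d N
      have h2 := hN.cc_le
      have h3 := mac_le d _ (bot d N) rfl (fun v hv => hN.low v (mem_bot.1 hv).1)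
      have h4 := card_bot_le hN
      obtain ⟨h5, h6⟩ := ih (MPc709deT.top d N).card (by omega) (d + 1) (MPc709deT.top d N) rfl
        hN.top
      rw [← hedef] at h4
      rw [G_ge he h]
      rcases Nat.lt_or_ge (bot d N).card (b d e) with h7 | h7
      · have hQ := QQ he (MPc709deT.top d N).card d (b d e - (bot d N).card) (by omega) (by omega)
        have e1 : b d e - (b d e - (bot d N).card) = (bot d N).card := by omega
        have e2 : (MPc709deT.top d N).card - (b d e - (bot d N).card) = n - b d e := by omega
        rw [e1, e2, F_full] at hQ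
        refine ⟨by omega, fun _ _ => ?_⟩
        rcases Nat.lt_or_ge (MPc709deT.top d N).card (b (d + 1) e) with h8 | h8
        · have hQ' := QQ_lt he (n := (MPc709deT.top d N).card) (d := d)
            (L := b d e - (bot d N).card) (by omega) (by omega) (by omega) h8
          rw [e1, e2, F_full] at hQ'
          omega
        · have h9 := h6 h8 (by
            by_contra hcon
            push Not at hcon
            have h10 := bot_eq hN.top hcon
            obtain ⟨x⟩ : Nonempty κ := Fintype.card_pos_iff.1 he
            have h11 : mset univ (d + 1) ⊆ bot d N := by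
              intro u hu
              rw [mem_mset] at hu
              have h12 : x ::ₘ u ∈ bot (d + 1) (MPc709deT.top d N) := by
                rw [h10, mem_mset]
                exact ⟨by rw [Multiset.card_cons, hu.1], fun y _ => Finset.mem_univ y⟩
              have h13 := (mem_top.1 (mem_bot.1 h12).1).1
              have h14 := hN.down _ h13 x (Multiset.mem_cons_self _ _) (by
                rw [Multiset.card_cons, hu.1])
              rw [Multiset.erase_cons_head] at h14
              rw [mem_bot]
              exact ⟨h14, by omega⟩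
            have h15 := Finset.card_le_card h11
            rw [card_mset_b, Finset.card_univ, ← hedef] at h15
            omega)
          omega
      · have h8 : (bot d N).card = b d e := le_antisymm h4 h7
        have h9 : (MPc709deT.top d N).card = n - b d e := by omega
        rw [h8, F_full] at h3
        rw [h9] at h5
        exact ⟨by omega, fun _ h' => absurd h' (by omega)⟩

theorem G_sum {e : ℕ} (he : 0 < e) (j : ℕ) : ∀ d s : ℕ, s < b (d + j) e →
    G e d (∑ i ∈ Finset.range j, b (d + i) e + s) =
      ∑ i ∈ Finset.range j, b (d + 1 + i) e + F (d + j) s := by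
  induction j with
  | zero =>
    intro d s hs
    simp only [Finset.range_zero, Finset.sum_empty, zero_add, add_zero] at hs ⊢
    exact G_lt hs
  | succ j ih =>
    intro d s hs
    rw [Finset.sum_range_succ', Finset.sum_range_succ', sum_shift, sum_shift (d + 1)]
    simp only [add_zero]
    rw [G_ge he (by omega)]
    have h1 : ∑ i ∈ Finset.range j, b (d + 1 + i) e + b d e + s - b d e =
        ∑ i ∈ Finset.range j, b (d + 1 + i) e + s := by omega
    have h3 : d + 1 + j = d + (j + 1) := by omega
    rw [h1, ih (d + 1) s (by rw [h3]; exact hs), h3]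
    omega

/-- The structure of the extremal closed families. -/
theorem struct_top (he : 0 < Fintype.card κ) (j : ℕ) :
    ∀ (d s : ℕ) (N : Finset (Multiset κ)), Cl d N →
    N.card = ∑ i ∈ Finset.range j, b (d + i) (Fintype.card κ) + s →
    s < b (d + j) (Fintype.card κ) →
    ∑ i ∈ Finset.range j, b (d + 1 + i) (Fintype.card κ) + F (d + j) s ≤ (cc N).card →
    (∀ u : Multiset κ, d + 1 ≤ Multiset.card u → Multiset.card u ≤ d + j → u ∈ N) ∧
      ∃ K : Finset κ, K.card = kk (d + j) s ∧ mset K (d + j + 1) ⊆ N := by
  set e := Fintype.card κ with hedef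
  induction j with
  | zero =>
    intro d s N hN hc hs hext
    simp only [Finset.range_zero, Finset.sum_empty, zero_add, add_zero] at hc hs hext ⊢
    refine ⟨fun u h1 h2 => by omega, ?_⟩
    have := clique d N hN (by rw [hc]; exact hext)
    rw [hc] at this
    exact this
  | succ j ih =>
    intro d s N hN hc hs hext
    have hG := G_sum he (j + 1) d s hs
    rw [← hc] at hG
    obtain ⟨h1, h2⟩ := ideal_bound (κ := κ) he N.card d N rfl hN
    rw [← hedef, hG] at h2
    have hge : b d e ≤ N.card := by
      rw [hc, Finset.sum_range_succ']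
      simp only [add_zero]
      omega
    have h3 : ¬ (bot d N).card < b d e := by
      intro hcon
      have := h2 hge hcon
      omega
    have h4 := card_bot_le hN
    rw [← hedef] at h4
    have h5 : (bot d N).card = b d e := by omega
    have h6 := card_bot_top d N
    have h7 := hN.cc_le
    have h8 := mac_le d _ (bot d N) rfl (fun v hv => hN.low v (mem_bot.1 hv).1)
    rw [h5, F_full] at h8
    have h9 := bot_eq hN (by rw [← hedef]; omega)
    obtain ⟨h10, K, hK, hK'⟩ := ih (d + 1) s (MPc709deT.top d N) hN.top (by
      rw [Finset.sum_range_succ', sum_shift] at hc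
      simp only [add_zero] at hc
      omega) (by
      have : d + 1 + j = d + (j + 1) := by omega
      rw [this]; exact hs) (by
      rw [Finset.sum_range_succ', sum_shift] at hext
      simp only [add_zero] at hext
      have h3 : d + 1 + j = d + (j + 1) := by omega
      rw [h3]
      omega)
    refine ⟨fun u h11 h12 => ?_, K, ?_, ?_⟩
    · rcases Nat.lt_or_ge (Multiset.card u) (d + 2) with h13 | h13
      · have : u ∈ bot d N := by
          rw [h9, mem_mset]
          exact ⟨by omega, fun x _ => Finset.mem_univ x⟩
        exact (mem_bot.1 this).1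
      · exact (mem_top.1 (h10 u (by omega) (by omega))).1
    · rw [hK]
      congr 1
      omega
    · have h11 : d + 1 + j + 1 = d + (j + 1) + 1 := by omega
      rw [← h11]
      exact hK'.trans (fun u hu => (mem_top.1 hu).1)

end

end MPc709deT
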