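import Pool.Agent.Work.MP_c709de_al_top.Alpha

/-! Numerical contradictions. -/

namespace MPc709deT

open Finset

theorem alpha5 {n a c : ℕ} (hn : 5 ≤ n) (hc : 2 ≤ c) (h1 : c ≤ a) (h2 : a ≤ c + 1) :
    2 * (n + a + c).choose n ≤ DD n a c := by
  obtain ⟨q, rfl⟩ : ∃ q, n = q + 3 := ⟨n - 3, by omega⟩
  have hkey2 : a ≤ q + 2 ∨ (a - (q + 2)) + 2 * ((q + 3) * (q + 3 + c)) ≤
      (q + 3) * ((q + 3) * (c + 1)) := by
    right
    obtain ⟨c', rfl⟩ : ∃ c', c = c' + 2 := ⟨c - 2, by omega⟩
    obtain ⟨q', rfl⟩ : ∃ q', q = q' + 2 := ⟨q - 2, by omega⟩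
    have h3 : a - (q' + 2 + 2) ≤ c' := by omega
    nlinarith [Nat.zero_le (q' * c'), Nat.zero_le (q' * q' * c'), Nat.zero_le (q' * q')]
  rcases Nat.lt_or_ge 2 c with h3 | h3
  · apply DD_ge_aux (by omega) hc _ hkey2
    obtain ⟨c', rfl⟩ : ∃ c', c = c' + 3 := ⟨c - 3, by omega⟩
    obtain ⟨q', rfl⟩ : ∃ q', q = q' + 2 := ⟨q - 2, by omega⟩
    obtain ⟨a', rfl⟩ : ∃ a', a = c' + 3 + a' := ⟨a - (c' + 3), by omega⟩
    nlinarith [Nat.zero_le (q' * c'), Nat.zero_le (q' * q' * c'), Nat.zero_le (q' * q'),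
      Nat.zero_le (a' * q'), Nat.zero_le (a' * q' * q'), Nat.zero_le (a' * q' * c'),
      Nat.zero_le (a' * q' * q' * c'), Nat.zero_le (c' * c'), Nat.zero_le (q' * c' * c'),
      Nat.zero_le (q' * q' * c' * c'), Nat.zero_le (a' * c')]
  · have hc2 : c = 2 := by omega
    subst hc2
    rcases Nat.lt_or_ge q 3 with h4 | h4
    · have hq2 : q = 2 := by omega
      subst hq2
      rcases (by omega : a = 2 ∨ a = 3) with h5 | h5 <;> subst h5 <;> decide
    · apply DD_ge_aux (by omega) hc _ hkey2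
      obtain ⟨q', rfl⟩ : ∃ q', q = q' + 3 := ⟨q - 3, by omega⟩
      obtain ⟨a', rfl⟩ : ∃ a', a = 2 + a' := ⟨a - 2, by omega⟩
      nlinarith [Nat.zero_le (q' * q'), Nat.zero_le (a' * q'), Nat.zero_le (a' * q' * q')]

theorem alpha4 {n a c : ℕ} (hn : 4 ≤ n) (hc : 2 ≤ c) (ha : 3 ≤ a) (h1 : c ≤ a) (h2 : a ≤ c + 1) :
    2 * (n + a + c).choose n ≤ DD n a c := by
  rcases Nat.lt_or_ge 4 n with h3 | h3
  · exact alpha5 (by omega) hc h1 h2
  · have hn4 : n = 4 := by omega
    subst hn4
    rcases Nat.lt_or_ge 3 a with h4 | h4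
    · have hc3 : 3 ≤ c := by omega
      refine DD_ge_aux (q := 1) (by omega) hc ?_ (Or.inr ?_)
      · rcases Nat.lt_or_ge 3 c with h5 | h5
        · obtain ⟨c', rfl⟩ : ∃ c', c = c' + 4 := ⟨c - 4, by omega⟩
          obtain ⟨a', rfl⟩ : ∃ a', a = c' + 4 + a' := ⟨a - (c' + 4), by omega⟩
          nlinarith [Nat.zero_le (a' * c'), Nat.zero_le (c' * c')]
        · have hc' : c = 3 := by omega
          have ha' : a = 4 := by omega
          subst hc'; subst ha'
          decide
      · omega
    · have ha3 : a = 3 := by omega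
      subst ha3
      rcases (by omega : c = 2 ∨ c = 3) with h5 | h5 <;> subst h5 <;> decide

theorem TR_two (n a c : ℕ) (hn : 2 ≤ n) : TR n a c 0 + TR n a c 1 + TR n a c 2 ≤ DD n a c := by
  rw [sum_TR]
  have : TR n a c 0 + TR n a c 1 + TR n a c 2 = ∑ i ∈ range 3, TR n a c i := by
    rw [Finset.sum_range_succ, Finset.sum_range_succ, Finset.sum_range_one]
  rw [this]
  apply Finset.sum_le_sum_of_subset
  intro i hi
  rw [Finset.mem_range] at hi ⊢
  omega

theorem DD11 (n : ℕ) (hn : 1 ≤ n) : n * n + n + 1 ≤ DD n 1 1 := by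
  rw [sum_TR]
  have h1 : TR n 1 1 0 + TR n 1 1 1 = ∑ i ∈ range 2, TR n 1 1 i := by
    rw [Finset.sum_range_succ, Finset.sum_range_one]
  have h2 : ∑ i ∈ range 2, TR n 1 1 i ≤ ∑ i ∈ range (n + 1), TR n 1 1 i := by
    apply Finset.sum_le_sum_of_subset
    intro i hi
    rw [Finset.mem_range] at hi ⊢
    omega
  have h3 : TR n 1 1 0 = n + 1 := by
    unfold TR; simp
  have h4 : TR n 1 1 1 = n * n := by
    unfold TR
    rw [Nat.choose_one_right, Nat.choose_self, one_mul, Nat.choose_one_right]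
    congr 1
    omega
  omega

theorem alpha21 {n : ℕ} (hn : 8 ≤ n) : 2 * (n + 3).choose n ≤ DD n 2 1 := by
  have h1 := TR_two n 2 1 (by omega)
  have h2 : TR n 2 1 0 = n + 1 := by unfold TR; simp
  have h3 : TR n 2 1 1 = n * (2 * n) := by
    unfold TR
    rw [Nat.choose_one_right, Nat.choose_one_right, Nat.choose_one_right]
    congr 2
    omega
  have h4 : TR n 2 1 2 = n.choose 2 * (n - 1) := by
    unfold TR
    rw [Nat.choose_self, one_mul, Nat.choose_one_right]
    congr 1
    omega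
  rw [h2, h3, h4] at h1
  obtain ⟨q, rfl⟩ : ∃ q, n = q + 8 := ⟨n - 8, by omega⟩
  have h5 : 2 * (q + 8).choose 2 = (q + 7) * (q + 8) := by
    have := Nat.add_one_mul_choose_eq (q + 7) 1
    rw [Nat.choose_one_right] at this
    have h6 : q + 7 + 1 = q + 8 := by omega
    rw [h6] at this
    linarith
  have h6 : 6 * (q + 8 + 3).choose (q + 8) = (q + 9) * (q + 10) * (q + 11) := by
    rw [Nat.choose_symm_add]
    have e1 := Nat.add_one_mul_choose_eq (q + 10) 2
    have e2 := Nat.add_one_mul_choose_eq (q + 9) 1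
    rw [Nat.choose_one_right] at e2
    have e3 : q + 10 + 1 = q + 8 + 3 := by omega
    rw [e3] at e1
    have e4 : q + 9 + 1 = q + 10 := by omega
    rw [e4] at e2
    simp only [Nat.reduceAdd] at e1 e2
    nlinarith
  have e7 : q + 8 - 1 = q + 7 := by omega
  rw [e7] at h1
  have h7 : 2 * DD (q + 8) 2 1 ≥
      2 * (q + 9) + 2 * ((q + 8) * (2 * (q + 8))) + (q + 7) * (q + 8) * (q + 7) := by
    nlinarith
  nlinarith [Nat.zero_le (q * q), Nat.zero_le (q * q * q)]

theorem choose_le_V {e j k : ℕ} (he : 4 ≤ e) (hj : 2 ≤ j) (hk : k ≤ 3) :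
    (k + j + 2).choose k ≤ (e + j + 1).choose e := by
  have h1 : (k + j + 2).choose k = (k + (j + 2)).choose (j + 2) := by
    have : k + j + 2 = k + (j + 2) := by ring
    rw [this, Nat.choose_symm_add]
  have h2 : (e + j + 1).choose e = (e + (j + 1)).choose (j + 1) := by
    have : e + j + 1 = e + (j + 1) := by ring
    rw [this, Nat.choose_symm_add]
  rw [h1, h2]
  calc (k + (j + 2)).choose (j + 2) ≤ (3 + (j + 2)).choose (j + 2) :=
        Nat.choose_le_choose _ (by omega)
    _ = (3 + (j + 2)).choose 3 := by rw [Nat.choose_symm_add]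
    _ ≤ (4 + (j + 1)).choose 4 := by
        have e1 : 3 + (j + 2) = j + 5 := by ring
        have e2 : 4 + (j + 1) = j + 5 := by ring
        rw [e1, e2]
        have h3 := Nat.choose_succ_right_eq (j + 5) 3
        have h4 : j + 5 - 3 = j + 2 := by omega
        rw [h4] at h3
        simp only [Nat.reduceAdd] at h3
        have h5 : (j + 5).choose 3 * 4 ≤ (j + 5).choose 3 * (j + 2) :=
          Nat.mul_le_mul_left _ (by omega)
        omega
    _ = (4 + (j + 1)).choose (j + 1) := by rw [Nat.choose_symm_add]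
    _ ≤ (e + (j + 1)).choose (j + 1) := Nat.choose_le_choose _ (by omega)

/-- The numerical contradiction in degree at least four. -/
theorem contra_high {e j k s m : ℕ} (he : 4 ≤ e) (hj : 2 ≤ j) (hke : k < e)
    (hs : s < (k + j + 2).choose k) (hm : m = (e + j + 1).choose e + s)
    (hX : ∀ a c, a + c = j + 1 → DD e a c ≤ m) (hK : ∀ a c, a + c = j + 2 → DD k a c ≤ m)
    (hne : ¬ (e = 4 ∧ j = 2 ∧ k = 3)) : False := by
  have fin : 2 * (e + j + 1).choose e ≤ m → (k ≤ 3 ∨ 2 * (k + j + 2).choose k ≤ m) → False := by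
    intro h1 h2
    rcases h2 with h2 | h2
    · have := choose_le_V he hj h2
      omega
    · omega
  rcases Nat.lt_or_ge 3 j with h4 | h4
  · -- j ≥ 4
    have h1 := hX ((j + 2) / 2) ((j + 1) / 2) (by omega)
    have h2 := alpha4 (n := e) (a := (j + 2) / 2) (c := (j + 1) / 2) he (by omega) (by omega)
      (by omega) (by omega)
    have e1 : e + (j + 2) / 2 + (j + 1) / 2 = e + j + 1 := by omega
    rw [e1] at h2
    apply fin (h2.trans h1)
    rcases Nat.lt_or_ge k 4 with h5 | h5
    · left; omega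
    · right
      have h6 := hK ((j + 3) / 2) ((j + 2) / 2) (by omega)
      have h7 := alpha4 (n := k) (a := (j + 3) / 2) (c := (j + 2) / 2) h5 (by omega) (by omega)
        (by omega) (by omega)
      have e2 : k + (j + 3) / 2 + (j + 2) / 2 = k + j + 2 := by omega
      rw [e2] at h7
      exact h7.trans h6
  · rcases Nat.lt_or_ge 2 j with h5 | h5
    · -- j = 3
      have hj3 : j = 3 := by omega
      subst hj3
      rcases Nat.lt_or_ge e 5 with h6 | h6
      · have he4 : e = 4 := by omega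
        subst he4
        have h1 := hX 2 2 (by norm_num)
        have h2 : DD 4 2 2 = 131 := by decide
        have h3 : (k + 3 + 2).choose k ≤ 56 := by
          interval_cases k <;> decide
        have h7 : (4 + 3 + 1).choose 4 = 70 := by decide
        omega
      · have h1 := hX 2 2 (by norm_num)
        have h2 := alpha5 (n := e) (a := 2) (c := 2) h6 le_rfl le_rfl (by omega)
        have e1 : e + 2 + 2 = e + 3 + 1 := by omega
        rw [e1] at h2
        apply fin (h2.trans h1)
        rcases Nat.lt_or_ge k 4 with h7 | h7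
        · left; omega
        · right
          have h8 := hK 3 2 (by norm_num)
          have h9 := alpha4 (n := k) (a := 3) (c := 2) h7 le_rfl le_rfl (by omega) (by omega)
          have e2 : k + 3 + 2 = k + 3 + 2 := rfl
          exact h9.trans h8
    · -- j = 2
      have hj2 : j = 2 := by omega
      subst hj2
      have h1 := hX 2 1 (by norm_num)
      have h2 := hK 2 2 (by norm_num)
      rcases Nat.lt_or_ge e 8 with h6 | h6
      · have d4 : DD 4 2 1 = 55 := by decide
        have d5 : DD 5 2 1 = 96 := by decide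
        have d6 : DD 6 2 1 = 154 := by decide
        have d7 : DD 7 2 1 = 232 := by decide
        have k4 : DD 4 2 2 = 131 := by decide
        have k5 : DD 5 2 2 = 271 := by decide
        have k6 : DD 6 2 2 = 505 := by decide
        have v4 : (4 + 2 + 1).choose 4 = 35 := by decide
        have v5 : (5 + 2 + 1).choose 5 = 56 := by decide
        have v6 : (6 + 2 + 1).choose 6 = 84 := by decide
        have v7 : (7 + 2 + 1).choose 7 = 120 := by decide
        have s0 : (0 + 2 + 2).choose 0 = 1 := by decide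
        have s1 : (1 + 2 + 2).choose 1 = 5 := by decide
        have s2 : (2 + 2 + 2).choose 2 = 15 := by decide
        have s3 : (3 + 2 + 2).choose 3 = 35 := by decide
        have s4 : (4 + 2 + 2).choose 4 = 70 := by decide
        have s5 : (5 + 2 + 2).choose 5 = 126 := by decide
        have s6 : (6 + 2 + 2).choose 6 = 210 := by decide
        interval_cases e <;> interval_cases k <;> omega
      · have h3 := alpha21 h6
        have e1 : e + 3 = e + 2 + 1 := by omega
        rw [e1] at h3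
        rcases Nat.lt_or_ge k 5 with h7 | h7
        · have h8 : (k + 2 + 2).choose k ≤ 70 := by
            interval_cases k <;> decide
          have h9 : 165 ≤ (e + 2 + 1).choose e := by
            have : (e + 2 + 1).choose e = (e + (2 + 1)).choose (2 + 1) := by
              have h10 : e + 2 + 1 = e + (2 + 1) := by ring
              rw [h10, Nat.choose_symm_add]
            rw [this]
            calc 165 = (8 + (2 + 1)).choose (2 + 1) := by decide
              _ ≤ _ := Nat.choose_le_choose _ (by omega)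
          omega
        · have h8 := alpha5 (n := k) (a := 2) (c := 2) h7 le_rfl le_rfl (by omega)
          omega

/-- The remaining cases in degree three. -/
theorem contra_three {e k s m : ℕ} (he : 4 ≤ e) (hke : k < e)
    (hs : 6 * (s + 1) ≤ (k + 1) * (k + 2) * (k + 3)) (hm : 2 * m = (e + 1) * (e + 2) + 2 * s)
    (hX : e * e + e + 1 ≤ m)
    (hM : 2 + 2 * e + k * (k + 1) + 2 * k * e + k * k * (k - 1) ≤ 2 * m) :
    (e = 4 ∧ k = 2 ∧ 21 ≤ m ∧ m ≤ 24) ∨ (e = 4 ∧ k = 3 ∧ 32 ≤ m ∧ m ≤ 34) ∨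
    (e = 5 ∧ k = 3 ∧ 36 ≤ m ∧ m ≤ 40) ∨ (e = 6 ∧ k = 3 ∧ 43 ≤ m ∧ m ≤ 47) ∨
    (e = 7 ∧ k = 4 ∧ m = 70) ∨ (e = 8 ∧ k = 4 ∧ 75 ≤ m ∧ m ≤ 79) ∨
    (e = 11 ∧ k = 5 ∧ m = 133) := by
  have hX' : 3 * (e * e) + 6 ≤ 3 * e + (k + 1) * (k + 2) * (k + 3) := by nlinarith
  have hk5 : k ≤ 5 := by
    by_contra hcon
    push Not at hcon
    obtain ⟨q, rfl⟩ : ∃ q, k = q + 6 := ⟨k - 6, by omega⟩
    have e1 : q + 6 - 1 = q + 5 := by omega
    rw [e1] at hM
    -- (A')
    have hA : 6 * (q + 6) * e + 2 * (q + 6) * (q + 6) * (q + 6) ≤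
        3 * (e * e) + 3 * e + 6 * (q + 6) * (q + 6) + 8 * (q + 6) := by
      nlinarith
    have h2 : 2 * (q + 6) ≤ e := by
      by_contra hlt
      push Not at hlt
      have h3 : 3 * (e * e) + 3 * e ≤ 6 * (q + 6) * e := by nlinarith
      nlinarith [Nat.zero_le (q * q), Nat.zero_le (q * q * q)]
    have h3 : 12 * (q + 6) * (q + 5) ≤ 6 * (q + 5) * e := by nlinarith
    nlinarith [Nat.zero_le (q * q), Nat.zero_le (q * q * q)]
  have he11 : e ≤ 11 := by
    by_contra hcon
    push Not at hcon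
    interval_cases k <;> nlinarith
  interval_cases k <;> interval_cases e <;> omega

end MPc709deT
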