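import Mathlib

/-! Numerical functions of Macaulay type. -/

namespace MPc709deT

/-- the number of monomials of degree `d+1` in `k` variables -/
def b (d k : ℕ) : ℕ := k.multichoose (d + 1)

theorem b_zero_right (d : ℕ) : b d 0 = 0 := Nat.multichoose_zero_succ d

theorem b_zero_left (k : ℕ) : b 0 k = k := Nat.multichoose_one_right k

theorem b_succ (d k : ℕ) : b (d + 1) (k + 1) = b (d + 1) k + b d (k + 1) :=
  Nat.multichoose_succ_succ k (d + 1)

theorem b_one (d : ℕ) : b d 1 = 1 := Nat.multichoose_one (d + 1)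

theorem b_lt (d k : ℕ) : b d k < b d (k + 1) := by
  have h : b d (k + 1) = b d k + (k + 1).multichoose d := Nat.multichoose_succ_succ k d
  have h2 : 0 < (k + 1).multichoose d := by
    rw [Nat.multichoose_eq]
    exact Nat.choose_pos (by omega)
  omega

theorem b_strictMono (d : ℕ) : StrictMono (b d) := strictMono_nat_of_lt_succ (b_lt d)

theorem b_mono (d : ℕ) {i j : ℕ} (h : i ≤ j) : b d i ≤ b d j := (b_strictMono d).monotone h

theorem le_b (d k : ℕ) : k ≤ b d k := (b_strictMono d).le_apply

/-- the largest `k` with `b d k ≤ n` -/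
def kk (d n : ℕ) : ℕ := Nat.findGreatest (fun k => b d k ≤ n) n

theorem b_kk_le (d n : ℕ) : b d (kk d n) ≤ n :=
  Nat.findGreatest_spec (P := fun k => b d k ≤ n) (m := 0) (n := n) (Nat.zero_le _)
    (by rw [b_zero_right]; exact Nat.zero_le _)

theorem lt_b_kk (d n : ℕ) : n < b d (kk d n + 1) := by
  by_contra hcon
  push Not at hcon
  have h1 : kk d n + 1 ≤ n := (le_b d _).trans hcon
  have h2 := Nat.le_findGreatest (P := fun k => b d k ≤ n) h1 hcon
  change kk d n + 1 ≤ kk d n at h2
  omega

theorem kk_unique {d k n : ℕ} (h1 : b d k ≤ n) (h2 : n < b d (k + 1)) : kk d n = k := by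
  have h3 := b_kk_le d n
  have h4 := lt_b_kk d n
  have h5 : kk d n < k + 1 := (b_strictMono d).lt_iff_lt.1 (lt_of_le_of_lt h3 h2)
  have h6 : k < kk d n + 1 := (b_strictMono d).lt_iff_lt.1 (lt_of_le_of_lt h1 h4)
  omega

theorem kk_mono (d : ℕ) {x y : ℕ} (h : x ≤ y) : kk d x ≤ kk d y := by
  have h1 : kk d x < kk d y + 1 :=
    (b_strictMono d).lt_iff_lt.1 (lt_of_le_of_lt ((b_kk_le d x).trans h) (lt_b_kk d y))
  omega

theorem exists_rep (d n : ℕ) : ∃ k u, n = b (d + 1) k + u ∧ u < b d (k + 1) ∧
    kk (d + 1) n = k := by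
  refine ⟨kk (d + 1) n, n - b (d + 1) (kk (d + 1) n), ?_, ?_, rfl⟩
  · have := b_kk_le (d + 1) n
    omega
  · have h1 := b_kk_le (d + 1) n
    have h2 := lt_b_kk (d + 1) n
    rw [b_succ] at h2
    omega

/-- the Macaulay function of degree `d+1` -/
def F : ℕ → ℕ → ℕ
  | 0, n => b 1 n
  | d + 1, n => b (d + 2) (kk (d + 1) n) + F d (n - b (d + 1) (kk (d + 1) n))

theorem F_zero (d : ℕ) : F d 0 = 0 := by
  induction d with
  | zero => exact b_zero_right 1
  | succ d ih =>
    have h : kk (d + 1) 0 = 0 := kk_unique (by rw [b_zero_right]) (by rw [b_one]; omega)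
    unfold F
    rw [h, b_zero_right, b_zero_right, ih]

theorem F_full (d k : ℕ) : F d (b d k) = b (d + 1) k := by
  cases d with
  | zero => rw [b_zero_left]; rfl
  | succ d =>
    have h : kk (d + 1) (b (d + 1) k) = k := kk_unique le_rfl (b_lt _ _)
    unfold F
    rw [h, Nat.sub_self, F_zero]
    rfl

theorem F_block {d k u : ℕ} (hu : u ≤ b d (k + 1)) :
    F (d + 1) (b (d + 1) k + u) = b (d + 2) k + F d u := by
  rcases Nat.lt_or_ge u (b d (k + 1)) with h | h
  · have h1 : kk (d + 1) (b (d + 1) k + u) = k :=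
      kk_unique (Nat.le_add_right _ _) (by rw [b_succ]; omega)
    conv_lhs => unfold F
    rw [h1, Nat.add_sub_cancel_left]
  · have h1 : u = b d (k + 1) := le_antisymm hu h
    subst h1
    rw [← b_succ, F_full, F_full]
    exact b_succ (d + 1) k

theorem b_one_succ (n : ℕ) : b 1 (n + 1) = b 1 n + (n + 1) := by
  rw [b_succ, b_zero_left]

theorem two_b_one (n : ℕ) : 2 * b 1 n = n * (n + 1) := by
  induction n with
  | zero => rw [b_zero_right]
  | succ n ih => rw [b_one_succ]; linarith

theorem F0_add (x y : ℕ) : F 0 (x + y) = F 0 x + F 0 y + x * y := by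
  have h1 := two_b_one x
  have h2 := two_b_one y
  have h3 := two_b_one (x + y)
  have h4 : F 0 (x + y) = b 1 (x + y) := rfl
  have h5 : F 0 x = b 1 x := rfl
  have h6 : F 0 y = b 1 y := rfl
  rw [h4, h5, h6]
  nlinarith

theorem F_lt (d : ℕ) : ∀ n : ℕ, F d n < F d (n + 1) := by
  induction d with
  | zero =>
    intro n
    have := b_one_succ n
    change b 1 n < b 1 (n + 1)
    omega
  | succ d ih =>
    intro n
    obtain ⟨k, u, rfl, hu, -⟩ := exists_rep d n
    rw [F_block hu.le, add_assoc, F_block (Nat.succ_le_of_lt hu)]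
    exact Nat.add_lt_add_left (ih u) _

theorem F_strictMono (d : ℕ) : StrictMono (F d) := strictMono_nat_of_lt_succ (F_lt d)

theorem F_mono (d : ℕ) {x y : ℕ} (h : x ≤ y) : F d x ≤ F d y := (F_strictMono d).monotone h

theorem le_F (d n : ℕ) : n ≤ F d n := (F_strictMono d).le_apply

/-- superadditivity -/
def SS (d : ℕ) : Prop := ∀ x y, F d x + F d y ≤ F d (x + y)

/-- the exchange property -/
def PP (d : ℕ) : Prop := ∀ k x y, x < b d k → y < b d k → b d k ≤ x + y →
  F d x + F d y < F d (b d k) + F d (x + y - b d k)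

theorem move {d : ℕ} (hS : SS d) (hP : PP d) {k x y : ℕ} (hyx : y ≤ x) (hy : 1 ≤ y)
    (hx : x < b (d + 1) k) : ∃ x1 y1, x < x1 ∧ x1 ≤ b (d + 1) k ∧ x1 + y1 = x + y ∧
      F (d + 1) x + F (d + 1) y ≤ F (d + 1) x1 + F (d + 1) y1 ∧
      (x1 = b (d + 1) k → F (d + 1) x + F (d + 1) y < F (d + 1) x1 + F (d + 1) y1) := by
  obtain ⟨i, u, hxe, hu, hi⟩ := exists_rep d x
  obtain ⟨j, v', hye, hv, hj⟩ := exists_rep d (y - 1)
  have hji : j ≤ i := by
    rw [← hi, ← hj]
    exact kk_mono _ (by omega)
  obtain ⟨v, rfl⟩ : ∃ v, v' + 1 = v := ⟨_, rfl⟩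
  set v := v' + 1 with hvdef
  have hv1 : v ≤ b d (j + 1) := by omega
  have hye' : y = b (d + 1) j + v := by omega
  have hik : i + 1 ≤ k := by
    have : i < k := (b_strictMono (d + 1)).lt_iff_lt.1 (by omega)
    omega
  have hvlt : v < b d (i + 1) := by
    rcases Nat.lt_or_ge j i with h | h
    · exact lt_of_le_of_lt hv1 (b_strictMono d (by omega))
    · have : j = i := le_antisymm hji h
      subst this
      omega
  have hFx : F (d + 1) x = b (d + 2) i + F d u := by rw [hxe, F_block hu.le]
  have hFy : F (d + 1) y = b (d + 2) j + F d v := by rw [hye', F_block hv1]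
  have hbs := b_succ d i
  have hbk := b_mono (d + 1) hik
  rcases Nat.lt_or_ge (u + v) (b d (i + 1)) with h | h
  · refine ⟨b (d + 1) i + (u + v), b (d + 1) j, by omega, by omega, by omega, ?_, ?_⟩
    · rw [hFx, hFy, F_block h.le, F_full]
      have h1 := hS u v
      have h2 : d + 1 + 1 = d + 2 := rfl
      rw [h2]
      omega
    · intro hcon
      omega
  · have h1 := hP (i + 1) u v hu hvlt h
    have h2 : F (d + 1) x + F (d + 1) y < F (d + 1) (b (d + 1) i + b d (i + 1)) +
        F (d + 1) (b (d + 1) j + (u + v - b d (i + 1))) := by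
      rw [hFx, hFy, F_block le_rfl, F_block (by omega)]
      omega
    exact ⟨b (d + 1) i + b d (i + 1), b (d + 1) j + (u + v - b d (i + 1)), by omega, by omega,
      by omega, h2.le, fun _ => h2⟩

theorem PP_aux {d : ℕ} (hS : SS d) (hP : PP d) (k : ℕ) : ∀ n x y, b (d + 1) k - x = n → y ≤ x →
    x < b (d + 1) k → b (d + 1) k ≤ x + y →
    F (d + 1) x + F (d + 1) y < F (d + 1) (b (d + 1) k) + F (d + 1) (x + y - b (d + 1) k) := by
  intro n
  induction n using Nat.strong_induction_on with
  | _ n ih =>
    intro x y hn hyx hx hxy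
    obtain ⟨x1, y1, h1, h2, h3, h4, h5⟩ := move hS hP hyx (by omega) hx
    rcases Nat.lt_or_ge x1 (b (d + 1) k) with h | h
    · have h6 := ih (b (d + 1) k - x1) (by omega) x1 y1 rfl (by omega) h (by omega)
      rw [h3] at h6
      omega
    · have h6 : x1 = b (d + 1) k := le_antisymm h2 h
      have h7 := h5 h6
      have h8 : y1 = x + y - b (d + 1) k := by omega
      rw [h6, h8] at h7
      exact h7

theorem SS_aux {d : ℕ} (hS : SS d) (hP : PP d) : ∀ y x, y ≤ x →
    F (d + 1) x + F (d + 1) y ≤ F (d + 1) (x + y) := by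
  intro y
  induction y using Nat.strong_induction_on with
  | _ y ih =>
    intro x hyx
    rcases Nat.eq_zero_or_pos y with h0 | h0
    · subst h0
      rw [F_zero]
      simp
    · have hx : x < b (d + 1) (x + 1) := lt_of_lt_of_le (Nat.lt_succ_self x) (le_b _ _)
      obtain ⟨x1, y1, h1, h2, h3, h4, -⟩ := move hS hP hyx h0 hx
      have h6 := ih y1 (by omega) x1 (by omega)
      rw [h3] at h6
      omega

theorem SS_PP (d : ℕ) : SS d ∧ PP d := by
  induction d with
  | zero =>
    constructor
    · intro x y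
      rw [F0_add]
      omega
    · intro k x y hx hy hxy
      rw [b_zero_left] at hx hy hxy ⊢
      obtain ⟨z, hz⟩ : ∃ z, x + y = k + z := ⟨x + y - k, by omega⟩
      have h1 : x + y - k = z := by omega
      rw [h1]
      have h2 := F0_add x y
      have h3 := F0_add k z
      rw [hz] at h2
      have h4 : k * z < x * y := by
        obtain ⟨p, rfl⟩ : ∃ p, k = x + p := ⟨k - x, by omega⟩
        obtain ⟨q, hq⟩ : ∃ q, x + p = y + q := ⟨x + p - y, by omega⟩
        have hzq : y = z + p := by omega
        have hxq : x = z + q := by omega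
        have hp : 0 < p := by omega
        have hq' : 0 < q := by omega
        subst hzq
        subst hxq
        nlinarith [Nat.mul_pos hp hq']
      omega
  | succ d ih =>
    obtain ⟨hS, hP⟩ := ih
    constructor
    · intro x y
      rcases Nat.le_total y x with h | h
      · exact SS_aux hS hP y x h
      · have := SS_aux hS hP x y h
        rw [add_comm x y]
        omega
    · intro k x y hx hy hxy
      rcases Nat.le_total y x with h | h
      · exact PP_aux hS hP k _ x y rfl h hx hxy
      · have := PP_aux hS hP k _ y x rfl h hy (by omega)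
        rw [add_comm x y]
        omega

theorem F_super (d x y : ℕ) : F d x + F d y ≤ F d (x + y) := (SS_PP d).1 x y

theorem F_exch {d k x y : ℕ} (hx : x < b d k) (hy : y < b d k) (hxy : b d k ≤ x + y) :
    F d x + F d y < F d (b d k) + F d (x + y - b d k) := (SS_PP d).2 k x y hx hy hxy

theorem F_exch_le {d k x y : ℕ} (hx : x ≤ b d k) (hy : y ≤ b d k) (hxy : b d k ≤ x + y) :
    F d x + F d y ≤ F d (b d k) + F d (x + y - b d k) := by
  rcases Nat.lt_or_ge x (b d k) with h | h
  · rcases Nat.lt_or_ge y (b d k) with h' | h'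
    · exact (F_exch h h' hxy).le
    · have h1 : y = b d k := le_antisymm hy h'
      have h2 : x + y - b d k = x := by omega
      rw [h2, h1]
      omega
  · have h1 : x = b d k := le_antisymm hx h
    have h2 : x + y - b d k = y := by omega
    rw [h2, h1]

theorem F_succ_le (d : ℕ) : ∀ n, F (d + 1) n ≤ F d n := by
  have h : ∀ k, b (d + 2) k ≤ F d (b (d + 1) k) := by
    intro k
    induction k with
    | zero => rw [b_zero_right, b_zero_right, F_zero]
    | succ k ih =>
      have h1 : b (d + 2) (k + 1) = b (d + 2) k + b (d + 1) (k + 1) := b_succ (d + 1) k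
      have h2 := F_super d (b (d + 1) k) (b d (k + 1))
      rw [F_full, ← b_succ] at h2
      omega
  intro n
  obtain ⟨k, u, rfl, hu, -⟩ := exists_rep d n
  rw [F_block hu.le]
  have := F_super d (b (d + 1) k) u
  have := h k
  omega

theorem EW0 {a c : ℕ} (hc : 1 ≤ c) : F 0 a + (a + c) ≤ F 0 (a + c) := by
  rw [F0_add]
  have h1 := le_F 0 c
  have h2 : a * 1 ≤ a * c := Nat.mul_le_mul_left a hc
  omega

/-- The inequality of Eckhoff-Wegner type. -/
theorem EW (d : ℕ) : ∀ a c, F (d + 1) a + min (F d c) (a + c) ≤ F (d + 1) (a + c) := by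
  induction d with
  | zero => ?_
  | succ d ih => ?_
  all_goals
    intro a c
  · rcases Nat.eq_zero_or_pos (a + c) with h0 | h0
    · have ha : a = 0 := by omega
      have hc : c = 0 := by omega
      subst ha; subst hc
      simp [F_zero]
    obtain ⟨K, t, hn, ht, hK⟩ := exists_rep 0 (a + c)
    obtain ⟨K', rfl⟩ : ∃ K', K = K' + 1 := by
      refine ⟨K - 1, ?_⟩
      rcases Nat.eq_zero_or_pos K with h | h
      · subst h
        rw [b_zero_right, b_one] at *
        omega
      · omega
    have hFn : F (0 + 1) (a + c) = b 2 (K' + 1) + F 0 t := by rw [hn, F_block ht.le]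
    have hb1 := b_succ 0 K'
    have hb2 := b_succ 1 K'
    have hfull := F_full 0 (K' + 1)
    simp only [Nat.zero_add, Nat.reduceAdd] at hn hFn hb1 hb2 hfull ⊢
    rcases Nat.lt_or_ge t c with h1 | h1
    · rcases Nat.lt_or_ge (b 0 (K' + 1) + t) c with h2 | h2
      · have h3 : F 1 a ≤ F 1 (b 1 K') := F_mono _ (by omega)
        rw [F_full] at h3
        have h4 := le_F 0 t
        have h5 : min (F 0 c) (a + c) ≤ a + c := min_le_right _ _
        rw [hFn]
        simp only [Nat.reduceAdd] at h3
        omega
      · obtain ⟨a', ha'⟩ : ∃ a', a = b 1 K' + a' := ⟨a - b 1 K', by omega⟩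
        have hFa : F (0 + 1) a = b 2 K' + F 0 a' := by rw [ha']; exact F_block (by omega)
        simp only [Nat.zero_add] at hFa
        rcases Nat.lt_or_ge (b 0 (K' + 1)) c with h3 | h3
        · have h4 : F 0 a' + t ≤ F 0 t := by
            have := EW0 (a := a') (c := t - a') (by omega)
            have h5 : a' + (t - a') = t := by omega
            rw [h5] at this
            exact this
          have h5 : min (F 0 c) (a + c) ≤ a + c := min_le_right _ _
          rw [hFn, hFa]
          omega
        · have h4 := F_exch_le (d := 0) (k := K' + 1) (x := a') (y := c) (by omega) h3 (by omega)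
          have h5 : a' + c - b 0 (K' + 1) = t := by omega
          rw [h5] at h4
          have h6 : min (F 0 c) (a + c) ≤ F 0 c := min_le_left _ _
          rw [hFn, hFa]
          omega
    · obtain ⟨a', ha'⟩ : ∃ a', a = b 1 (K' + 1) + a' := ⟨a - b 1 (K' + 1), by omega⟩
      have hFa : F (0 + 1) a = b 2 (K' + 1) + F 0 a' := by rw [ha']; exact F_block (by omega)
      simp only [Nat.zero_add] at hFa
      have h4 := F_super 0 a' c
      have h5 : a' + c = t := by omega
      rw [h5] at h4
      have h6 : min (F 0 c) (a + c) ≤ F 0 c := min_le_left _ _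
      rw [hFn, hFa]
      omega
  · rcases Nat.eq_zero_or_pos (a + c) with h0 | h0
    · have ha : a = 0 := by omega
      have hc : c = 0 := by omega
      subst ha; subst hc
      simp [F_zero]
    obtain ⟨K, t, hn, ht, hK⟩ := exists_rep (d + 1) (a + c)
    obtain ⟨K', rfl⟩ : ∃ K', K = K' + 1 := by
      refine ⟨K - 1, ?_⟩
      rcases Nat.eq_zero_or_pos K with h | h
      · subst h
        rw [b_zero_right, b_one] at *
        omega
      · omega
    have hFn : F (d + 1 + 1) (a + c) = b (d + 3) (K' + 1) + F (d + 1) t := by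
      rw [hn, F_block ht.le]
    have hb1 := b_succ (d + 1) K'
    have hb2 := b_succ (d + 2) K'
    have hfull := F_full (d + 1) (K' + 1)
    have e1 : d + 1 + 1 = d + 2 := rfl
    have e2 : d + 2 + 1 = d + 3 := rfl
    rw [e1] at hn hFn hb1 hfull ⊢
    rw [e2] at hb2
    rcases Nat.lt_or_ge t c with h1 | h1
    · rcases Nat.lt_or_ge (b (d + 1) (K' + 1) + t) c with h2 | h2
      · have h3 : F (d + 2) a ≤ F (d + 2) (b (d + 2) K') := F_mono _ (by omega)
        rw [F_full, e2] at h3
        have h4 := le_F (d + 1) t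
        have h5 : min (F (d + 1) c) (a + c) ≤ a + c := min_le_right _ _
        rw [hFn]
        omega
      · obtain ⟨a', ha'⟩ : ∃ a', a = b (d + 2) K' + a' := ⟨a - b (d + 2) K', by omega⟩
        have hFa : F (d + 2) a = b (d + 3) K' + F (d + 1) a' := by
          rw [ha']; exact F_block (d := d + 1) (by omega)
        rcases Nat.lt_or_ge (b (d + 1) (K' + 1)) c with h3 | h3
        · obtain ⟨c', hc'⟩ : ∃ c', c = b (d + 1) (K' + 1) + c' := ⟨c - b (d + 1) (K' + 1), by omega⟩
          have hEd := ih a' c'
          have h4 : a' + c' = t := by omega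
          rw [h4] at hEd
          rcases Nat.lt_or_ge (b d (K' + 1 + 1)) c' with h5 | h5
          · have h6 : t ≤ F d c' := by
              have h7 : F d (b d (K' + 1 + 1)) ≤ F d c' := F_mono _ h5.le
              rw [F_full] at h7
              omega
            rw [min_eq_right h6] at hEd
            have h8 : min (F (d + 1) c) (a + c) ≤ a + c := min_le_right _ _
            rw [hFn, hFa]
            omega
          · have h6 : F (d + 1) c = b (d + 2) (K' + 1) + F d c' := by rw [hc', F_block h5]
            have h7 : min (F (d + 1) c) (a + c) = b (d + 2) (K' + 1) + min (F d c') t := by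
              rw [h6, hn, Nat.add_min_add_left]
            rw [hFn, hFa, h7]
            omega
        · have h4 := F_exch_le (d := d + 1) (k := K' + 1) (x := a') (y := c) (by omega) h3
            (by omega)
          have h5 : a' + c - b (d + 1) (K' + 1) = t := by omega
          rw [h5] at h4
          have h6 : min (F (d + 1) c) (a + c) ≤ F (d + 1) c := min_le_left _ _
          rw [hFn, hFa]
          omega
    · obtain ⟨a', ha'⟩ : ∃ a', a = b (d + 2) (K' + 1) + a' := ⟨a - b (d + 2) (K' + 1), by omega⟩
      have hFa : F (d + 2) a = b (d + 3) (K' + 1) + F (d + 1) a' := by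
        rw [ha']; exact F_block (d := d + 1) (by omega)
      have h4 := F_super (d + 1) a' c
      have h5 : a' + c = t := by omega
      rw [h5] at h4
      have h6 : min (F (d + 1) c) (a + c) ≤ F (d + 1) c := min_le_left _ _
      rw [hFn, hFa]
      omega

end MPc709deT
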