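import Pool.Agent.Work.MP_c709de_al_sid.CC
import Pool.Agent.Work.MP_c709de_al_top.Num

/-! Macaulay's theorem for families of monomials, with the structure of the extremal families. -/

namespace MPc709deT

open Finset MPc709deS

variable {κ : Type*} [DecidableEq κ]

/-- the link -/
def lk (N : Finset (Multiset κ)) (x : κ) : Finset (Multiset κ) :=
  (N.filter (fun v => x ∈ v)).image (fun v => v.erase x)

/-- the elements avoiding `x` -/
def fr (N : Finset (Multiset κ)) (x : κ) : Finset (Multiset κ) := N.filter (fun v => x ∉ v)

theorem mem_fr {N : Finset (Multiset κ)} {x : κ} {v : Multiset κ} :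
    v ∈ fr N x ↔ v ∈ N ∧ x ∉ v := by
  unfold fr; rw [Finset.mem_filter]

theorem mem_lk {N : Finset (Multiset κ)} {x : κ} {v : Multiset κ} :
    v ∈ lk N x ↔ x ::ₘ v ∈ N := by
  unfold lk
  rw [Finset.mem_image]
  constructor
  · rintro ⟨u, hu, rfl⟩
    rw [Finset.mem_filter] at hu
    rw [Multiset.cons_erase hu.2]; exact hu.1
  · intro h
    exact ⟨x ::ₘ v, by rw [Finset.mem_filter]; exact ⟨h, Multiset.mem_cons_self _ _⟩,
      Multiset.erase_cons_head _ _⟩

theorem card_lk (N : Finset (Multiset κ)) (x : κ) :
    (lk N x).card = (N.filter (fun v => x ∈ v)).card := by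
  unfold lk
  apply Finset.card_image_of_injOn
  intro u hu v hv h
  rw [Finset.mem_coe, Finset.mem_filter] at hu hv
  have h' : u.erase x = v.erase x := h
  rw [← Multiset.cons_erase hu.2, h', Multiset.cons_erase hv.2]

theorem card_fr_lk (N : Finset (Multiset κ)) (x : κ) :
    N.card = (fr N x).card + (lk N x).card := by
  rw [card_lk, add_comm]
  exact (Finset.card_filter_add_card_filter_not _).symm

section

variable [Fintype κ]

theorem cc_fr (N : Finset (Multiset κ)) (x : κ) :
    ((cc N).filter (fun v => ¬ x ∈ v)).card ≤ (cc (fr N x)).card := by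
  apply Finset.card_le_card
  intro u hu
  rw [Finset.mem_filter, mem_cc] at hu
  rw [mem_cc]
  refine ⟨hu.1.1, fun z hz => ?_⟩
  rw [mem_fr]
  exact ⟨hu.1.2 z hz, fun h => hu.2 (Multiset.mem_of_mem_erase h)⟩

theorem erase_mem_cc {N : Finset (Multiset κ)} {x : κ} {v : Multiset κ} (h : x ::ₘ v ∈ cc N) :
    v ∈ N ∧ ∀ z ∈ v, v.erase z ∈ lk N x := by
  rw [mem_cc] at h
  refine ⟨?_, fun z hz => ?_⟩
  · have := h.2 x (Multiset.mem_cons_self _ _)
    rwa [Multiset.erase_cons_head] at this
  · rw [mem_lk]
    have := h.2 z (Multiset.mem_cons_of_mem hz)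
    by_cases hzx : z = x
    · subst hzx
      rw [Multiset.erase_cons_head] at this
      rw [Multiset.cons_erase hz]
      exact this
    · rw [Multiset.erase_cons_tail _ (by simpa using Ne.symm hzx)] at this
      exact this

theorem cc_split0 (N : Finset (Multiset κ)) (x : κ) :
    (cc N).card ≤ (cc (fr N x)).card + N.card := by
  rw [← Finset.card_filter_add_card_filter_not (s := cc N) (fun v => x ∈ v)]
  have h1 := cc_fr N x
  have h2 : ((cc N).filter (fun v => x ∈ v)).card ≤ N.card := by
    apply Finset.card_le_card_of_injOn (fun u => u.erase x)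
    · intro u hu
      rw [Finset.mem_coe, Finset.mem_filter] at hu
      exact (mem_cc.1 hu.1).2 x hu.2
    · intro u hu v hv h
      rw [Finset.mem_coe, Finset.mem_filter] at hu hv
      have h' : u.erase x = v.erase x := h
      rw [← Multiset.cons_erase hu.2, h', Multiset.cons_erase hv.2]
  omega

theorem cc_split1 (N : Finset (Multiset κ)) (hN : ∀ v ∈ N, 1 ≤ Multiset.card v) (x : κ) :
    (cc N).card ≤ (cc (fr N x)).card + (cc (lk N x) ∩ N).card := by
  rw [← Finset.card_filter_add_card_filter_not (s := cc N) (fun v => x ∈ v)]
  have h1 := cc_fr N x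
  have h2 : ((cc N).filter (fun v => x ∈ v)).card ≤ (cc (lk N x) ∩ N).card := by
    apply Finset.card_le_card_of_injOn (fun u => u.erase x)
    · intro u hu
      rw [Finset.mem_coe, Finset.mem_filter] at hu
      obtain ⟨h, hx⟩ := hu
      obtain ⟨v, rfl⟩ := Multiset.exists_cons_of_mem hx
      simp only [Multiset.erase_cons_head]
      obtain ⟨h3, h4⟩ := erase_mem_cc h
      rw [Finset.mem_coe, Finset.mem_inter, mem_cc]
      refine ⟨⟨?_, h4⟩, h3⟩
      rintro rfl
      have := hN 0 h3
      simp at this
    · intro u hu v hv h
      rw [Finset.mem_coe, Finset.mem_filter] at hu hv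
      have h' : u.erase x = v.erase x := h
      rw [← Multiset.cons_erase hu.2, h', Multiset.cons_erase hv.2]
  omega

/-- Macaulay's theorem. -/
theorem mac_le (d : ℕ) : ∀ (n : ℕ) (N : Finset (Multiset κ)), N.card = n →
    (∀ v ∈ N, d + 1 ≤ Multiset.card v) → (cc N).card ≤ F d n := by
  induction d with
  | zero =>
    intro n
    induction n using Nat.strong_induction_on with
    | _ n ih =>
      intro N hn hN
      rcases Finset.eq_empty_or_nonempty N with h0 | ⟨v, hv⟩
      · subst h0
        rw [cc_empty]
        simp
      · obtain ⟨x, hx⟩ : ∃ x, x ∈ v := Multiset.card_pos_iff_exists_mem.1 (by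
          have := hN v hv; omega)
        have h1 := card_fr_lk N x
        have h2 : 0 < (lk N x).card := Finset.card_pos.2 ⟨v.erase x, by
          rw [mem_lk, Multiset.cons_erase hx]; exact hv⟩
        have h3 := ih (fr N x).card (by omega) (fr N x) rfl (fun u hu => hN u (mem_fr.1 hu).1)
        have h4 := cc_split0 N x
        have h5 := EW0 (a := (fr N x).card) (c := (lk N x).card) h2
        rw [← h1, hn] at h5
        omega
  | succ d ihd =>
    intro n
    induction n using Nat.strong_induction_on with
    | _ n ih =>
      intro N hn hN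
      rcases Finset.eq_empty_or_nonempty N with h0 | ⟨v, hv⟩
      · subst h0
        rw [cc_empty]
        simp
      · obtain ⟨x, hx⟩ : ∃ x, x ∈ v := Multiset.card_pos_iff_exists_mem.1 (by
          have := hN v hv; omega)
        have h1 := card_fr_lk N x
        have h2 : 0 < (lk N x).card := Finset.card_pos.2 ⟨v.erase x, by
          rw [mem_lk, Multiset.cons_erase hx]; exact hv⟩
        have h3 := ih (fr N x).card (by omega) (fr N x) rfl (fun u hu => hN u (mem_fr.1 hu).1)
        have h4 := cc_split1 N (fun u hu => by have := hN u hu; omega) x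
        have h5 := ihd _ (lk N x) rfl (fun u hu => by
          have := hN _ (mem_lk.1 hu)
          rw [Multiset.card_cons] at this
          omega)
        have h6 := EW d (fr N x).card (lk N x).card
        rw [← h1, hn] at h6
        have h7 : (cc (lk N x) ∩ N).card ≤ (cc (lk N x)).card :=
          Finset.card_le_card Finset.inter_subset_left
        have h8 : (cc (lk N x) ∩ N).card ≤ n := by
          rw [← hn]; exact Finset.card_le_card Finset.inter_subset_right
        have h9 : (cc (lk N x) ∩ N).card ≤ min (F d (lk N x).card) n := le_min (by omega) h8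
        omega

/-- closed families of degree at least `d+1` -/
structure Cl (d : ℕ) (N : Finset (Multiset κ)) : Prop where
  low : ∀ v ∈ N, d + 1 ≤ Multiset.card v
  down : ∀ v ∈ N, ∀ x ∈ v, d + 2 ≤ Multiset.card v → v.erase x ∈ N

/-- the part of degree `d+1` -/
def bot (d : ℕ) (N : Finset (Multiset κ)) : Finset (Multiset κ) :=
  N.filter (fun v => ¬ d + 2 ≤ Multiset.card v)

/-- the part of degree at least `d+2` -/
def top (d : ℕ) (N : Finset (Multiset κ)) : Finset (Multiset κ) :=
  N.filter (fun v => d + 2 ≤ Multiset.card v)

omit [DecidableEq κ] [Fintype κ] in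
theorem mem_bot {d : ℕ} {N : Finset (Multiset κ)} {v : Multiset κ} :
    v ∈ bot d N ↔ v ∈ N ∧ ¬ d + 2 ≤ Multiset.card v := by
  unfold bot; rw [Finset.mem_filter]

omit [DecidableEq κ] [Fintype κ] in
theorem mem_top {d : ℕ} {N : Finset (Multiset κ)} {v : Multiset κ} :
    v ∈ top d N ↔ v ∈ N ∧ d + 2 ≤ Multiset.card v := by
  unfold top; rw [Finset.mem_filter]

omit [DecidableEq κ] [Fintype κ] in
theorem card_bot_top (d : ℕ) (N : Finset (Multiset κ)) :
    N.card = (bot d N).card + (top d N).card := by
  rw [add_comm]
  exact (Finset.card_filter_add_card_filter_not _).symm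

omit [Fintype κ] in
theorem Cl.top {d : ℕ} {N : Finset (Multiset κ)} (h : Cl d N) : Cl (d + 1) (top d N) where
  low v hv := (mem_top.1 hv).2
  down v hv x hx hc := by
    rw [mem_top]
    refine ⟨h.down v (mem_top.1 hv).1 x hx (by omega), ?_⟩
    rw [Multiset.card_erase_of_mem hx, Nat.pred_eq_sub_one]
    omega

theorem Cl.cc_le {d : ℕ} {N : Finset (Multiset κ)} (h : Cl d N) :
    (cc N).card ≤ (cc (bot d N)).card + (cc (MPc709deT.top d N)).card := by
  refine le_trans (Finset.card_le_card ?_) (Finset.card_union_le _ _)
  intro u hu
  rw [mem_cc] at hu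
  rw [Finset.mem_union, mem_cc, mem_cc]
  rcases Nat.lt_or_ge (Multiset.card u) (d + 3) with hc | hc
  · left
    refine ⟨hu.1, fun x hx => ?_⟩
    rw [mem_bot]
    refine ⟨hu.2 x hx, ?_⟩
    rw [Multiset.card_erase_of_mem hx, Nat.pred_eq_sub_one]
    omega
  · right
    refine ⟨hu.1, fun x hx => ?_⟩
    rw [mem_top]
    refine ⟨hu.2 x hx, ?_⟩
    rw [Multiset.card_erase_of_mem hx, Nat.pred_eq_sub_one]
    omega

omit [Fintype κ] in
theorem Cl.fr {d : ℕ} {N : Finset (Multiset κ)} (h : Cl d N) (x : κ) : Cl d (fr N x) where
  low v hv := h.low v (mem_fr.1 hv).1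
  down v hv y hy hc := by
    rw [mem_fr] at hv ⊢
    exact ⟨h.down v hv.1 y hy hc, fun h' => hv.2 (Multiset.mem_of_mem_erase h')⟩

omit [Fintype κ] in
theorem Cl.lk {d : ℕ} {N : Finset (Multiset κ)} (h : Cl (d + 1) N) (x : κ) : Cl d (lk N x) where
  low v hv := by
    have := h.low _ (mem_lk.1 hv)
    rw [Multiset.card_cons] at this
    omega
  down v hv y hy hc := by
    rw [mem_lk] at hv ⊢
    have h1 := h.down _ hv y (Multiset.mem_cons_of_mem hy) (by rw [Multiset.card_cons]; omega)
    by_cases hyx : y = x
    · subst hyx
      rw [Multiset.erase_cons_head] at h1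
      rw [Multiset.cons_erase hy]
      exact h1
    · rwa [Multiset.erase_cons_tail _ (by simpa using Ne.symm hyx)] at h1

omit [Fintype κ] in
theorem mset_succ_erase {S : Finset κ} {n : ℕ} {u : Multiset κ} (hu : u ∈ mset S (n + 1)) {x : κ}
    (hx : x ∈ u) : u.erase x ∈ mset S n := by
  rw [mem_mset] at hu ⊢
  refine ⟨by rw [Multiset.card_erase_of_mem hx, hu.1]; rfl, fun y hy => ?_⟩
  exact hu.2 y (Multiset.mem_of_mem_erase hy)

omit [Fintype κ] in
theorem mset_mono {S S' : Finset κ} (h : S ⊆ S') (n : ℕ) : mset S n ⊆ mset S' n := by
  intro u hu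
  rw [mem_mset] at hu ⊢
  exact ⟨hu.1, fun x hx => h (hu.2 x hx)⟩

theorem mset_sub_cc {S : Finset κ} {n : ℕ} {N : Finset (Multiset κ)} (h : mset S n ⊆ N) :
    mset S (n + 1) ⊆ cc N := by
  intro u hu
  rw [mem_cc]
  refine ⟨?_, fun x hx => h (mset_succ_erase hu hx)⟩
  rintro rfl
  rw [mem_mset] at hu
  simp at hu

omit [Fintype κ] in
theorem card_mset_b (S : Finset κ) (d : ℕ) : (mset S (d + 1)).card = b d S.card := by
  rw [card_mset]
  unfold b
  rw [Nat.multichoose_eq]

omit [Fintype κ] [DecidableEq κ] in
/-- replacing elements -/
theorem replace_all {N : Finset (Multiset κ)} {x : κ}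
    (hrep : ∀ w y, y ::ₘ w ∈ N → x ::ₘ w ∈ N) : ∀ v2 v1 : Multiset κ, v1 + v2 ∈ N →
    v1 + Multiset.replicate (Multiset.card v2) x ∈ N := by
  intro v2
  induction v2 using Multiset.induction_on with
  | empty => intro v1 h; simpa using h
  | cons y v2 ih =>
    intro v1 h
    rw [Multiset.card_cons, Multiset.replicate_succ, Multiset.add_cons]
    rw [Multiset.add_cons] at h
    have h1 := hrep _ _ h
    rw [← Multiset.cons_add] at h1
    have h2 := ih _ h1
    rwa [Multiset.cons_add] at h2

omit [Fintype κ] in
theorem down_replicate {d : ℕ} {N : Finset (Multiset κ)} (h : Cl d N) {x : κ} :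
    ∀ j, Multiset.replicate (d + 1 + j) x ∈ N → Multiset.replicate (d + 1) x ∈ N := by
  intro j
  induction j with
  | zero => intro h'; exact h'
  | succ j ih =>
    intro h'
    apply ih
    have h1 := h.down _ h' x (by
      rw [Multiset.mem_replicate]; exact ⟨by omega, rfl⟩) (by
      rw [Multiset.card_replicate]; omega)
    have h2 : d + 1 + (j + 1) = (d + 1 + j) + 1 := by omega
    rw [h2, Multiset.replicate_succ, Multiset.erase_cons_head] at h1
    exact h1

theorem clique_zero (N : Finset (Multiset κ)) (hN : Cl 0 N) (h : F 0 N.card ≤ (cc N).card) :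
    ∃ K : Finset κ, K.card = kk 0 N.card ∧ mset K 1 ⊆ N := by
  have h1 := card_bot_top 0 N
  have h2 := hN.cc_le
  have h3 := mac_le 0 _ (bot 0 N) rfl (fun v hv => hN.low v (mem_bot.1 hv).1)
  have h4 := mac_le 1 _ (top 0 N) rfl (fun v hv => (mem_top.1 hv).2)
  have h5 : F 1 (top 0 N).card ≤ F 0 (top 0 N).card := F_succ_le 0 _
  have h6 := F0_add (bot 0 N).card (top 0 N).card
  rw [← h1] at h6
  have htop : top 0 N = ∅ := by
    rcases Finset.eq_empty_or_nonempty (top 0 N) with h0 | hne
    · exact h0
    · exfalso
      have h7 : 0 < (top 0 N).card := Finset.card_pos.2 hne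
      have h8 : 0 < (bot 0 N).card := by
        -- take an element of smallest size
        have hne' : N.Nonempty := by
          obtain ⟨v, hv⟩ := hne
          exact ⟨v, (mem_top.1 hv).1⟩
        obtain ⟨v, hv, hmin⟩ := Finset.exists_min_image N (fun v => Multiset.card v) hne'
        refine Finset.card_pos.2 ⟨v, ?_⟩
        rw [mem_bot]
        refine ⟨hv, fun hc => ?_⟩
        obtain ⟨x, hx⟩ : ∃ x, x ∈ v := Multiset.card_pos_iff_exists_mem.1 (by omega)
        have h9 := hmin _ (hN.down v hv x hx hc)
        rw [Multiset.card_erase_of_mem hx, Nat.pred_eq_sub_one] at h9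
        omega
      have := Nat.mul_pos h8 h7
      omega
  have hall : ∀ v ∈ N, Multiset.card v = 1 := by
    intro v hv
    have h7 := hN.low v hv
    by_contra hcon
    have : v ∈ top 0 N := mem_top.2 ⟨hv, by omega⟩
    rw [htop] at this
    exact Finset.notMem_empty _ this
  refine ⟨univ.filter (fun x => ({x} : Multiset κ) ∈ N), ?_, ?_⟩
  · have h7 : kk 0 N.card = N.card :=
      kk_unique (by rw [b_zero_left]) (by rw [b_zero_left]; omega)
    rw [h7]
    apply Finset.card_bij (fun x _ => ({x} : Multiset κ))
    · intro x hx
      exact (Finset.mem_filter.1 hx).2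
    · intro x _ y _ hxy
      exact Multiset.singleton_inj.1 hxy
    · intro v hv
      obtain ⟨x, rfl⟩ := Multiset.card_eq_one.1 (hall v hv)
      exact ⟨x, Finset.mem_filter.2 ⟨Finset.mem_univ _, hv⟩, rfl⟩
  · intro u hu
    rw [mem_mset] at hu
    obtain ⟨x, rfl⟩ := Multiset.card_eq_one.1 hu.1
    exact (Finset.mem_filter.1 (hu.2 x (by simp))).2

theorem clique_succ (d : ℕ)
    (ihd : ∀ N : Finset (Multiset κ), Cl d N → F d N.card ≤ (cc N).card →
      ∃ K : Finset κ, K.card = kk d N.card ∧ mset K (d + 1) ⊆ N) :
    ∀ (n : ℕ) (N : Finset (Multiset κ)), N.card = n → Cl (d + 1) N →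
      F (d + 1) n ≤ (cc N).card →
      ∃ K : Finset κ, K.card = kk (d + 1) n ∧ mset K (d + 2) ⊆ N := by
  intro n
  induction n using Nat.strong_induction_on with
  | _ n ih =>
    intro N hn hN hext
    rcases Finset.eq_empty_or_nonempty N with h0 | ⟨v, hv⟩
    · subst h0
      rw [Finset.card_empty] at hn
      subst hn
      refine ⟨∅, ?_, ?_⟩
      · rw [Finset.card_empty]
        exact (kk_unique (by rw [b_zero_right]) (by rw [b_one]; omega)).symm
      · intro u hu
        rw [mem_mset] at hu
        obtain ⟨x, hx⟩ : ∃ x, x ∈ u := Multiset.card_pos_iff_exists_mem.1 (by omega)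
        exact absurd (hu.2 x hx) (Finset.notMem_empty _)
    have hvc := hN.low v hv
    obtain ⟨x, hx⟩ : ∃ x, x ∈ v := Multiset.card_pos_iff_exists_mem.1 (by omega)
    have h1 := card_fr_lk N x
    have h2 : 0 < (lk N x).card := Finset.card_pos.2 ⟨v.erase x, by
      rw [mem_lk, Multiset.cons_erase hx]; exact hv⟩
    have hfr := hN.fr x
    have hlk := hN.lk x
    have h3 := mac_le (d + 1) _ (fr N x) rfl hfr.low
    have h4 := cc_split1 N (fun u hu => by have := hN.low u hu; omega) x
    have h5 := mac_le d _ (lk N x) rfl hlk.low
    have h6 := EW d (fr N x).card (lk N x).card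
    rw [← h1, hn] at h6
    have h7 : (cc (lk N x) ∩ N).card ≤ (cc (lk N x)).card :=
      Finset.card_le_card Finset.inter_subset_left
    have h8 : (cc (lk N x) ∩ N).card ≤ n := by
      rw [← hn]; exact Finset.card_le_card Finset.inter_subset_right
    rw [hn] at h1
    set a := (fr N x).card with ha
    set l := (lk N x).card with hl
    obtain ⟨K, t, hnK, ht, hK⟩ := exists_rep d n
    obtain ⟨K', rfl⟩ : ∃ K', K = K' + 1 := by
      refine ⟨K - 1, ?_⟩
      rcases Nat.eq_zero_or_pos K with h | h
      · subst h
        rw [b_zero_right] at hnK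
        rw [b_one] at ht
        omega
      · omega
    rw [hK]
    have hFn : F (d + 1) n = b (d + 2) (K' + 1) + F d t := by rw [hnK, F_block ht.le]
    have hb1 := b_succ d K'
    have hb2 : b (d + 2) (K' + 1) = b (d + 2) K' + b (d + 1) (K' + 1) := b_succ (d + 1) K'
    have hfull := F_full d (K' + 1)
    rcases Nat.lt_or_ge t l with htl | htl
    · rcases Nat.lt_or_ge (b d (K' + 1) + t) l with h9 | h9
      · -- `a` too small
        exfalso
        have h10 : F (d + 1) a < F (d + 1) (b (d + 1) K') := F_strictMono _ (by omega)
        rw [F_full] at h10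
        have h11 := le_F d t
        have h12 : d + 1 + 1 = d + 2 := rfl
        rw [h12] at h10
        omega
      · obtain ⟨a', ha'⟩ : ∃ a', a = b (d + 1) K' + a' := ⟨a - b (d + 1) K', by omega⟩
        have ha'lt : a' < b d (K' + 1) := by omega
        have hFa : F (d + 1) a = b (d + 2) K' + F d a' := by rw [ha', F_block ha'lt.le]
        -- both parts are extremal
        have hq : (cc (lk N x) ∩ N).card ≤ min (F d l) n := le_min (by omega) h8
        have hq1 : F (d + 1) a ≤ (cc (fr N x)).card := by omega
        have hq2 : min (F d l) n ≤ (cc (lk N x) ∩ N).card := by omega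
        -- the conclusion when `cc` of the link is contained in `N`
        have concl : b d (K' + 1) ≤ l → F d l ≤ (cc (lk N x) ∩ N).card →
            ∃ K : Finset κ, K.card = K' + 1 ∧ mset K (d + 2) ⊆ N := by
          intro hl1 hl2
          obtain ⟨K1, hK1, hK1'⟩ := ihd (lk N x) hlk (by rw [← hl]; omega)
          have h10 : K' + 1 ≤ K1.card := by
            rw [hK1]
            have := kk_mono d hl1
            rwa [kk_unique (k := K' + 1) le_rfl (b_lt _ _)] at this
          obtain ⟨K2, hK2, hK2'⟩ := Finset.exists_subset_card_eq h10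
          refine ⟨K2, hK2', ?_⟩
          have h11 : cc (lk N x) ∩ N = cc (lk N x) :=
            Finset.eq_of_subset_of_card_le Finset.inter_subset_left (by omega)
          have h12 : mset K2 (d + 2) ⊆ cc (lk N x) :=
            mset_sub_cc ((mset_mono hK2 _).trans hK1')
          rw [← h11] at h12
          exact h12.trans Finset.inter_subset_right
        rcases Nat.lt_or_ge (b d (K' + 1)) l with h10 | h10
        · rcases Nat.lt_or_ge n (F d l) with h11 | h11
          · -- `N ⊆ cc (lk N x)`
            rw [min_eq_right h11.le] at hq2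
            have h12 : cc (lk N x) ∩ N = N :=
              Finset.eq_of_subset_of_card_le Finset.inter_subset_right (by omega)
            have hrep : ∀ w y, y ::ₘ w ∈ N → x ::ₘ w ∈ N := by
              intro w y hw
              rw [← h12, Finset.mem_inter, mem_cc] at hw
              have := hw.1.2 y (Multiset.mem_cons_self _ _)
              rwa [Multiset.erase_cons_head, mem_lk] at this
            obtain ⟨K0, hK0, hK0'⟩ := ih a (by omega) (fr N x) ha.symm hfr hq1
            have hkk : kk (d + 1) a = K' := kk_unique (by omega) (by omega)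
            rw [hkk] at hK0
            have hxK : x ∉ K0 := by
              intro hxK
              have h13 : Multiset.replicate (d + 2) x ∈ mset K0 (d + 2) := by
                rw [mem_mset]
                refine ⟨Multiset.card_replicate _ _, fun y hy => ?_⟩
                rw [Multiset.eq_of_mem_replicate hy]; exact hxK
              exact (mem_fr.1 (hK0' h13)).2 (Multiset.mem_replicate.2 ⟨by omega, rfl⟩)
            refine ⟨insert x K0, by rw [Finset.card_insert_of_notMem hxK, hK0], ?_⟩
            intro w hw
            rw [mem_mset] at hw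
            rcases Finset.eq_empty_or_nonempty K0 with h0 | ⟨y, hy⟩
            · have h13 : w = Multiset.replicate (d + 2) x := by
                rw [Multiset.eq_replicate]
                refine ⟨hw.1, fun z hz => ?_⟩
                have := hw.2 z hz
                rw [h0] at this
                simpa using this
              rw [h13]
              have h14 := replace_all hrep v 0 (by simpa using hv)
              rw [zero_add] at h14
              obtain ⟨j, hj⟩ : ∃ j, Multiset.card v = d + 1 + 1 + j :=
                ⟨Multiset.card v - (d + 1 + 1), by omega⟩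
              rw [hj] at h14
              exact down_replicate hN j h14
            · set c := w.count x with hc
              set w0 := w.filter (fun z => z ≠ x) with hw0
              have hww : w0 + Multiset.replicate c x = w := by
                have h13 := Multiset.filter_add_not (fun z => z ≠ x) w
                rw [← hw0] at h13
                have h14 : Multiset.filter (fun z => ¬ z ≠ x) w = Multiset.replicate c x := by
                  simp only [ne_eq, not_not]
                  rw [Multiset.filter_eq' w x]
                rw [h14] at h13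
                exact h13
              have h15 : w0 + Multiset.replicate c y ∈ N := by
                apply (mem_fr.1 (hK0' (?_ : _ ∈ mset K0 (d + 2)))).1
                rw [mem_mset]
                constructor
                · rw [Multiset.card_add, Multiset.card_replicate, ← hw.1]
                  conv_rhs => rw [← hww]
                  rw [Multiset.card_add, Multiset.card_replicate]
                · intro z hz
                  rcases Multiset.mem_add.1 hz with hz | hz
                  · rw [hw0, Multiset.mem_filter] at hz
                    exact (Finset.mem_insert.1 (hw.2 z hz.1)).resolve_left hz.2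
                  · rw [Multiset.eq_of_mem_replicate hz]; exact hy
              have h16 := replace_all hrep _ _ h15
              rw [Multiset.card_replicate, hww] at h16
              exact h16
          · rw [min_eq_left h11] at hq2
            exact concl h10.le hq2
        · have hleq : l = b d (K' + 1) := by
            by_contra hne
            have h11 := F_exch (d := d) (k := K' + 1) (x := a') (y := l) ha'lt (by omega) (by omega)
            have h12 : a' + l - b d (K' + 1) = t := by omega
            rw [h12] at h11
            omega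
          have h11 : a' = t := by omega
          apply concl hleq.ge
          rw [hleq, hfull]
          rw [h11] at hFa
          omega
    · -- `a` is large: use the elements avoiding `x`
      have h9 : a = b (d + 1) (K' + 1) + (t - l) := by omega
      have h10 : F (d + 1) a = b (d + 2) (K' + 1) + F d (t - l) := by
        rw [h9, F_block (by omega)]
      have h11 := F_super d l (t - l)
      have h12 : l + (t - l) = t := by omega
      rw [h12] at h11
      obtain ⟨K0, hK0, hK0'⟩ := ih a (by omega) (fr N x) ha.symm hfr (by omega)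
      refine ⟨K0, ?_, ?_⟩
      · rw [hK0]
        exact kk_unique (by omega) (by rw [b_succ]; omega)
      · intro u hu
        exact (mem_fr.1 (hK0' hu)).1

/-- The extremal families contain a full set of monomials in the expected number of variables. -/
theorem clique (d : ℕ) : ∀ N : Finset (Multiset κ), Cl d N → F d N.card ≤ (cc N).card →
    ∃ K : Finset κ, K.card = kk d N.card ∧ mset K (d + 1) ⊆ N := by
  induction d with
  | zero => exact clique_zero
  | succ d ih => exact fun N hN h => clique_succ d ih N.card N rfl hN h

end

end MPc709deT
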