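import Pool.Agent.Work.MP_c709de_al_top.Count2

/-! A verified exhaustive search. -/

namespace MPc709deT

open Finset MPc709deS

/-- `∃ x < n, f x` -/
def anyB (f : ℕ → Bool) : ℕ → Bool
  | 0 => false
  | n + 1 => cond (f n) true (anyB f n)

theorem anyB_of {f : ℕ → Bool} {x : ℕ} (hx : f x = true) : ∀ {n : ℕ}, x < n → anyB f n = true := by
  intro n
  induction n with
  | zero => intro h; omega
  | succ n ih =>
    intro h
    unfold anyB
    rcases Nat.lt_or_ge x n with h1 | h1
    · rw [ih h1]; cases f n <;> rfl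
    · have : x = n := by omega
      rw [← this, hx]; rfl

/-- rotation of a bit mask -/
def rot (m S x : ℕ) : ℕ := (S <<< x) % 2 ^ m ||| (S <<< x) >>> m

def srX (m : ℕ) : ℕ → ℕ → ℕ → ℕ → Bool
  | 0, _, _, _ => true
  | r + 1, bd, S1, U => anyB (fun x =>
      cond (Nat.beq (U &&& rot m S1 x) 0)
        (cond (Nat.beq ((U ||| rot m S1 x) &&& (1 <<< (2 * x % m))) 0)
          (srX m r x (S1 ||| (1 <<< x)) (U ||| rot m S1 x ||| (1 <<< (2 * x % m)))) false)
        false) bd

def srK (m q : ℕ) : ℕ → ℕ → ℕ → ℕ → ℕ → Bool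
  | 0, _, S1, _, U => srX m q m S1 U
  | r + 1, bd, S1, S2, U => anyB (fun x =>
      cond (Nat.beq (U &&& rot m S2 x) 0)
        (cond (Nat.beq ((U ||| rot m S2 x) &&& rot m S1 (2 * x % m)) 0)
          (cond (Nat.beq ((U ||| rot m S2 x ||| rot m S1 (2 * x % m)) &&& (1 <<< (3 * x % m))) 0)
            (srK m q r x (S1 ||| (1 <<< x)) (S2 ||| rot m S1 x ||| (1 <<< (2 * x % m)))
              (U ||| rot m S2 x ||| rot m S1 (2 * x % m) ||| (1 <<< (3 * x % m)))) false)
          false)
        false) bd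

section

variable {m : ℕ}

/-- the bits of `S` are sums of elements of `A` -/
def Rep (m S : ℕ) (A : Set (Multiset (ZMod m))) : Prop :=
  ∀ r, S.testBit r = true → ∃ u ∈ A, u.sum = (r : ZMod m)

theorem Rep.mono {S : ℕ} {A B : Set (Multiset (ZMod m))} (h : Rep m S A) (hAB : A ⊆ B) :
    Rep m S B := fun r hr => by
  obtain ⟨u, hu, hu'⟩ := h r hr
  exact ⟨u, hAB hu, hu'⟩

theorem Rep.or {S S' : ℕ} {A : Set (Multiset (ZMod m))} (h : Rep m S A) (h' : Rep m S' A) :
    Rep m (S ||| S') A := fun r hr => by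
  rw [Nat.testBit_or, Bool.or_eq_true] at hr
  rcases hr with hr | hr
  · exact h r hr
  · exact h' r hr

theorem Rep.rot {S x : ℕ} {A : Set (Multiset (ZMod m))} (h : Rep m S A) :
    Rep m (rot m S x) {u | ∃ v ∈ A, u.sum = v.sum + (x : ZMod m) ∧ True} := by
  intro r hr
  unfold MPc709deT.rot at hr
  rw [Nat.testBit_or, Bool.or_eq_true] at hr
  rcases hr with hr | hr
  · rw [Nat.testBit_mod_two_pow, Bool.and_eq_true, Nat.testBit_shiftLeft, Bool.and_eq_true] at hr
    obtain ⟨h1, h2, h3⟩ := hr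
    have h2' : x ≤ r := by simpa using h2
    obtain ⟨v, hv, hv'⟩ := h _ h3
    refine ⟨{(r : ZMod m)}, ⟨v, hv, ?_, trivial⟩, by simp⟩
    rw [hv', Multiset.sum_singleton, Nat.cast_sub h2']
    ring
  · rw [Nat.testBit_shiftRight, Nat.testBit_shiftLeft, Bool.and_eq_true] at hr
    obtain ⟨h2, h3⟩ := hr
    have h2' : x ≤ m + r := by simpa using h2
    obtain ⟨v, hv, hv'⟩ := h _ h3
    refine ⟨{(r : ZMod m)}, ⟨v, hv, ?_, trivial⟩, by simp⟩
    rw [hv', Multiset.sum_singleton, Nat.cast_sub h2', Nat.cast_add, ZMod.natCast_self]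
    ring

theorem Rep.bit {r : ℕ} {A : Set (Multiset (ZMod m))} {u : Multiset (ZMod m)} (hu : u ∈ A)
    (h : u.sum = (r : ZMod m)) : Rep m (1 <<< r) A := by
  intro r' hr'
  rw [Nat.shiftLeft_eq, one_mul, Nat.testBit_two_pow] at hr'
  have : r = r' := by simpa using hr'
  subst this
  exact ⟨u, hu, h⟩

/-- disjointness of masks -/
theorem Rep.disj {S S' : ℕ} {A A' : Set (Multiset (ZMod m))} (h : Rep m S A) (h' : Rep m S' A')
    (hd : ∀ u ∈ A, ∀ u' ∈ A', u.sum ≠ u'.sum) : Nat.beq (S &&& S') 0 = true := by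
  suffices h0 : S &&& S' = 0 by rw [h0]; rfl
  apply Nat.eq_of_testBit_eq
  intro r
  rw [Nat.zero_testBit, Nat.testBit_and]
  by_contra hcon
  have h1 : (S.testBit r && S'.testBit r) = true := by
    cases hb : (S.testBit r && S'.testBit r) with
    | true => rfl
    | false => exact absurd hb hcon
  rw [Bool.and_eq_true] at h1
  obtain ⟨u, hu, hu1⟩ := h r h1.1
  obtain ⟨u', hu', hu1'⟩ := h' r h1.2
  exact hd u hu u' hu' (hu1.trans hu1'.symm)

/-- multisets with at most `c` elements from `Y` -/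
def low (c : ℕ) (Y : Finset (ZMod m)) : Set (Multiset (ZMod m)) :=
  {u | Multiset.card u ≤ c ∧ ∀ x ∈ u, x ∈ Y}

theorem low_mono {c c' : ℕ} {Y Y' : Finset (ZMod m)} (h : c ≤ c') (hY : Y ⊆ Y') :
    low c Y ⊆ low c' Y' := fun _ hu => ⟨hu.1.trans h, fun x hx => hY (hu.2 x hx)⟩

/-- rotation, at the level of multisets -/
theorem Rep.cons {S : ℕ} {c : ℕ} {Y : Finset (ZMod m)} {x : ℕ} (h : Rep m S (low c Y))
    {w : Multiset (ZMod m)} (hw : w.sum = (x : ZMod m)) :
    Rep m (MPc709deT.rot m S x) {u | ∃ v ∈ low c Y, u = w + v} := by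
  intro r hr
  obtain ⟨u, ⟨v, hv, huv, -⟩, hu⟩ := h.rot (x := x) r hr
  refine ⟨w + v, ⟨v, hv, rfl⟩, ?_⟩
  rw [Multiset.sum_add, hw, ← hu, huv, add_comm]

theorem val_sum_mod [NeZero m] (x : ZMod m) (c : ℕ) :
    (Multiset.replicate c x).sum = ((c * x.val % m : ℕ) : ZMod m) := by
  rw [Multiset.sum_replicate, ZMod.natCast_mod, Nat.cast_mul, ZMod.natCast_zmod_val,
    nsmul_eq_mul]

theorem srX_sound [NeZero m] {X K : Finset (ZMod m)} {A : Set (Multiset (ZMod m))}
    (hA : Set.InjOn Multiset.sum A) (hA2 : low 2 X ⊆ A) :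
    ∀ (r bd S1 U : ℕ) (Y : Finset (ZMod m)), K ⊆ Y → Y ⊆ X → (X \ Y).card = r →
      (∀ x ∈ X \ Y, x.val < bd) → Rep m S1 (low 1 Y) →
      Rep m U {u | u ∈ A ∧ ∀ y ∈ u, y ∈ Y} → srX m r bd S1 U = true := by
  intro r
  induction r with
  | zero => intros; rfl
  | succ r ih =>
    intro bd S1 U Y hKY hYX hr hbd hS1 hU
    have hne : (X \ Y).Nonempty := Finset.card_pos.1 (by omega)
    obtain ⟨x, hx, hmax⟩ := Finset.exists_max_image (X \ Y) (fun x => x.val) hne
    rw [Finset.mem_sdiff] at hx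
    unfold srX
    refine anyB_of (x := x.val) ?_ (hbd x (Finset.mem_sdiff.2 hx))
    have hw : ({x} : Multiset (ZMod m)).sum = ((x.val : ℕ) : ZMod m) := by
      rw [Multiset.sum_singleton, ZMod.natCast_zmod_val]
    have hS1' := hS1.cons hw
    have hins : insert x Y ⊆ X := by
      intro y hy
      rcases Finset.mem_insert.1 hy with rfl | hy
      · exact hx.1
      · exact hYX hy
    have hmem1 : ∀ v ∈ low 1 Y, ({x} : Multiset (ZMod m)) + v ∈ low 2 X := by
      intro v hv
      refine ⟨by rw [Multiset.card_add, Multiset.card_singleton]; have := hv.1; omega, ?_⟩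
      intro y hy
      rcases Multiset.mem_add.1 hy with hy | hy
      · rw [Multiset.mem_singleton] at hy
        rw [hy]; exact hx.1
      · exact hYX (hv.2 y hy)
    have c1 : Nat.beq (U &&& rot m S1 x.val) 0 = true := by
      apply hU.disj hS1'
      rintro u ⟨hu, huY⟩ u' ⟨v, hv, rfl⟩ hsum
      have h1 := hA hu (hA2 (hmem1 v hv)) hsum
      exact hx.2 (huY x (by rw [h1]; simp))
    rw [c1]
    have hU1 : Rep m (U ||| rot m S1 x.val)
        {u | u ∈ A ∧ (∀ y ∈ u, y ∈ insert x Y) ∧ u.count x ≤ 1} := by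
      refine (hU.mono ?_).or (hS1'.mono ?_)
      · rintro u ⟨hu, huY⟩
        refine ⟨hu, fun y hy => Finset.mem_insert_of_mem (huY y hy), ?_⟩
        rw [Multiset.count_eq_zero_of_notMem (fun h => hx.2 (huY x h))]
        omega
      · rintro u ⟨v, hv, rfl⟩
        refine ⟨hA2 (hmem1 v hv), ?_, ?_⟩
        · intro y hy
          rcases Multiset.mem_add.1 hy with hy | hy
          · rw [Multiset.mem_singleton] at hy
            rw [hy]; exact Finset.mem_insert_self _ _
          · exact Finset.mem_insert_of_mem (hv.2 y hy)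
        · rw [Multiset.count_add, Multiset.count_singleton_self,
            Multiset.count_eq_zero_of_notMem (fun h => hx.2 (hv.2 x h))]
    have hxx : Multiset.replicate 2 x ∈ low 2 X :=
      ⟨by simp, fun y hy => by rw [Multiset.eq_of_mem_replicate hy]; exact hx.1⟩
    have hb2 : Rep m (1 <<< (2 * x.val % m)) {Multiset.replicate 2 x} :=
      Rep.bit (Set.mem_singleton _) (val_sum_mod x 2)
    have c2 : Nat.beq ((U ||| rot m S1 x.val) &&& (1 <<< (2 * x.val % m))) 0 = true := by
      apply hU1.disj hb2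
      rintro u ⟨hu, -, huc⟩ u' hu' hsum
      rw [Set.mem_singleton_iff] at hu'
      subst hu'
      have h1 := hA hu (hA2 hxx) hsum
      rw [h1, Multiset.count_replicate_self] at huc
      omega
    rw [c2]
    show srX m r x.val (S1 ||| (1 <<< x.val))
      (U ||| rot m S1 x.val ||| (1 <<< (2 * x.val % m))) = true
    apply ih _ _ _ (insert x Y) (hKY.trans (Finset.subset_insert _ _)) hins
    · have h1 : X \ insert x Y = (X \ Y).erase x := by
        ext y
        simp only [Finset.mem_sdiff, Finset.mem_insert, Finset.mem_erase, not_or]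
        tauto
      rw [h1, Finset.card_erase_of_mem (Finset.mem_sdiff.2 hx), hr]
      rfl
    · intro y hy
      rw [Finset.mem_sdiff, Finset.mem_insert, not_or] at hy
      have h1 := hmax y (Finset.mem_sdiff.2 ⟨hy.1, hy.2.2⟩)
      rcases Nat.lt_or_ge y.val x.val with h2 | h2
      · exact h2
      · exact absurd (ZMod.val_injective m (le_antisymm h1 h2)) hy.2.1
    · apply (hS1.mono (low_mono le_rfl (Finset.subset_insert _ _))).or
      apply Rep.bit (u := {x}) _ hw
      refine ⟨by simp, fun y hy => ?_⟩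
      rw [Multiset.mem_singleton] at hy
      rw [hy]; exact Finset.mem_insert_self _ _
    · refine (hU1.mono ?_).or (hb2.mono ?_)
      · rintro u ⟨h1, h2, -⟩; exact ⟨h1, h2⟩
      · rintro u hu
        rw [Set.mem_singleton_iff] at hu
        subst hu
        refine ⟨hA2 hxx, fun y hy => ?_⟩
        rw [Multiset.eq_of_mem_replicate hy]; exact Finset.mem_insert_self _ _

theorem srK_sound [NeZero m] {X K : Finset (ZMod m)} (hKX : K ⊆ X) {q : ℕ}
    (hq : (X \ K).card = q) {A : Set (Multiset (ZMod m))}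
    (hA : Set.InjOn Multiset.sum A) (hA2 : low 2 X ⊆ A) (hA3 : low 3 K ⊆ A) :
    ∀ (r bd S1 S2 U : ℕ) (Y : Finset (ZMod m)), Y ⊆ K → (K \ Y).card = r →
      (∀ x ∈ K \ Y, x.val < bd) → Rep m S1 (low 1 Y) → Rep m S2 (low 2 Y) →
      Rep m U (low 3 Y) → srK m q r bd S1 S2 U = true := by
  intro r
  induction r with
  | zero =>
    intro bd S1 S2 U Y hYK hr _ hS1 _ hU
    have hY : Y = K := by
      apply Finset.Subset.antisymm hYK
      rw [← Finset.sdiff_eq_empty_iff_subset]
      exact Finset.card_eq_zero.1 hr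
    subst hY
    unfold srK
    apply srX_sound hA hA2 q m S1 U Y (Finset.Subset.refl _) hKX hq
    · intro x _; exact ZMod.val_lt x
    · exact hS1
    · refine hU.mono ?_
      intro u hu
      exact ⟨hA3 hu, hu.2⟩
  | succ r ih =>
    intro bd S1 S2 U Y hYK hr hbd hS1 hS2 hU
    have hne : (K \ Y).Nonempty := Finset.card_pos.1 (by omega)
    obtain ⟨x, hx, hmax⟩ := Finset.exists_max_image (K \ Y) (fun x => x.val) hne
    rw [Finset.mem_sdiff] at hx
    unfold srK
    refine anyB_of (x := x.val) ?_ (hbd x (Finset.mem_sdiff.2 hx))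
    have hw : (Multiset.replicate 1 x : Multiset (ZMod m)).sum = ((x.val : ℕ) : ZMod m) := by
      rw [Multiset.replicate_one, Multiset.sum_singleton, ZMod.natCast_zmod_val]
    have hw2 := val_sum_mod x 2
    have hw3 := val_sum_mod x 3
    have hins : insert x Y ⊆ K := by
      intro y hy
      rcases Finset.mem_insert.1 hy with rfl | hy
      · exact hx.1
      · exact hYK hy
    have hmem : ∀ (i c : ℕ), ∀ v ∈ low c Y, (Multiset.replicate i x : Multiset (ZMod m)) + v ∈
        low (i + c) (insert x Y) := by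
      intro i c v hv
      refine ⟨by rw [Multiset.card_add, Multiset.card_replicate]; have := hv.1; omega, ?_⟩
      intro y hy
      rcases Multiset.mem_add.1 hy with hy | hy
      · rw [Multiset.eq_of_mem_replicate hy]; exact Finset.mem_insert_self _ _
      · exact Finset.mem_insert_of_mem (hv.2 y hy)
    have hcount : ∀ (i c : ℕ), ∀ v ∈ low c Y,
        ((Multiset.replicate i x : Multiset (ZMod m)) + v).count x = i := by
      intro i c v hv
      rw [Multiset.count_add, Multiset.count_replicate_self,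
        Multiset.count_eq_zero_of_notMem (fun h => hx.2 (hv.2 x h))]
      rfl
    have hAins : ∀ u ∈ low 3 (insert x Y), u ∈ A := fun u hu =>
      hA3 (low_mono le_rfl hins hu)
    have hUins : Rep m U {u | u ∈ low 3 (insert x Y) ∧ u.count x ≤ 0} := by
      refine hU.mono ?_
      intro u hu
      refine ⟨low_mono le_rfl (Finset.subset_insert _ _) hu, ?_⟩
      rw [Multiset.count_eq_zero_of_notMem (fun h => hx.2 (hu.2 x h))]
    have hR2 : Rep m (rot m S2 x.val) {u | u ∈ low 3 (insert x Y) ∧ u.count x = 1} := by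
      refine (hS2.cons hw).mono ?_
      rintro u ⟨v, hv, rfl⟩
      exact ⟨hmem 1 2 v hv, hcount 1 2 v hv⟩
    have hR1 : Rep m (rot m S1 (2 * x.val % m))
        {u | u ∈ low 3 (insert x Y) ∧ u.count x = 2} := by
      refine (hS1.cons hw2).mono ?_
      rintro u ⟨v, hv, rfl⟩
      exact ⟨hmem 2 1 v hv, hcount 2 1 v hv⟩
    have hR0 : Rep m (1 <<< (3 * x.val % m)) {u | u ∈ low 3 (insert x Y) ∧ u.count x = 3} := by
      apply Rep.bit (u := Multiset.replicate 3 x) _ hw3
      refine ⟨⟨by simp, fun y hy => ?_⟩, Multiset.count_replicate_self _ _⟩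
      rw [Multiset.eq_of_mem_replicate hy]; exact Finset.mem_insert_self _ _
    have hdis : ∀ (i : ℕ) (S S' : ℕ), Rep m S {u | u ∈ low 3 (insert x Y) ∧ u.count x ≤ i} →
        Rep m S' {u | u ∈ low 3 (insert x Y) ∧ u.count x = i + 1} →
        Nat.beq (S &&& S') 0 = true := by
      intro i S S' h h'
      apply h.disj h'
      rintro u ⟨hu, hu1⟩ u' ⟨hu', hu1'⟩ hsum
      have h1 := hA (hAins u hu) (hAins u' hu') hsum
      rw [h1] at hu1
      omega
    have hor : ∀ (i : ℕ) (S S' : ℕ), Rep m S {u | u ∈ low 3 (insert x Y) ∧ u.count x ≤ i} →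
        Rep m S' {u | u ∈ low 3 (insert x Y) ∧ u.count x = i + 1} →
        Rep m (S ||| S') {u | u ∈ low 3 (insert x Y) ∧ u.count x ≤ i + 1} := by
      intro i S S' h h'
      refine (h.mono ?_).or (h'.mono ?_)
      · rintro u ⟨h1, h2⟩; exact ⟨h1, by omega⟩
      · rintro u ⟨h1, h2⟩; exact ⟨h1, by omega⟩
    have hU1 := hor 0 _ _ hUins hR2
    have hU2 := hor 1 _ _ hU1 hR1
    have hU3 := hor 2 _ _ hU2 hR0
    rw [hdis 0 _ _ hUins hR2, hdis 1 _ _ hU1 hR1, hdis 2 _ _ hU2 hR0]
    show srK m q r x.val (S1 ||| (1 <<< x.val))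
      (S2 ||| rot m S1 x.val ||| (1 <<< (2 * x.val % m)))
      (U ||| rot m S2 x.val ||| rot m S1 (2 * x.val % m) ||| (1 <<< (3 * x.val % m))) = true
    apply ih _ _ _ _ (insert x Y) hins
    · have h1 : K \ insert x Y = (K \ Y).erase x := by
        ext y
        simp only [Finset.mem_sdiff, Finset.mem_insert, Finset.mem_erase, not_or]
        tauto
      rw [h1, Finset.card_erase_of_mem (Finset.mem_sdiff.2 hx), hr]
      rfl
    · intro y hy
      rw [Finset.mem_sdiff, Finset.mem_insert, not_or] at hy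
      have h1 := hmax y (Finset.mem_sdiff.2 ⟨hy.1, hy.2.2⟩)
      rcases Nat.lt_or_ge y.val x.val with h2 | h2
      · exact h2
      · exact absurd (ZMod.val_injective m (le_antisymm h1 h2)) hy.2.1
    · apply (hS1.mono (low_mono le_rfl (Finset.subset_insert _ _))).or
      apply Rep.bit (u := Multiset.replicate 1 x) _ hw
      refine ⟨by simp, fun y hy => ?_⟩
      rw [Multiset.eq_of_mem_replicate hy]; exact Finset.mem_insert_self _ _
    · refine Rep.or (Rep.or (hS2.mono (low_mono le_rfl (Finset.subset_insert _ _)))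
        ((hS1.cons hw).mono ?_)) ?_
      · rintro u ⟨v, hv, rfl⟩
        exact hmem 1 1 v hv
      · apply Rep.bit (u := Multiset.replicate 2 x) _ hw2
        refine ⟨by simp, fun y hy => ?_⟩
        rw [Multiset.eq_of_mem_replicate hy]; exact Finset.mem_insert_self _ _
    · refine hU3.mono ?_
      rintro u ⟨h1, -⟩
      exact h1

/-- soundness of the search -/
theorem search_sound [NeZero m] {X K : Finset (ZMod m)} (hKX : K ⊆ X)
    (h : Set.InjOn Multiset.sum (Tw 1 X K)) :
    srK m (X.card - K.card) K.card m 1 1 1 = true := by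
  have hq : (X \ K).card = X.card - K.card := Finset.card_sdiff_of_subset hKX
  have h3 : low 3 K ⊆ Tw 1 X K := by
    intro u hu
    rcases Nat.lt_or_ge (Multiset.card u) 3 with h1 | h1
    · left; exact ⟨by omega, fun x hx => hKX (hu.2 x hx)⟩
    · right; exact ⟨by have := hu.1; omega, hu.2⟩
  have hrep : ∀ c, Rep m 1 (low c (∅ : Finset (ZMod m))) := by
    intro c r hr
    have : r = 0 := by
      have h1 : (2 ^ 0).testBit r = true := hr
      rw [Nat.testBit_two_pow] at h1
      have : 0 = r := by simpa using h1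
      exact this.symm
    subst this
    exact ⟨0, ⟨by simp, by simp⟩, by simp⟩
  apply srK_sound hKX hq h (fun u hu => Or.inl hu) h3 K.card m 1 1 1 ∅ (Finset.empty_subset _)
  · rw [Finset.sdiff_empty]
  · intro x _; exact ZMod.val_lt x
  · exact hrep 1
  · exact hrep 2
  · exact hrep 3

end

theorem s421 : srK 21 2 2 21 1 1 1 = false := by decide +kernel
theorem s422 : srK 22 2 2 22 1 1 1 = false := by decide +kernel
theorem s423 : srK 23 2 2 23 1 1 1 = false := by decide +kernel
theorem s424 : srK 24 2 2 24 1 1 1 = false := by decide +kernel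
theorem s536 : srK 36 2 3 36 1 1 1 = false := by decide +kernel
theorem s643 : srK 43 3 3 43 1 1 1 = false := by decide +kernel

end MPc709deT
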