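import Pool.Agent.Work.MP_c709de_al_sid.Cor
import Pool.Agent.Work.MP_c709de_al_top.Equal

/-! Necessary and sufficient linear conditions for equality. -/

namespace MPc709deT

open Finset MPc709deS MPc709de

theorem cval_eq {e k t : ℕ} (ht : t ≤ k) (h : (k + 1).choose 2 + t < (e + 1).choose 2) :
    cval e k t = ERV e (e + 1 + ((k + 1).choose 2 + t)) := (ERV_two ht h).symm

theorem choose_gt {e s : ℕ} (he : 3 ≤ e) (hs : s ≤ e) : s < (e + 1).choose 2 := by
  have := choose2 e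
  nlinarith

/-- the case `s = 0` -/
theorem eq_zero {e : ℕ} (he : 3 ≤ e) : maxRho e (e + 1 + 0) = ((ERV e (e + 1 + 0) : ℕ) : ℕ∞) := by
  rw [equality he (by omega)]
  have h2 : (e + 2).choose 2 = (e + 1).choose 1 + (e + 1).choose 2 := Nat.choose_succ_succ' _ _
  rw [Nat.choose_one_right] at h2
  have h3 := choose_gt he (Nat.zero_le e)
  exact ⟨by omega, 0, 0, le_rfl, by simp, config_zero_zero _⟩

theorem eq_lin {e s : ℕ} (he : 3 ≤ e) (h : 15 * s ≤ e) :
    maxRho e (e + 1 + s) = ((ERV e (e + 1 + s) : ℕ) : ℕ∞) := by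
  rcases Nat.eq_zero_or_pos s with h0 | h0
  · subst h0; exact eq_zero he
  · have h1 := kt_spec s
    have h2 := tt_le s
    generalize MPc709deS.kk s = k at h1 h2
    generalize tt s = t at h1 h2
    have hk : 1 ≤ k := by
      by_contra hcon
      have : k = 0 := by omega
      subst this
      simp at h1
      omega
    have h3 := eq_of_linear (e := e) hk h2 (by rw [← h1] at h; exact h)
    rw [cval_eq h2 (by rw [h1]; exact choose_gt he (by omega)), h1] at h3
    exact h3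

theorem eq_asymp {ε : ℝ} (hε : 0 < ε) : ∃ s₀ : ℕ, ∀ s ≥ s₀, ∀ e : ℕ, 3 ≤ e →
    (3 + ε) * (s : ℝ) ≤ e → maxRho e (e + 1 + s) = ((ERV e (e + 1 + s) : ℕ) : ℕ∞) := by
  obtain ⟨k₀, hk₀⟩ := eq_of_asymp hε
  refine ⟨(k₀ + 1).choose 2, ?_⟩
  intro s hs e he h
  have h1 := kt_spec s
  have h2 := tt_le s
  have h3 : k₀ ≤ MPc709deS.kk s := by
    have h4 := MPc709deS.kk_mono hs
    have h5 := (kt_unique (k := k₀) (t := 0) (Nat.zero_le _) rfl).1
    simp only [add_zero] at h5
    omega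
  generalize MPc709deS.kk s = k at h1 h2 h3
  generalize tt s = t at h1 h2
  have h4 := hk₀ k h3 t h2 e (by rw [h1]; exact h)
  have h5 : s ≤ e := by
    have : (s : ℝ) ≤ e := by
      have : (0 : ℝ) ≤ s := Nat.cast_nonneg s
      nlinarith
    exact_mod_cast this
  rw [cval_eq h2 (by rw [h1]; exact choose_gt he h5), h1] at h4
  exact h4

theorem lt_of_few {e k t : ℕ} (he : 3 ≤ e) (ht : t ≤ k) (h : e + t < (k + 1).choose 2) :
    maxRho e (e + 1 + ((k + 1).choose 2 + t)) <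
      ((ERV e (e + 1 + ((k + 1).choose 2 + t)) : ℕ) : ℕ∞) := by
  have h2 : (e + 2).choose 2 = (e + 1).choose 1 + (e + 1).choose 2 := Nat.choose_succ_succ' _ _
  rw [Nat.choose_one_right] at h2
  rcases Nat.lt_or_ge ((k + 1).choose 2 + t) ((e + 1).choose 2) with h1 | h1
  · rw [← cval_eq ht h1]
    have hk : 2 ≤ k := by
      by_contra hcon
      rcases (by omega : k = 0 ∨ k = 1) with rfl | rfl
      · simp at h
      · simp at h; omega
    have hke : k < e := by
      by_contra hcon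
      push Not at hcon
      have := Nat.choose_le_choose 2 (show e + 1 ≤ k + 1 by omega)
      omega
    exact lt_of_small hk ht hke h
  · exact maxRho_lt_ERV he (by omega)

theorem le_of_eq' {e s : ℕ} (he : 3 ≤ e)
    (h : maxRho e (e + 1 + s) = ((ERV e (e + 1 + s) : ℕ) : ℕ∞)) :
    (s : ℝ) - 2 * Real.sqrt (2 * s) ≤ e := by
  by_contra hcon
  push Not at hcon
  have h1 := kt_spec s
  have h2 := tt_le s
  generalize MPc709deS.kk s = k at h1 h2
  generalize tt s = t at h1 h2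
  have e1 := choose2 k
  have h3 : (k : ℝ) ≤ Real.sqrt (2 * s) := by
    apply Real.le_sqrt_of_sq_le
    have : k ^ 2 ≤ 2 * s := by nlinarith
    exact_mod_cast this
  have h4 : (t : ℝ) ≤ k := by exact_mod_cast h2
  have h5 : ((e + t : ℕ) : ℝ) < (((k + 1).choose 2 : ℕ) : ℝ) := by
    have h6 : (s : ℝ) = (((k + 1).choose 2 : ℕ) : ℝ) + t := by
      rw [← h1]; push_cast; ring
    push_cast
    linarith
  have h6 : e + t < (k + 1).choose 2 := by exact_mod_cast h5
  have h7 := lt_of_few he h2 h6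
  rw [h1, h] at h7
  exact lt_irrefl _ h7

/-- the threshold -/
noncomputable def thr (s : ℕ) : ℕ :=
  sInf {n | 3 ≤ n ∧ ∀ e ≥ n, maxRho e (e + 1 + s) = ((ERV e (e + 1 + s) : ℕ) : ℕ∞)}

theorem thr_mem (s : ℕ) : 3 ≤ thr s ∧ ∀ e ≥ thr s,
    maxRho e (e + 1 + s) = ((ERV e (e + 1 + s) : ℕ) : ℕ∞) := by
  have : {n | 3 ≤ n ∧ ∀ e ≥ n, maxRho e (e + 1 + s) = ((ERV e (e + 1 + s) : ℕ) : ℕ∞)}.Nonempty :=
    ⟨15 * s + 3, by omega, fun e he => eq_lin (by omega) (by omega)⟩
  exact Nat.sInf_mem this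

theorem thr_le {s n : ℕ} (hn : 3 ≤ n) (h : ∀ e ≥ n,
    maxRho e (e + 1 + s) = ((ERV e (e + 1 + s) : ℕ) : ℕ∞)) : thr s ≤ n := Nat.sInf_le ⟨hn, h⟩

/-- Linear conditions for equality. -/
theorem threshold : ∃ c : ℕ → ℝ, (∀ s, c s ≤ 15) ∧ Filter.Tendsto c Filter.atTop (nhds 3) ∧
    ∀ e s : ℕ, 3 ≤ e →
      (c s * s ≤ e → maxRho e (e + 1 + s) = ((ERV e (e + 1 + s) : ℕ) : ℕ∞)) ∧
      (maxRho e (e + 1 + s) = ((ERV e (e + 1 + s) : ℕ) : ℕ∞) →
        (s : ℝ) - 2 * Real.sqrt (2 * s) ≤ e) := by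
  refine ⟨fun s => max 3 ((thr s : ℝ) / s), ?_, ?_, ?_⟩
  · intro s
    apply max_le (by norm_num)
    rcases Nat.eq_zero_or_pos s with h | h
    · subst h; simp
    · rw [div_le_iff₀ (by exact_mod_cast h)]
      have : thr s ≤ 15 * s := thr_le (by omega) (fun e he => eq_lin (by omega) he)
      exact_mod_cast this
  · rw [Metric.tendsto_atTop]
    intro ε hε
    obtain ⟨s₀, hs₀⟩ := eq_asymp (ε := ε / 4) (by positivity)
    refine ⟨max (max s₀ 1) ⌈4 / ε⌉₊, ?_⟩
    intro s hs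
    have h1 : s₀ ≤ s := le_trans (le_trans (le_max_left _ _) (le_max_left _ _)) hs
    have h2 : 1 ≤ s := le_trans (le_trans (le_max_right _ _) (le_max_left _ _)) hs
    have h3 : 4 / ε ≤ s := by
      have : ⌈4 / ε⌉₊ ≤ s := le_trans (le_max_right _ _) hs
      exact Nat.ceil_le.1 this
    have h2R : (1 : ℝ) ≤ s := by exact_mod_cast h2
    have h4 : (thr s : ℝ) ≤ (3 + ε / 4) * s + 1 := by
      have h5 : thr s ≤ ⌈(3 + ε / 4) * (s : ℝ)⌉₊ := by
        apply thr_le
        · have : (3 : ℝ) ≤ ⌈(3 + ε / 4) * (s : ℝ)⌉₊ := by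
            refine le_trans ?_ (Nat.le_ceil _)
            nlinarith
          exact_mod_cast this
        · intro e he
          have h6 : (3 + ε / 4) * (s : ℝ) ≤ e := Nat.ceil_le.1 he
          refine hs₀ s h1 e ?_ h6
          have : (3 : ℝ) ≤ e := by nlinarith
          exact_mod_cast this
      calc (thr s : ℝ) ≤ (⌈(3 + ε / 4) * (s : ℝ)⌉₊ : ℝ) := by exact_mod_cast h5
        _ ≤ (3 + ε / 4) * s + 1 := (Nat.ceil_lt_add_one (by positivity)).le
    have h5 : (thr s : ℝ) / s ≤ 3 + ε / 2 := by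
      rw [div_le_iff₀ (by linarith)]
      have h6 : 4 ≤ ε * s := by
        rw [div_le_iff₀ hε] at h3
        linarith
      nlinarith
    rw [Real.dist_eq, abs_lt]
    constructor
    · have := le_max_left (3 : ℝ) ((thr s : ℝ) / s)
      linarith
    · have : max (3 : ℝ) ((thr s : ℝ) / s) ≤ 3 + ε / 2 := max_le (by linarith) h5
      linarith
  · intro e s he
    refine ⟨fun h => ?_, le_of_eq' he⟩
    rcases Nat.eq_zero_or_pos s with h0 | h0
    · subst h0; exact eq_zero he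
    · apply (thr_mem s).2
      have h1 : (thr s : ℝ) / s * s ≤ max 3 ((thr s : ℝ) / s) * s :=
        mul_le_mul_of_nonneg_right (le_max_right _ _) (Nat.cast_nonneg s)
      have h2 : (s : ℝ) ≠ 0 := by
        have : (0 : ℝ) < s := by exact_mod_cast h0
        exact this.ne'
      rw [div_mul_cancel₀ _ h2] at h1
      exact_mod_cast h1.trans h

end MPc709deT
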