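import Pool.Agent.Work.MP_c709de_al_sid.Crit
import Pool.Agent.Work.MP_c709de_al_top.Ideal

/-! Extremal numerical semigroups give sets in `ℤ/m` with distinct sums. -/

namespace MPc709deT

open Finset MPc709deS MPc709de

/-- multisets with at most `j+1` elements from `X`, and multisets with `j+2` elements from `K` -/
def Tw {m : ℕ} (j : ℕ) (X K : Finset (ZMod m)) : Set (Multiset (ZMod m)) :=
  {u | (Multiset.card u ≤ j + 1 ∧ ∀ x ∈ u, x ∈ X) ∨ (Multiset.card u = j + 2 ∧ ∀ x ∈ u, x ∈ K)}

theorem Cl_two {κ : Type*} [Fintype κ] [DecidableEq κ] {T : Finset (Multiset κ)}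
    (h : IsIdeal T) : Cl 1 (two T) where
  low v hv := (mem_two.1 hv).2
  down v hv x hx hc := by
    rw [mem_two, Multiset.card_erase_of_mem hx, Nat.pred_eq_sub_one]
    exact ⟨h.down v (mem_two.1 hv).1 x hx, by omega⟩

theorem b_one_choose (e : ℕ) : b 1 e = (e + 1).choose 2 := by
  unfold b
  rw [Nat.multichoose_eq]
  congr 1

theorem rho_le {Γ : AddSubmonoid ℕ} {e j s : ℕ} (h : IsNumerical Γ) (hed : edim Γ = e + 1)
    (he : 0 < e) (hm : mult Γ = 1 + e + (∑ i ∈ Finset.range j, b (1 + i) e + s))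
    (hs : s < b (1 + j) e) :
    rho Γ + (∑ i ∈ Finset.range j, b (1 + i) e + s) ≤
      (e + 1).choose 2 + (∑ i ∈ Finset.range j, b (1 + 1 + i) e + F (1 + j) s) := by
  obtain ⟨κ, _, _, g, T, hκ, hT, hcard, -, hrho⟩ := exists_ideal h hed
  have h1 := hT.card_eq
  have h2 : (two T).card = ∑ i ∈ Finset.range j, b (1 + i) e + s := by omega
  have h3 := hT.count
  have h4 := (ideal_bound (κ := κ) (by rw [hκ]; exact he) (two T).card 1 (two T) rfl
    (Cl_two hT)).1
  rw [hκ] at h3 h4
  rw [h2, G_sum he j 1 s hs] at h4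
  rw [h2] at h3
  omega

theorem tower_of_extremal {Γ : AddSubmonoid ℕ} {e j s : ℕ} (h : IsNumerical Γ)
    (hed : edim Γ = e + 1) (he : 0 < e)
    (hm : mult Γ = 1 + e + (∑ i ∈ Finset.range j, b (1 + i) e + s))
    (hs : s < b (1 + j) e)
    (hext : (e + 1).choose 2 + (∑ i ∈ Finset.range j, b (1 + 1 + i) e + F (1 + j) s) ≤
      rho Γ + (∑ i ∈ Finset.range j, b (1 + i) e + s)) :
    ∃ X K : Finset (ZMod (mult Γ)), X.card = e ∧ K ⊆ X ∧ K.card = kk (1 + j) s ∧
      Set.InjOn Multiset.sum (Tw j X K) := by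
  obtain ⟨κ, _, _, g, T, hκ, hT, hcard, hinj, hrho⟩ := exists_ideal h hed
  have h1 := hT.card_eq
  have h2 : (two T).card = ∑ i ∈ Finset.range j, b (1 + i) e + s := by omega
  have h3 := hT.count
  rw [hκ, h2] at h3
  obtain ⟨h4, K, hK, hK'⟩ := struct_top (κ := κ) (by rw [hκ]; exact he) j 1 s (two T) (Cl_two hT)
    (by rw [hκ]; exact h2) (by rw [hκ]; exact hs) (by rw [hκ]; omega)
  set q : κ → ZMod (mult Γ) := fun x => ((g x : ℕ) : ZMod (mult Γ)) with hq
  have hinj' : Set.InjOn (fun u : Multiset κ => (u.map q).sum) T := by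
    intro u hu v hv huv
    apply hinj hu hv
    change (((u.map g).sum : ℕ) : ZMod (mult Γ)) = (((v.map g).sum : ℕ) : ZMod (mult Γ))
    rw [cast_sum, cast_sum]
    exact huv
  have hqinj : Function.Injective q := by
    intro a b hab
    have : ({a} : Multiset κ) = {b} := hinj' (hT.one a) (hT.one b) (by simpa using hab)
    exact Multiset.singleton_inj.1 this
  refine ⟨univ.image q, K.image q, ?_, ?_, ?_, ?_⟩
  · rw [Finset.card_image_of_injective _ hqinj, Finset.card_univ, hκ]
  · exact Finset.image_subset_image (Finset.subset_univ _)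
  · rw [Finset.card_image_of_injective _ hqinj, hK]
  · apply injOn_image hinj'
    -- lifting
    have hlift : ∀ (S : Finset κ) (a : Multiset (ZMod (mult Γ))), (∀ x ∈ a, x ∈ S.image q) →
        ∃ u : Multiset κ, u.map q = a ∧ ∀ x ∈ u, x ∈ S := by
      intro S a
      induction a using Multiset.induction_on with
      | empty => intro _; exact ⟨0, rfl, by simp⟩
      | cons x a ih =>
        intro ha
        obtain ⟨u, hu, hu'⟩ := ih (fun y hy => ha y (Multiset.mem_cons_of_mem hy))
        obtain ⟨c, hcS, hc⟩ := Finset.mem_image.1 (ha x (Multiset.mem_cons_self _ _))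
        refine ⟨c ::ₘ u, by rw [Multiset.map_cons, hu, hc], ?_⟩
        intro y hy
        rw [Multiset.mem_cons] at hy
        rcases hy with rfl | hy
        · exact hcS
        · exact hu' y hy
    rintro a (⟨ha, ha'⟩ | ⟨ha, ha'⟩)
    · obtain ⟨u, rfl, -⟩ := hlift univ a ha'
      refine ⟨u, ?_, rfl⟩
      rw [Multiset.card_map] at ha
      rcases Nat.lt_or_ge (Multiset.card u) 2 with h5 | h5
      · rcases Nat.eq_zero_or_pos (Multiset.card u) with h6 | h6
        · rw [Multiset.card_eq_zero.1 h6]; exact hT.zero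
        · obtain ⟨x, rfl⟩ := Multiset.card_eq_one.1 (by omega : Multiset.card u = 1)
          exact hT.one x
      · exact (mem_two.1 (h4 u h5 (by omega))).1
    · obtain ⟨u, rfl, hu⟩ := hlift K a ha'
      refine ⟨u, ?_, rfl⟩
      rw [Multiset.card_map] at ha
      have h5 : u ∈ mset K (1 + j + 1) := by
        rw [mem_mset]; exact ⟨by omega, hu⟩
      exact (mem_two.1 (hK' h5)).1

end MPc709deT
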