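import Pool.Agent.Work.MP_c709de_al.Growth
import Pool.Agent.Work.MP_c709de_al_top.Equal

/-! The order of magnitude of `R(e,m)`, uniformly in two directions. -/

namespace MPc709deT

open Finset MPc709deS MPc709de

theorem G_le_F {e : ℕ} (he : 0 < e) : ∀ n d, G e d n ≤ F d n := by
  intro n
  induction n using Nat.strong_induction_on with
  | _ n ih =>
    intro d
    have hpos := b_pos d he
    rcases Nat.lt_or_ge n (b d e) with h | h
    · rw [G_lt h]
    · rw [G_ge he h]
      have h1 := ih (n - b d e) (by omega) (d + 1)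
      have h2 := F_succ_le d (n - b d e)
      have h3 := F_super d (b d e) (n - b d e)
      have h4 : b d e + (n - b d e) = n := by omega
      rw [h4, F_full] at h3
      omega

theorem G_mono_e {e : ℕ} (he : 0 < e) : ∀ n d, G e d n ≤ G (e + 1) d n := by
  intro n
  induction n using Nat.strong_induction_on with
  | _ n ih =>
    intro d
    have hpos := b_pos d he
    have hlt := b_lt d e
    rcases Nat.lt_or_ge n (b d (e + 1)) with h | h
    · rw [G_lt h]; exact G_le_F he n d
    · rw [G_ge he (by omega)]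
      have h1 := ih (n - b d e) (by omega) (d + 1)
      have h2 := QQ (e := e + 1) (by omega) (n - b d e) d (b d (e + 1) - b d e) (by omega)
        (by omega)
      have h3 : b d (e + 1) - (b d (e + 1) - b d e) = b d e := by omega
      have h4 : n - b d e - (b d (e + 1) - b d e) = n - b d (e + 1) := by omega
      rw [h3, h4, F_full, F_full] at h2
      rw [G_ge (e := e + 1) (by omega) h]
      omega

theorem ERV_G {e m : ℕ} (he : 0 < e) (hem : e < m) :
    ERV e m + (m - 1 - e) = G e 0 (m - 1) := by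
  obtain ⟨j, s, hm, hs⟩ := exists_js he hem
  rw [ERV_eq hm hs]
  have h1 := tele e j
  have h2 := G_sum he j 1 s hs
  have h3 : m - 1 - e = ∑ i ∈ Finset.range j, b (1 + i) e + s := by omega
  have h4 : G e 0 (m - 1) = b (0 + 1) e + G e (0 + 1) (m - 1 - b 0 e) :=
    G_ge he (by rw [b_zero_left]; omega)
  rw [b_zero_left] at h4
  have h5 : b (0 + 1) e = b 1 e := rfl
  have h6 : G e (0 + 1) (m - 1 - e) = G e 1 (m - 1 - e) := rfl
  rw [h5, h6, h3, h2] at h4
  rw [h4, h3]
  have h7 := le_F (1 + j) s
  omega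

theorem ERV_mono_e {e m : ℕ} (he : 0 < e) (hem : e + 1 < m) : ERV e m ≤ ERV (e + 1) m := by
  have h1 := ERV_G he (show e < m by omega)
  have h2 := ERV_G (show 0 < e + 1 by omega) hem
  have h3 := G_mono_e he (m - 1) 0
  omega

theorem b_ratio {d k : ℕ} (hk : 1 ≤ k) : b d (k + 1) ≤ (d + 2) * b d k := by
  have h1 := Nat.choose_mul_succ_eq (k + d) (d + 1)
  rw [← b_choose] at h1
  have h2 : (k + d + 1).choose (d + 1) = b d (k + 1) := by
    rw [b_choose]; congr 1; omega
  have h3 : k + d + 1 - (d + 1) = k := by omega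
  rw [h2, h3] at h1
  have h4 : b d (k + 1) * k ≤ ((d + 2) * b d k) * k := by
    rw [← h1]
    have h5 : k + d + 1 ≤ (d + 2) * k := by nlinarith
    calc b d k * (k + d + 1) ≤ b d k * ((d + 2) * k) := Nat.mul_le_mul_left _ h5
      _ = _ := by ring
  exact Nat.le_of_mul_le_mul_right h4 hk

theorem V_le {e j : ℕ} : (e + 1 + j + 1).choose (e + 1) = (e + (j + 1) + 1).choose (j + 1) := by
  have h1 : e + 1 + j + 1 = (e + 1) + (j + 1) := by omega
  rw [h1, Nat.choose_symm_add]
  congr 1
  omega

/-- `C(e+1,m)` and `C(e,m)` have the same order if `r` is bounded. -/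
theorem ERV_succ_le {e m j s : ℕ} (he : 2 ≤ e) (hj : j + 2 ≤ e)
    (hm : m = 1 + (e + 1) + (∑ i ∈ Finset.range j, b (1 + i) (e + 1) + s))
    (hs : s < b (1 + j) (e + 1)) : ERV (e + 1) m ≤ (2 * j + 8) * ERV e m := by
  obtain ⟨j', s', hm', hs'⟩ := exists_js (show 0 < e by omega) (show e < m by omega)
  have hV := V_eq (e + 1) j
  have hV' := V_eq e j'
  have hlow : j ≤ j' := by
    by_contra hcon
    push Not at hcon
    have h1 := V_eq e (j' + 1)
    rw [Finset.sum_range_succ] at h1
    have h2 : (e + (j' + 1) + 1).choose e ≤ (e + 1 + j + 1).choose (e + 1) := by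
      have h3 : (e + (j' + 1) + 1).choose e ≤ (e + j + 1).choose e :=
        Nat.choose_le_choose e (by omega)
      have h4 : (e + 1 + j + 1).choose (e + 1) = (e + j + 1).choose e + (e + j + 1).choose (e + 1) := by
        have h5 : e + 1 + j + 1 = (e + j + 1) + 1 := by omega
        rw [h5]
        exact Nat.choose_succ_succ' _ _
      omega
    omega
  have hhigh : j' ≤ j + 1 := by
    by_contra hcon
    push Not at hcon
    have h1 := V_eq (e + 1) (j + 1)
    rw [Finset.sum_range_succ] at h1
    have h2 : (e + 1 + (j + 1) + 1).choose (e + 1) ≤ (e + j' + 1).choose e := by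
      have h3 : (e + (j + 2) + 1).choose e ≤ (e + j' + 1).choose e :=
        Nat.choose_le_choose e (by omega)
      have h4 : (e + 1 + (j + 1) + 1) = e + (j + 2) + 1 := by omega
      rw [h4]
      refine le_trans ?_ h3
      have h5 := Nat.choose_succ_right_eq (e + (j + 2) + 1) e
      have h6 : e + (j + 2) + 1 - e = j + 3 := by omega
      rw [h6] at h5
      have h7 : (e + (j + 2) + 1).choose (e + 1) * (e + 1) ≤
          (e + (j + 2) + 1).choose e * (e + 1) := by
        rw [h5]
        exact Nat.mul_le_mul_left _ (by omega)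
      exact Nat.le_of_mul_le_mul_right h7 (by omega)
    omega
  rw [ERV_eq hm hs, ERV_eq hm' hs']
  rcases (by omega : j' = j ∨ j' = j + 1) with rfl | rfl
  · have h1 : s ≤ s' := by
      have h2 : ∑ i ∈ Finset.range j', b (1 + i) e ≤ ∑ i ∈ Finset.range j', b (1 + i) (e + 1) :=
        Finset.sum_le_sum (fun i _ => (b_lt _ _).le)
      omega
    have h2 := F_add_le (1 + j') s (s' - s)
    have h3 : s + (s' - s) = s' := by omega
    rw [h3] at h2
    have h4 := b_ratio (d := 1 + j') (k := e) (by omega)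
    have h5 := le_F (1 + j') s
    have h6 := le_F (1 + j') s'
    obtain ⟨x, hx⟩ : ∃ x, F (1 + j') s' = s' + x := ⟨F (1 + j') s' - s', by omega⟩
    have h7 : b (1 + j') e + F (1 + j') s' - s' = b (1 + j') e + x := by omega
    rw [h7]
    have h8 : (1 + j' + 2) * b (1 + j') e ≤ (2 * j' + 8) * b (1 + j') e :=
      Nat.mul_le_mul_right _ (by omega)
    have h9 : x ≤ (2 * j' + 8) * x := Nat.le_mul_of_pos_left _ (by omega)
    rw [mul_add]
    omega
  · have h1 := F_add_le (1 + j) s (b (1 + j) (e + 1) - s)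
    have h2 : s + (b (1 + j) (e + 1) - s) = b (1 + j) (e + 1) := by omega
    rw [h2, F_full] at h1
    have h3 := b_ratio (d := 1 + j + 1) (k := e) (by omega)
    have h4 := le_F (1 + (j + 1)) s'
    have h5 : b (1 + (j + 1)) e ≤ b (1 + (j + 1)) e + F (1 + (j + 1)) s' - s' := by omega
    have h6 : 1 + j + 1 = 1 + (j + 1) := by omega
    rw [h6] at h1 h3
    calc b (1 + j) (e + 1) + F (1 + j) s - s ≤ b (1 + (j + 1)) (e + 1) := by omega
      _ ≤ (1 + (j + 1) + 2) * b (1 + (j + 1)) e := h3
      _ ≤ (2 * j + 8) * b (1 + (j + 1)) e := Nat.mul_le_mul_right _ (by omega)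
      _ ≤ _ := Nat.mul_le_mul_left _ h5

end MPc709deT
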