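import Pool.Agent.Work.MP_c709de_al_top.Uniform

/-! The order of magnitude of `R(e,m)`. -/

namespace MPc709deT

open Finset MPc709deS MPc709de

/-- size of `C(e,m)` for fixed `e = p+1` -/
theorem ERV_fixed {p m : ℕ} (hp : 1 ≤ p) (hm : p + 1 < m) : ∃ y : ℕ,
    ERV (p + 1) m ≤ y ^ p ∧
    y ^ p ≤ (p + 1) ^ p * p.factorial * ERV (p + 1) m ∧
    m ≤ y ^ (p + 1) ∧ y ^ (p + 1) ≤ (p + 2) ^ (p + 1) * (p + 1).factorial * m := by
  obtain ⟨j, s, hms, hs⟩ := exists_js (show 0 < p + 1 by omega) hm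
  have hV := V_eq (p + 1) j
  have hV' := V_eq (p + 1) (j + 1)
  rw [Finset.sum_range_succ] at hV'
  rw [ERV_eq hms hs]
  refine ⟨p + j + 3, ?_, ?_, ?_, ?_⟩
  · have h1 := F_add_le (1 + j) s (b (1 + j) (p + 1) - s)
    have h2 : s + (b (1 + j) (p + 1) - s) = b (1 + j) (p + 1) := by omega
    rw [h2, F_full] at h1
    have h3 : b (1 + j + 1) (p + 1) = (p + j + 3).choose p := by
      rw [b_choose]
      have h4 : p + 1 + (1 + j + 1) = p + (1 + j + 1 + 1) := by omega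
      rw [h4, ← Nat.choose_symm_add]
      congr 1
      omega
    have h5 := Nat.choose_le_pow (p + j + 3) p
    omega
  · have h1 := le_F (1 + j) s
    have h2 : b (1 + j) (p + 1) = (p + j + 2).choose p := by
      rw [b_choose]
      have h4 : p + 1 + (1 + j) = p + (1 + j + 1) := by omega
      rw [h4, ← Nat.choose_symm_add]
      congr 1
      omega
    have h3 := pow_le_fact_mul_choose (p + j + 2) p
    have h4 : p + j + 2 + 1 - p = j + 3 := by omega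
    rw [h4, ← h2] at h3
    have h5 : p + j + 3 ≤ (p + 1) * (j + 3) := by nlinarith
    calc (p + j + 3) ^ p ≤ ((p + 1) * (j + 3)) ^ p := Nat.pow_le_pow_left h5 p
      _ = (p + 1) ^ p * (j + 3) ^ p := mul_pow _ _ _
      _ ≤ (p + 1) ^ p * (p.factorial * b (1 + j) (p + 1)) := Nat.mul_le_mul_left _ h3
      _ = (p + 1) ^ p * p.factorial * b (1 + j) (p + 1) := by ring
      _ ≤ _ := Nat.mul_le_mul_left _ (by omega)
  · have h1 := Nat.choose_le_pow (p + 1 + (j + 1) + 1) (p + 1)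
    have h2 : p + 1 + (j + 1) + 1 = p + j + 3 := by omega
    rw [h2] at h1 hV'
    omega
  · have h3 := pow_le_fact_mul_choose (p + 1 + j + 1) (p + 1)
    have h4 : p + 1 + j + 1 + 1 - (p + 1) = j + 2 := by omega
    rw [h4, ← hV] at h3
    have h5 : p + j + 3 ≤ (p + 2) * (j + 2) := by nlinarith
    calc (p + j + 3) ^ (p + 1) ≤ ((p + 2) * (j + 2)) ^ (p + 1) := Nat.pow_le_pow_left h5 _
      _ = (p + 2) ^ (p + 1) * (j + 2) ^ (p + 1) := mul_pow _ _ _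
      _ ≤ (p + 2) ^ (p + 1) * ((p + 1).factorial *
          (1 + (p + 1) + ∑ i ∈ Finset.range j, b (1 + i) (p + 1))) := Nat.mul_le_mul_left _ h3
      _ = (p + 2) ^ (p + 1) * (p + 1).factorial *
          (1 + (p + 1) + ∑ i ∈ Finset.range j, b (1 + i) (p + 1)) := by ring
      _ ≤ _ := Nat.mul_le_mul_left _ (by omega)

theorem rpow_key (p : ℕ) (y : ℕ) :
    ((y : ℝ) ^ (p + 1)) ^ ((p : ℝ) / ((p : ℝ) + 1)) = (y : ℝ) ^ p := by
  rw [← Real.rpow_natCast (y : ℝ) (p + 1), ← Real.rpow_mul (Nat.cast_nonneg y)]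
  have h : ((p + 1 : ℕ) : ℝ) * ((p : ℝ) / ((p : ℝ) + 1)) = (p : ℝ) := by
    push_cast
    have : (p : ℝ) + 1 ≠ 0 := by positivity
    field_simp
  rw [h, Real.rpow_natCast]

theorem fixed_e (e : ℕ) : ∃ K : ℕ, 3 ≤ e → ∀ m, e < m →
    maxRho e m ≤ ((K * ERV (e - 1) m : ℕ) : ℕ∞) ∧
      ((ERV (e - 1) m : ℕ) : ℕ∞) ≤ (K : ℕ∞) * maxRho e m := by
  by_cases he : 3 ≤ e
  swap
  · exact ⟨0, fun h => absurd h he⟩
  obtain ⟨c, C, hc, hC, hg⟩ := growth e he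
  obtain ⟨p, rfl⟩ : ∃ p, e = p + 2 := ⟨e - 2, by omega⟩
  have hα : (((p + 2 : ℕ) : ℝ) - 2) / (((p + 2 : ℕ) : ℝ) - 1) = (p : ℝ) / ((p : ℝ) + 1) := by
    push_cast; congr 1 <;> ring
  rw [hα] at hg
  set α : ℝ := (p : ℝ) / ((p : ℝ) + 1) with hαdef
  have hα0 : 0 ≤ α := by positivity
  set E : ℝ := (((p + 1) ^ p * p.factorial : ℕ) : ℝ) with hE
  set D : ℝ := (((p + 2) ^ (p + 1) * (p + 1).factorial : ℕ) : ℝ) with hD
  have hE0 : 0 ≤ E := Nat.cast_nonneg _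
  have hD0 : 0 ≤ D := Nat.cast_nonneg _
  refine ⟨⌈C * E⌉₊ + ⌈D ^ α / c⌉₊, fun _ m hm => ?_⟩
  obtain ⟨N, hN, h1, h2⟩ := hg m hm
  obtain ⟨y, y1, y2, y3, y4⟩ := ERV_fixed (p := p) (m := m) (by omega) (by omega)
  have hpp : p + 2 - 1 = p + 1 := by omega
  rw [hN, hpp]
  have hk := rpow_key p y
  rw [← hαdef] at hk
  have z1 : (m : ℝ) ^ α ≤ (y : ℝ) ^ p := by
    rw [← hk]
    apply Real.rpow_le_rpow (Nat.cast_nonneg _) _ hα0
    exact_mod_cast y3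
  have z2 : (y : ℝ) ^ p ≤ E * (ERV (p + 1) m : ℝ) := by
    rw [hE]; exact_mod_cast y2
  have z3 : (ERV (p + 1) m : ℝ) ≤ (y : ℝ) ^ p := by exact_mod_cast y1
  have z4 : (y : ℝ) ^ p ≤ D ^ α * (m : ℝ) ^ α := by
    rw [← hk, ← Real.mul_rpow hD0 (Nat.cast_nonneg _)]
    apply Real.rpow_le_rpow (by positivity) _ hα0
    rw [hD]; exact_mod_cast y4
  constructor
  · have h3 : (N : ℝ) ≤ ((⌈C * E⌉₊ + ⌈D ^ α / c⌉₊ : ℕ) : ℝ) * (ERV (p + 1) m : ℝ) := by
      calc (N : ℝ) ≤ C * (m : ℝ) ^ α := h2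
        _ ≤ C * (E * (ERV (p + 1) m : ℝ)) :=
            mul_le_mul_of_nonneg_left (z1.trans z2) hC.le
        _ = (C * E) * (ERV (p + 1) m : ℝ) := by ring
        _ ≤ _ := by
            apply mul_le_mul_of_nonneg_right _ (Nat.cast_nonneg _)
            push_cast
            have := Nat.le_ceil (C * E)
            have h5 : (0 : ℝ) ≤ (⌈D ^ α / c⌉₊ : ℝ) := Nat.cast_nonneg _
            linarith
    exact_mod_cast h3
  · have h3 : (ERV (p + 1) m : ℝ) ≤ ((⌈C * E⌉₊ + ⌈D ^ α / c⌉₊ : ℕ) : ℝ) * (N : ℝ) := by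
      calc (ERV (p + 1) m : ℝ) ≤ D ^ α * (m : ℝ) ^ α := z3.trans z4
        _ = (D ^ α / c) * (c * (m : ℝ) ^ α) := by field_simp
        _ ≤ (D ^ α / c) * (N : ℝ) := mul_le_mul_of_nonneg_left h1 (by positivity)
        _ ≤ _ := by
            apply mul_le_mul_of_nonneg_right _ (Nat.cast_nonneg _)
            push_cast
            have := Nat.le_ceil (D ^ α / c)
            have h5 : (0 : ℝ) ≤ (⌈C * E⌉₊ : ℝ) := Nat.cast_nonneg _
            linarith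
    exact_mod_cast h3

theorem bounded_r (r : ℕ) : ∃ K : ℕ, ∀ e m, 3 ≤ e → e < m → MPc709deS.rr e m ≤ r → r < e →
    maxRho e m ≤ ((K * ERV (e - 1) m : ℕ) : ℕ∞) ∧
      ((ERV (e - 1) m : ℕ) : ℕ∞) ≤ (K : ℕ∞) * maxRho e m := by
  obtain ⟨K, hK⟩ := order r
  refine ⟨K + (2 * r + 8), fun e m he hem hr hre => ?_⟩
  obtain ⟨e', rfl⟩ : ∃ e', e = e' + 1 := ⟨e - 1, by omega⟩
  have he' : e' + 1 - 1 = e' := by omega
  rw [he']
  obtain ⟨j, s, hm, hs⟩ := exists_js (show 0 < e' + 1 by omega) hem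
  have hrr := rr_eq hm hs
  rw [hrr] at hr
  constructor
  · refine (maxRho_le_ERV he hem).trans ?_
    have h1 := ERV_succ_le (by omega) (by omega) hm hs
    have h2 : (2 * j + 8) * ERV e' m ≤ (K + (2 * r + 8)) * ERV e' m :=
      Nat.mul_le_mul_right _ (by omega)
    exact_mod_cast h1.trans h2
  · have h1 : m < (e' + 1 + r).choose r := by
      have h2 := V_eq (e' + 1) (j + 1)
      rw [Finset.sum_range_succ] at h2
      have h3 : (e' + 1 + (j + 1) + 1).choose (e' + 1) ≤ (e' + 1 + r).choose (e' + 1) :=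
        Nat.choose_le_choose _ (by omega)
      rw [Nat.choose_symm_add] at h3
      omega
    have h2 := hK (e' + 1) m he hem h1
    have h3 := ERV_mono_e (e := e') (by omega) hem
    calc ((ERV e' m : ℕ) : ℕ∞) ≤ ((ERV (e' + 1) m : ℕ) : ℕ∞) := by exact_mod_cast h3
      _ ≤ (K : ℕ∞) * maxRho (e' + 1) m := h2
      _ ≤ _ := by
          apply mul_le_mul_left
          exact_mod_cast (Nat.le_add_right K (2 * r + 8))

/-- The order of magnitude of `R(e,m)`, up to a factor depending on `min e r`. -/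
theorem uniform : ∃ K : ℕ → ℕ, ∀ e m : ℕ, 3 ≤ e → e < m →
    maxRho e m ≤ ((K (min e (MPc709deS.rr e m)) * ERV (e - 1) m : ℕ) : ℕ∞) ∧
      ((ERV (e - 1) m : ℕ) : ℕ∞) ≤ (K (min e (MPc709deS.rr e m)) : ℕ∞) * maxRho e m := by
  choose K₁ hK₁ using fixed_e
  choose K₂ hK₂ using bounded_r
  refine ⟨fun n => K₁ n + K₂ n, fun e m he hem => ?_⟩
  have key : ∀ a b : ℕ, a ≤ b → (maxRho e m ≤ ((a * ERV (e - 1) m : ℕ) : ℕ∞) ∧
      ((ERV (e - 1) m : ℕ) : ℕ∞) ≤ (a : ℕ∞) * maxRho e m) →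
      (maxRho e m ≤ ((b * ERV (e - 1) m : ℕ) : ℕ∞) ∧
      ((ERV (e - 1) m : ℕ) : ℕ∞) ≤ (b : ℕ∞) * maxRho e m) := by
    intro a b hab h
    refine ⟨h.1.trans ?_, h.2.trans ?_⟩
    · exact_mod_cast (Nat.mul_le_mul_right _ hab)
    · apply mul_le_mul_left
      exact_mod_cast hab
  rcases Nat.lt_or_ge (MPc709deS.rr e m) e with h | h
  · rw [min_eq_right h.le]
    exact key _ _ (Nat.le_add_left _ _) (hK₂ _ e m he hem le_rfl h)
  · rw [min_eq_left h]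
    exact key _ _ (Nat.le_add_right _ _) (hK₁ e he m hem)

/-- The order of magnitude of `R(e,m)`: in terms of `C(e-1,m)`, up to a factor depending on
`min e r`; in terms of `C(e,m)`, up to a factor depending on `r`; in terms of powers of `m`, up to
a factor depending on `e`. -/
theorem uniform_growth : ∃ K : ℕ → ℝ, ∀ e m : ℕ, 3 ≤ e → e < m →
    ∃ N : ℕ, maxRho e m = N ∧
      ((ERV (e - 1) m : ℝ) ≤ K (min e (MPc709deS.rr e m)) * N ∧
        (N : ℝ) ≤ K (min e (MPc709deS.rr e m)) * ERV (e - 1) m) ∧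
      (ERV e m : ℝ) ≤ K (MPc709deS.rr e m) * N ∧
      ((m : ℝ) ^ (((e : ℝ) - 2) / ((e : ℝ) - 1)) ≤ K e * N ∧
        (N : ℝ) ≤ K e * (m : ℝ) ^ (((e : ℝ) - 2) / ((e : ℝ) - 1))) := by
  obtain ⟨K₁, hK₁⟩ := uniform
  choose K₂ hK₂ using order
  have h : ∀ e : ℕ, ∃ c C : ℝ, 0 < c ∧ 0 < C ∧ (3 ≤ e → ∀ m : ℕ, e < m →
      ∃ N : ℕ, maxRho e m = N ∧ c * (m : ℝ) ^ (((e : ℝ) - 2) / ((e : ℝ) - 1)) ≤ N ∧
        (N : ℝ) ≤ C * (m : ℝ) ^ (((e : ℝ) - 2) / ((e : ℝ) - 1))) := by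
    intro e
    by_cases he : 3 ≤ e
    · obtain ⟨c, C, hc, hC, hg⟩ := growth e he
      exact ⟨c, C, hc, hC, fun _ => hg⟩
    · exact ⟨1, 1, one_pos, one_pos, fun h => absurd h he⟩
  choose c C hc hC hg using h
  refine ⟨fun n => K₁ n + K₂ n + 1 / c n + C n, fun e m he hem => ?_⟩
  obtain ⟨N, hN, h1, h2⟩ := hg e he m hem
  obtain ⟨h3, h4⟩ := hK₁ e m he hem
  have hrr : m < (e + MPc709deS.rr e m).choose (MPc709deS.rr e m) := by
    obtain ⟨j, s, hm, hs⟩ := exists_js (show 0 < e by omega) hem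
    rw [rr_eq hm hs]
    have h2 := V_eq e (j + 1)
    rw [Finset.sum_range_succ] at h2
    have h3 : (e + (j + 1) + 1).choose e = (e + (j + 2)).choose (j + 2) := by
      rw [← Nat.choose_symm_add]
      congr 1
    omega
  have h5 := hK₂ _ e m he hem hrr
  rw [hN] at h3 h4 h5
  have h3' : (N : ℝ) ≤ (K₁ (min e (MPc709deS.rr e m)) : ℝ) * (ERV (e - 1) m : ℝ) := by
    exact_mod_cast h3
  have h4' : (ERV (e - 1) m : ℝ) ≤ (K₁ (min e (MPc709deS.rr e m)) : ℝ) * (N : ℝ) := by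
    exact_mod_cast h4
  have h5' : (ERV e m : ℝ) ≤ (K₂ (MPc709deS.rr e m) : ℝ) * (N : ℝ) := by
    exact_mod_cast h5
  have hN0 : (0 : ℝ) ≤ N := Nat.cast_nonneg N
  have hE0 : (0 : ℝ) ≤ (ERV (e - 1) m : ℝ) := Nat.cast_nonneg _
  have hinv : ∀ n, 0 < 1 / c n := fun n => one_div_pos.2 (hc n)
  have hK1 : ∀ n, (0 : ℝ) ≤ K₁ n := fun n => Nat.cast_nonneg _
  have hK2 : ∀ n, (0 : ℝ) ≤ K₂ n := fun n => Nat.cast_nonneg _
  have hpos : ∀ n, (K₁ n : ℝ) ≤ K₁ n + K₂ n + 1 / c n + C n := by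
    intro n
    have h6 := hC n
    have h7 := hinv n
    have h8 := hK2 n
    linarith
  have hpos2 : ∀ n, (K₂ n : ℝ) ≤ K₁ n + K₂ n + 1 / c n + C n := by
    intro n
    have h6 := hC n
    have h7 := hinv n
    have h8 := hK1 n
    linarith
  refine ⟨N, hN, ⟨h4'.trans (mul_le_mul_of_nonneg_right (hpos _) hN0),
    h3'.trans (mul_le_mul_of_nonneg_right (hpos _) hE0)⟩,
    h5'.trans (mul_le_mul_of_nonneg_right (hpos2 _) hN0), ?_, ?_⟩
  · have h5 : (m : ℝ) ^ (((e : ℝ) - 2) / ((e : ℝ) - 1)) ≤ 1 / c e * N := by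
      rw [one_div, ← div_eq_inv_mul, le_div_iff₀ (hc e)]
      linarith
    refine h5.trans (mul_le_mul_of_nonneg_right ?_ hN0)
    have h6 := hC e
    have h7 := hK1 e
    have h8 := hK2 e
    linarith
  · refine h2.trans (mul_le_mul_of_nonneg_right ?_ (by positivity))
    have h6 := hinv e
    have h7 := hK1 e
    have h8 := hK2 e
    linarith

end MPc709deT
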